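import Pool.Agent.Helper7.NT.Defs

/-!
Module Sob: the Sobolev and Poincare inequalities in `H¹_{0,σ}`.
-/

open MeasureTheory Set Filter Topology
open scoped ENNReal

namespace Pool.Agent.Helper7.NT

open Pool.Agent.Helper52.NSE

variable {Ω : Set E3}

/-- The `L²` norm of the derivative of a test field. -/
theorem sob_fderiv (hO : IsOpen Ω) {φ : E3 → E3} (hφ : TestField Ω φ) :
    eLpNorm (fderiv ℝ φ) 2 volume ≤ ∑ i, eLpNorm (pd φ i) 2 (volume.restrict Ω) := by
  have h1 : eLpNorm (fderiv ℝ φ) 2 volume ≤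
      eLpNorm (∑ i : Fin 3, fun x => ‖pd φ i x‖) 2 volume := by
    refine eLpNorm_mono fun x => ?_
    have h2 : (∑ i : Fin 3, fun x => ‖pd φ i x‖) x = ∑ i, ‖pd φ i x‖ := by
      rw [Finset.sum_apply]
    rw [h2, Real.norm_of_nonneg (Finset.sum_nonneg fun i _ => norm_nonneg _)]
    exact fderiv_le_sum φ x
  refine h1.trans ((eLpNorm_sum_le (fun i _ =>
    (hφ.pd_cont i).norm.aestronglyMeasurable) (by norm_num)).trans ?_)
  refine Finset.sum_le_sum fun i _ => le_of_eq ?_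
  rw [eLpNorm_norm]
  have h3 : pd φ i = Ω.indicator (pd φ i) := by
    rw [eq_comm, Set.indicator_eq_self]
    intro x hx
    have h4 : x ∈ tsupport φ := tsupport_fderiv_apply_subset ℝ (EuclideanSpace.single i 1)
      (subset_tsupport _ hx)
    exact hφ.supp h4
  conv_lhs => rw [h3]
  exact eLpNorm_indicator_eq_eLpNorm_restrict hO.measurableSet

/-- The Sobolev inequality for test fields. -/
theorem sob_test (hO : IsOpen Ω) : ∃ K : NNReal, ∀ φ : E3 → E3, TestField Ω φ →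
    eLpNorm φ 6 (volume.restrict Ω) ≤ K * ∑ i, eLpNorm (pd φ i) 2 (volume.restrict Ω) := by
  refine ⟨eLpNormLESNormFDerivOfEqInnerConst (volume : Measure E3) (2 : NNReal), fun φ hφ => ?_⟩
  have hfr : Module.finrank ℝ E3 = 3 := by simp
  have h1 : eLpNorm φ ((6 : NNReal) : ℝ≥0∞) volume ≤
      eLpNormLESNormFDerivOfEqInnerConst (volume : Measure E3) (2 : NNReal) *
        eLpNorm (fderiv ℝ φ) ((2 : NNReal) : ℝ≥0∞) volume := by
    refine eLpNorm_le_eLpNorm_fderiv_of_eq_inner volume (hφ.smooth.of_le (by simp)) hφ.compact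
      (by norm_num) (by rw [hfr]; norm_num) ?_
    rw [hfr]
    norm_num
  have h2 : eLpNorm φ 6 (volume.restrict Ω) ≤ eLpNorm φ ((6 : NNReal) : ℝ≥0∞) volume :=
    eLpNorm_mono_measure φ Measure.restrict_le_self
  refine h2.trans (h1.trans ?_)
  exact mul_le_mul_right (sob_fderiv hO hφ) _

/-- The Sobolev inequality with the sum of the norms of the derivatives. -/
theorem sob_sum (hO : IsOpen Ω) {K : NNReal} (hK : ∀ φ : E3 → E3, TestField Ω φ →
    eLpNorm φ 6 (volume.restrict Ω) ≤ K * ∑ i, eLpNorm (pd φ i) 2 (volume.restrict Ω))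
    {w : E3 → E3} {G : Fin 3 → E3 → E3} (hw : MemH1s Ω w G) :
    eLpNorm w 6 (volume.restrict Ω) ≤ K * ∑ i, eLpNorm (G i) 2 (volume.restrict Ω) := by
  have hex : ∀ n : ℕ, ∃ φ, TestField Ω φ ∧
      eLpNorm (fun x => w x - φ x) 2 (volume.restrict Ω) < ((n : ℝ≥0∞) + 1)⁻¹ ∧
      ∀ i, eLpNorm (fun x => G i x - pd φ i x) 2 (volume.restrict Ω) < ((n : ℝ≥0∞) + 1)⁻¹ :=
    fun n => hw.2.2 _ (ENNReal.inv_pos.2 (by finiteness))
  choose φ hφ hφ1 hφ2 using hex
  have hlim0 : Tendsto (fun n : ℕ => ((n : ℝ≥0∞) + 1)⁻¹) atTop (𝓝 0) := by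
    have h1 := ENNReal.tendsto_inv_nat_nhds_zero.comp (tendsto_add_atTop_nat 1)
    refine h1.congr fun n => ?_
    simp
  have hmeas : TendstoInMeasure (volume.restrict Ω) φ atTop w := by
    refine tendstoInMeasure_of_tendsto_eLpNorm (p := 2) (by norm_num)
      (fun n => (hφ n).smooth.continuous.aestronglyMeasurable) hw.1 ?_
    refine tendsto_of_tendsto_of_tendsto_of_le_of_le tendsto_const_nhds hlim0
      (fun n => zero_le) fun n => ?_
    show eLpNorm (φ n - w) 2 (volume.restrict Ω) ≤ _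
    rw [eLpNorm_sub_comm]
    exact (hφ1 n).le
  obtain ⟨ns, hns, hae⟩ := hmeas.exists_seq_tendsto_ae
  have hfat := Lp.eLpNorm_lim_le_liminf_eLpNorm (p := 6)
    (fun n => (hφ (ns n)).smooth.continuous.aestronglyMeasurable (μ := volume.restrict Ω)) w hae
  refine hfat.trans ?_
  refine le_of_eps (D := K * 3) (by finiteness) fun ε hε => ?_
  have hev : ∀ᶠ n in atTop, eLpNorm (φ (ns n)) 6 (volume.restrict Ω) ≤
      K * ∑ i, eLpNorm (G i) 2 (volume.restrict Ω) + K * 3 * ε := by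
    have h1 : ∀ᶠ n in atTop, (((ns n : ℕ) : ℝ≥0∞) + 1)⁻¹ < ε :=
      (hlim0.comp hns.tendsto_atTop).eventually_lt_const hε
    filter_upwards [h1] with n hn
    refine (hK _ (hφ (ns n))).trans ?_
    have h2 : ∀ i, eLpNorm (pd (φ (ns n)) i) 2 (volume.restrict Ω) ≤
        eLpNorm (G i) 2 (volume.restrict Ω) + ε := by
      intro i
      have h3 : pd (φ (ns n)) i = G i - fun x => G i x - pd (φ (ns n)) i x := by
        funext x
        simp
      rw [h3]
      refine (eLpNorm_sub_le (hw.2.1 i) ((hw.2.1 i).sub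
        ((hφ (ns n)).pd_cont i).aestronglyMeasurable) (by norm_num)).trans ?_
      exact add_le_add le_rfl ((hφ2 (ns n) i).le.trans hn.le)
    calc (K : ℝ≥0∞) * ∑ i, eLpNorm (pd (φ (ns n)) i) 2 (volume.restrict Ω)
        ≤ K * ∑ i : Fin 3, (eLpNorm (G i) 2 (volume.restrict Ω) + ε) :=
          mul_le_mul_right (Finset.sum_le_sum fun i _ => h2 i) _
      _ = K * ∑ i, eLpNorm (G i) 2 (volume.restrict Ω) + K * 3 * ε := by
          rw [Finset.sum_add_distrib, mul_add, Finset.sum_const, Finset.card_univ,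
            Fintype.card_fin, nsmul_eq_mul, mul_assoc]
          rfl
  exact liminf_le_of_frequently_le' hev.frequently

theorem sobolev (hO : IsOpen Ω) (hb : Bornology.IsBounded Ω) :
    ∃ C : ℝ, 0 < C ∧ ∀ (w : E3 → E3) (G : Fin 3 → E3 → E3), MemH1s Ω w G →
      eLpNorm w 6 (volume.restrict Ω) ≤ ENNReal.ofReal (C * Real.sqrt (gsq Ω G)) := by
  obtain ⟨K, hK⟩ := sob_test hO
  refine ⟨3 * ((K : ℝ) + 1), by positivity, fun w G hw => ?_⟩
  refine (sob_sum hO hK hw).trans ?_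
  have hs := Real.sqrt_nonneg (gsq Ω G)
  have h1 : ∀ i, eLpNorm (G i) 2 (volume.restrict Ω) ≤ ENNReal.ofReal (Real.sqrt (gsq Ω G)) := by
    intro i
    rw [nm_eq (hw.grad_memLp i)]
    exact ENNReal.ofReal_le_ofReal (nm_le_gsq (fun i => hw.grad_memLp i) i)
  calc (K : ℝ≥0∞) * ∑ i, eLpNorm (G i) 2 (volume.restrict Ω)
      ≤ K * ∑ _i : Fin 3, ENNReal.ofReal (Real.sqrt (gsq Ω G)) :=
        mul_le_mul_right (Finset.sum_le_sum fun i _ => h1 i) _
    _ = ENNReal.ofReal (3 * (K : ℝ) * Real.sqrt (gsq Ω G)) := by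
        rw [Finset.sum_const, Finset.card_univ, Fintype.card_fin, nsmul_eq_mul,
          ENNReal.ofReal_mul (by positivity), ENNReal.ofReal_mul (by norm_num),
          ENNReal.ofReal_coe_nnreal, ← mul_assoc, mul_comm (K : ℝ≥0∞)]
        congr 2
        norm_num
    _ ≤ ENNReal.ofReal (3 * ((K : ℝ) + 1) * Real.sqrt (gsq Ω G)) := by
        refine ENNReal.ofReal_le_ofReal (mul_le_mul_of_nonneg_right ?_ hs)
        linarith

theorem poincare (hO : IsOpen Ω) (hb : Bornology.IsBounded Ω) :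
    ∃ C : ℝ, 0 < C ∧ ∀ (w : E3 → E3) (G : Fin 3 → E3 → E3), MemH1s Ω w G →
      nm Ω w ≤ C * Real.sqrt (gsq Ω G) := by
  obtain ⟨C, hC, hS⟩ := sobolev hO hb
  have hfin : IsFiniteMeasure (volume.restrict Ω) := ⟨by
    rw [Measure.restrict_apply_univ]
    exact hb.measure_lt_top⟩
  set V : ℝ≥0∞ := (volume.restrict Ω) Set.univ ^
    (1 / (2 : ℝ≥0∞).toReal - 1 / (6 : ℝ≥0∞).toReal) with hV
  have hVt : V ≠ ⊤ := by
    rw [hV]
    refine ENNReal.rpow_ne_top_of_nonneg ?_ (measure_ne_top _ _)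
    norm_num
  refine ⟨C * (V.toReal + 1), by positivity, fun w G hw => ?_⟩
  have hs := Real.sqrt_nonneg (gsq Ω G)
  have hw2 := hw.toL2.memLp
  have h1 : eLpNorm w 2 (volume.restrict Ω) ≤ ENNReal.ofReal (C * Real.sqrt (gsq Ω G)) * V :=
    (eLpNorm_le_eLpNorm_mul_rpow_measure_univ (p := 2) (q := 6) (by norm_num) hw2.1).trans
      (mul_le_mul_left (hS w G hw) _)
  rw [nm_eq hw2, ← ENNReal.ofReal_toReal hVt, ← ENNReal.ofReal_mul (by positivity)] at h1
  have h2 := (ENNReal.ofReal_le_ofReal_iff (by positivity)).1 h1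
  refine h2.trans ?_
  have hV0 : 0 ≤ V.toReal := ENNReal.toReal_nonneg
  nlinarith [mul_nonneg hC.le hs]

end Pool.Agent.Helper7.NT
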