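import Pool.Agent.Helper7.NT.Defs

/-!
Module Vsp: differences in `H¹_{0,σ}`, elementary facts about the squared gradient norm.
-/

open MeasureTheory Set Filter Topology
open scoped ENNReal

namespace Pool.Agent.Helper7.NT

open Pool.Agent.Helper52.NSE

variable {Ω : Set E3}

theorem Vsp_pd_sub {φ ψ : E3 → E3} (hφ : TestField Ω φ) (hψ : TestField Ω ψ) (i : Fin 3)
    (x : E3) : pd (fun y => φ y - ψ y) i x = pd φ i x - pd ψ i x := by
  have h1 : DifferentiableAt ℝ φ x := (hφ.smooth.differentiable (by simp)) x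
  have h2 : DifferentiableAt ℝ ψ x := (hψ.smooth.differentiable (by simp)) x
  unfold pd
  rw [fderiv_fun_sub h1 h2]
  rfl

theorem Vsp_testField_sub {φ ψ : E3 → E3} (hφ : TestField Ω φ) (hψ : TestField Ω ψ) :
    TestField Ω (fun x => φ x - ψ x) where
  smooth := hφ.smooth.sub hψ.smooth
  compact := by
    have h := hφ.compact.sub hψ.compact
    exact h
  supp := by
    have h : tsupport (fun x => φ x - ψ x) ⊆ tsupport φ ∪ tsupport ψ := tsupport_sub φ ψ
    exact h.trans (union_subset hφ.supp hψ.supp)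
  div := by
    intro x
    have h1 := hφ.div x
    have h2 := hψ.div x
    unfold divg at h1 h2 ⊢
    simp only [Vsp_pd_sub hφ hψ]
    simp only [PiLp.sub_apply, Finset.sum_sub_distrib]
    rw [h1, h2, sub_zero]

theorem memH1s_sub {a b : E3 → E3} {A B : Fin 3 → E3 → E3} (ha : MemH1s Ω a A)
    (hb : MemH1s Ω b B) : MemH1s Ω (fun x => a x - b x) (fun i x => A i x - B i x) := by
  refine ⟨ha.1.sub hb.1, fun i => (ha.2.1 i).sub (hb.2.1 i), fun ε hε => ?_⟩
  have hε2 : 0 < ε / 2 := ENNReal.half_pos hε.ne'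
  obtain ⟨φ, hφ, h1, h2⟩ := ha.2.2 (ε / 2) hε2
  obtain ⟨ψ, hψ, h3, h4⟩ := hb.2.2 (ε / 2) hε2
  have hφm : AEStronglyMeasurable φ (volume.restrict Ω) := (hφ.memLp _ 2).1
  have hψm : AEStronglyMeasurable ψ (volume.restrict Ω) := (hψ.memLp _ 2).1
  refine ⟨fun x => φ x - ψ x, Vsp_testField_sub hφ hψ, ?_, fun i => ?_⟩
  · have e : (fun x => a x - b x - (φ x - ψ x)) = (fun x => a x - φ x) - (fun x => b x - ψ x) := by
      funext x
      simp only [Pi.sub_apply]
      abel
    rw [e]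
    refine (eLpNorm_sub_le (ha.1.sub hφm) (hb.1.sub hψm) (by norm_num)).trans_lt ?_
    calc _ < ε / 2 + ε / 2 := ENNReal.add_lt_add h1 h3
      _ = ε := ENNReal.add_halves ε
  · have hφi : AEStronglyMeasurable (pd φ i) (volume.restrict Ω) := (hφ.pd_memLp i _ 2).1
    have hψi : AEStronglyMeasurable (pd ψ i) (volume.restrict Ω) := (hψ.pd_memLp i _ 2).1
    have e : (fun x => A i x - B i x - pd (fun y => φ y - ψ y) i x) =
        (fun x => A i x - pd φ i x) - (fun x => B i x - pd ψ i x) := by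
      funext x
      simp only [Pi.sub_apply, Vsp_pd_sub hφ hψ]
      abel
    rw [e]
    refine (eLpNorm_sub_le ((ha.2.1 i).sub hφi) ((hb.2.1 i).sub hψi) (by norm_num)).trans_lt ?_
    calc _ < ε / 2 + ε / 2 := ENNReal.add_lt_add (h2 i) (h4 i)
      _ = ε := ENNReal.add_halves ε

theorem gsq_sub_le {G A : Fin 3 → E3 → E3} (hG : ∀ i, MemLp (G i) 2 (volume.restrict Ω))
    (hA : ∀ i, MemLp (A i) 2 (volume.restrict Ω)) :
    gsq Ω (fun i x => G i x - A i x) ≤ 2 * gsq Ω G + 2 * gsq Ω A := by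
  unfold gsq
  have i1 : Integrable (fun x => ∑ i, ‖G i x‖ ^ 2) (volume.restrict Ω) :=
    integrable_finsetSum _ fun i _ => sq_int (hG i)
  have i2 : Integrable (fun x => ∑ i, ‖A i x‖ ^ 2) (volume.restrict Ω) :=
    integrable_finsetSum _ fun i _ => sq_int (hA i)
  have i3 : Integrable (fun x => ∑ i, ‖G i x - A i x‖ ^ 2) (volume.restrict Ω) :=
    integrable_finsetSum _ fun i _ => sq_int ((hG i).sub (hA i))
  rw [← integral_const_mul, ← integral_const_mul, ← integral_add (i1.const_mul 2) (i2.const_mul 2)]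
  refine integral_mono i3 ((i1.const_mul 2).add (i2.const_mul 2)) fun x => ?_
  simp only
  rw [Finset.mul_sum, Finset.mul_sum, ← Finset.sum_add_distrib]
  refine Finset.sum_le_sum fun i _ => ?_
  have h1 := norm_sub_le (G i x) (A i x)
  have h2 := norm_nonneg (G i x - A i x)
  nlinarith [sq_nonneg (‖G i x‖ - ‖A i x‖), norm_nonneg (G i x), norm_nonneg (A i x)]

theorem gp_int {G A : Fin 3 → E3 → E3} (hG : ∀ i, MemLp (G i) 2 (volume.restrict Ω))
    (hA : ∀ i, MemLp (A i) 2 (volume.restrict Ω)) :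
    Integrable (fun x => ∑ i, inner ℝ (G i x) (A i x)) (volume.restrict Ω) :=
  integrable_finsetSum _ fun i _ => inner_int (hG i) (hA i)

theorem Vsp_gsq_eq {G : Fin 3 → E3 → E3} (hG : ∀ i, MemLp (G i) 2 (volume.restrict Ω)) :
    gsq Ω G = ∑ i, nm Ω (G i) ^ 2 := by
  unfold gsq
  rw [integral_finsetSum _ fun i _ => sq_int (hG i)]
  exact Finset.sum_congr rfl fun i _ => (nm_sq Ω (G i)).symm

theorem gp_le {G A : Fin 3 → E3 → E3} (hG : ∀ i, MemLp (G i) 2 (volume.restrict Ω))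
    (hA : ∀ i, MemLp (A i) 2 (volume.restrict Ω)) :
    |gp Ω G A| ≤ Real.sqrt (gsq Ω G) * Real.sqrt (gsq Ω A) := by
  unfold gp
  rw [integral_finsetSum _ fun i _ => inner_int (hG i) (hA i), Vsp_gsq_eq hG, Vsp_gsq_eq hA]
  refine (Finset.abs_sum_le_sum_abs _ _).trans ?_
  refine (Finset.sum_le_sum fun i _ => cs (hG i) (hA i)).trans ?_
  exact Real.sum_mul_le_sqrt_mul_sqrt Finset.univ (fun i => nm Ω (G i)) (fun i => nm Ω (A i))

end Pool.Agent.Helper7.NT
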