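import Pool.Agent.Helper7.NT.Tri
import Pool.Agent.Helper7.NT.Sob
import Pool.Agent.Helper7.NT.Vsp

/-!
Module Anti: `∫ (v · ∇) a · a = 0`.
-/

open MeasureTheory Set Filter Topology
open scoped ENNReal

namespace Pool.Agent.Helper7.NT

open Pool.Agent.Helper52.NSE

variable {Ω : Set E3}

theorem Anti_sum (v : E3) : v = ∑ i, v i • (EuclideanSpace.single i (1 : ℝ) : E3) := by
  ext j
  fin_cases j <;> simp [Fin.sum_univ_three]

/-- the case of a test field -/
theorem Anti_test (hO : IsOpen Ω) (hb : Bornology.IsBounded Ω) {v φ : E3 → E3}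
    (hv : MemL2s Ω v) (hφ : TestField Ω φ) : Bf Ω v (pd φ) φ = 0 := by
  set q : E3 → ℝ := fun x => ‖φ x‖ ^ 2 / 2 with hq
  have hφd : Differentiable ℝ φ := hφ.smooth.differentiable (by simp)
  have hqc : ContDiff ℝ 1 q := by
    have h1 : ContDiff ℝ 1 φ := hφ.smooth.of_le (by simp)
    exact (h1.norm_sq ℝ).div_const 2
  have hfd : ∀ x y, fderiv ℝ q x y = inner ℝ (φ x) (fderiv ℝ φ x y) := by
    intro x y
    have h1 : HasFDerivAt φ (fderiv ℝ φ x) x := (hφd x).hasFDerivAt
    have h2 := h1.norm_sq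
    have h3 : HasFDerivAt q ((1 / 2 : ℝ) • (2 • (innerSL ℝ (φ x)).comp (fderiv ℝ φ x))) x := by
      have h4 := h2.const_mul (1 / 2 : ℝ)
      have h5 : q = fun x => (1 / 2 : ℝ) * ‖φ x‖ ^ 2 := by
        funext x
        simp only [hq]
        ring
      rw [h5]
      exact h4
    rw [h3.fderiv]
    simp
  have hbd : ∃ C : ℝ, ∀ x, ‖fderiv ℝ q x‖ ≤ C := by
    have hcont : Continuous (fderiv ℝ q) := hqc.continuous_fderiv one_ne_zero
    have hcs : HasCompactSupport q := by
      have : HasCompactSupport (fun x => ‖φ x‖ ^ 2 / 2) :=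
        hφ.compact.comp_left (g := fun y : E3 => ‖y‖ ^ 2 / 2) (by simp)
      exact this
    obtain ⟨C, hC⟩ := hcont.bounded_above_of_compact_support (hcs.fderiv (𝕜 := ℝ))
    exact ⟨C, hC⟩
  obtain ⟨C, hC⟩ := hbd
  have h := orth hO hb hv hqc hC
  rw [← h]
  unfold Bf
  refine integral_congr_ae (Eventually.of_forall fun x => ?_)
  simp only []
  rw [hfd]
  conv_rhs => rw [Anti_sum (v x)]
  rw [map_sum, inner_sum]
  refine Finset.sum_congr rfl fun i _ => ?_
  rw [map_smul, inner_smul_right]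
  rfl

theorem Anti_mem {φ : E3 → E3} (hφ : TestField Ω φ) : MemH1s Ω φ (pd φ) := by
  refine ⟨hφ.smooth.continuous.aestronglyMeasurable,
    fun i => (hφ.pd_cont i).aestronglyMeasurable, fun ε hε => ⟨φ, hφ, ?_, fun i => ?_⟩⟩
  · simpa using hε
  · simpa using hε

theorem Bf_self (hO : IsOpen Ω) (hb : Bornology.IsBounded Ω) {v a : E3 → E3}
    {A : Fin 3 → E3 → E3} (hv : MemL2s Ω v) (hv6 : MemLp v 6 (volume.restrict Ω))
    (ha : MemH1s Ω a A) : Bf Ω v A a = 0 := by
  obtain ⟨CS, hCS, hsob⟩ := sobolev hO hb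
  obtain ⟨CT, hCT, htri⟩ := tri_bound hb
  have hmem6 : ∀ (w : E3 → E3) (W : Fin 3 → E3 → E3), MemH1s Ω w W →
      MemLp w 6 (volume.restrict Ω) ∧ n6 Ω w ≤ CS * Real.sqrt (gsq Ω W) := by
    intro w W hw
    have h1 := hsob w W hw
    have h2 : 0 ≤ CS * Real.sqrt (gsq Ω W) := by positivity
    refine ⟨⟨hw.1, lt_of_le_of_lt h1 ENNReal.ofReal_lt_top⟩, ?_⟩
    unfold n6
    exact ENNReal.toReal_le_of_le_ofReal h2 h1
  have hA := ha.grad_memLp
  obtain ⟨ha6, hna⟩ := hmem6 a A ha
  have hn0 : ∀ w : E3 → E3, 0 ≤ n6 Ω w := fun w => ENNReal.toReal_nonneg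
  -- estimate for an approximation
  have hest : ∀ ε : ℝ, 0 < ε → ε ≤ 1 → |Bf Ω v A a| ≤
      (CT * n6 Ω v * (n6 Ω a + CS * (Real.sqrt (gsq Ω A) + 3)) ) * (3 * ε) := by
    intro ε hε hε1
    obtain ⟨φ, hφ, h1, h2⟩ := ha.2.2 (ENNReal.ofReal ε) (ENNReal.ofReal_pos.2 hε)
    have hφA : ∀ i, MemLp (pd φ i) 2 (volume.restrict Ω) := fun i => hφ.pd_memLp i _ 2
    have hφm := Anti_mem hφ
    obtain ⟨hφ6, -⟩ := hmem6 φ (pd φ) hφm
    have hd := memH1s_sub ha hφm
    obtain ⟨hd6, hnd⟩ := hmem6 _ _ hd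
    have hAd : ∀ i, MemLp (fun x => A i x - pd φ i x) 2 (volume.restrict Ω) :=
      fun i => (hA i).sub (hφA i)
    -- the gradient of the difference is small
    have hg : Real.sqrt (gsq Ω (fun i x => A i x - pd φ i x)) ≤ 3 * ε := by
      refine Real.sqrt_le_iff.2 ⟨by positivity, ?_⟩
      unfold gsq
      rw [integral_finsetSum _ fun i _ => sq_int (hAd i)]
      have h3 : ∀ i ∈ (Finset.univ : Finset (Fin 3)),
          ∫ x in Ω, ‖A i x - pd φ i x‖ ^ 2 ≤ ε ^ 2 := by
        intro i _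
        rw [← nm_sq]
        refine pow_le_pow_left₀ (nm_nonneg _ _) ?_ 2
        have h4 := h2 i
        rw [nm_eq (hAd i)] at h4
        exact ((ENNReal.ofReal_lt_ofReal_iff hε).1 h4).le
      refine (Finset.sum_le_sum h3).trans ?_
      rw [Finset.sum_const, Finset.card_univ, Fintype.card_fin, nsmul_eq_mul]
      push_cast
      nlinarith [sq_nonneg ε]
    have e1 : Bf Ω v A a = Bf Ω v (fun i x => A i x - pd φ i x) a + Bf Ω v (pd φ) a := by
      rw [Bf_sub_mid hb hv6 ha6 hA hφA]
      ring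
    have e2 : Bf Ω v (pd φ) a = Bf Ω v (pd φ) (fun x => a x - φ x) + Bf Ω v (pd φ) φ := by
      rw [Bf_sub_right hb hv6 ha6 hφ6 hφA]
      ring
    rw [e1, e2, Anti_test hO hb hv hφ, add_zero]
    have b1 := htri v a (fun i x => A i x - pd φ i x) hv6 ha6 hAd
    have b2 := htri v (fun x => a x - φ x) (pd φ) hv6 hd6 hφA
    have hgφ : Real.sqrt (gsq Ω (pd φ)) ≤ Real.sqrt (gsq Ω A) + 3 := by
      -- triangle inequality by squares
      have h5 : gsq Ω (pd φ) ≤ (Real.sqrt (gsq Ω A) + 3) ^ 2 := by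
        have h6 : pd φ = fun i x => A i x - (A i x - pd φ i x) := by
          funext i x
          abel
        have hcross := gp_le hA hAd
        have h7 : gsq Ω (pd φ) = gsq Ω A - 2 * gp Ω A (fun i x => A i x - pd φ i x) +
            gsq Ω (fun i x => A i x - pd φ i x) := by
          have i1 : Integrable (fun x => ∑ i, ‖A i x‖ ^ 2) (volume.restrict Ω) :=
            integrable_finsetSum _ fun i _ => sq_int (hA i)
          have i2 : Integrable (fun x => ∑ i, inner ℝ (A i x) (A i x - pd φ i x))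
            (volume.restrict Ω) := gp_int hA hAd
          have i3 : Integrable (fun x => ∑ i, ‖A i x - pd φ i x‖ ^ 2) (volume.restrict Ω) :=
            integrable_finsetSum _ fun i _ => sq_int (hAd i)
          have i12 : Integrable (fun x => ∑ i, ‖A i x‖ ^ 2 -
              2 * ∑ i, inner ℝ (A i x) (A i x - pd φ i x)) (volume.restrict Ω) :=
            i1.sub (i2.const_mul 2)
          unfold gsq gp
          rw [← integral_const_mul, ← integral_sub i1 (i2.const_mul 2), ← integral_add i12 i3]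
          refine integral_congr_ae (Eventually.of_forall fun x => ?_)
          simp only [Finset.mul_sum]
          rw [← Finset.sum_sub_distrib, ← Finset.sum_add_distrib]
          refine Finset.sum_congr rfl fun i _ => ?_
          have h8 := norm_sub_sq_real (A i x) (A i x - pd φ i x)
          have h9 : A i x - (A i x - pd φ i x) = pd φ i x := by abel
          rw [h9] at h8
          rw [h8]
        have h10 : Real.sqrt (gsq Ω (fun i x => A i x - pd φ i x)) ≤ 3 := by
          linarith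
        have h11 := Real.sq_sqrt (gsq_nonneg Ω A)
        have h12 := Real.sq_sqrt (gsq_nonneg Ω (fun i x => A i x - pd φ i x))
        have h13 := Real.sqrt_nonneg (gsq Ω A)
        have h14 := Real.sqrt_nonneg (gsq Ω (fun i x => A i x - pd φ i x))
        have h15 := (abs_le.1 hcross).1
        rw [h7]
        nlinarith [mul_le_mul_of_nonneg_left h10 h13]
      calc Real.sqrt (gsq Ω (pd φ)) ≤ Real.sqrt ((Real.sqrt (gsq Ω A) + 3) ^ 2) :=
            Real.sqrt_le_sqrt h5
        _ = _ := Real.sqrt_sq (by positivity)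
    have hCn : 0 ≤ CT * n6 Ω v := mul_nonneg hCT.le (hn0 v)
    calc |Bf Ω v (fun i x => A i x - pd φ i x) a + Bf Ω v (pd φ) (fun x => a x - φ x)|
        ≤ |Bf Ω v (fun i x => A i x - pd φ i x) a| + |Bf Ω v (pd φ) (fun x => a x - φ x)| :=
          abs_add_le _ _
      _ ≤ CT * n6 Ω v * n6 Ω a * (3 * ε) +
          CT * n6 Ω v * (CS * (3 * ε)) * (Real.sqrt (gsq Ω A) + 3) := by
          refine add_le_add (b1.trans ?_) (b2.trans ?_)
          · exact mul_le_mul_of_nonneg_left hg (mul_nonneg hCn (hn0 a))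
          · refine mul_le_mul ?_ hgφ (Real.sqrt_nonneg _) ?_
            · exact mul_le_mul_of_nonneg_left
                (hnd.trans (mul_le_mul_of_nonneg_left hg hCS.le)) hCn
            · exact mul_nonneg hCn (by positivity)
      _ = _ := by ring
  -- let ε tend to zero
  set K : ℝ := CT * n6 Ω v * (n6 Ω a + CS * (Real.sqrt (gsq Ω A) + 3)) with hK
  have hK0 : 0 ≤ K := by
    rw [hK]
    have := hn0 v
    have := hn0 a
    positivity
  have h0 : |Bf Ω v A a| ≤ 0 := by
    refine le_of_forall_pos_le_add fun δ hδ => ?_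
    have h1 := hest (min 1 (δ / (3 * K + 1))) (by positivity) (min_le_left _ _)
    have h2 : K * (3 * min 1 (δ / (3 * K + 1))) ≤ K * (3 * (δ / (3 * K + 1))) :=
      mul_le_mul_of_nonneg_left (mul_le_mul_of_nonneg_left (min_le_right _ _) (by norm_num)) hK0
    have h3 : K * (3 * (δ / (3 * K + 1))) ≤ δ := by
      have h4 : K * (3 * (δ / (3 * K + 1))) = δ * (3 * K / (3 * K + 1)) := by ring
      rw [h4]
      have h5 : 3 * K / (3 * K + 1) ≤ 1 := by
        rw [div_le_one (by positivity)]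
        linarith
      calc δ * (3 * K / (3 * K + 1)) ≤ δ * 1 := mul_le_mul_of_nonneg_left h5 hδ.le
        _ = δ := mul_one δ
    linarith
  exact abs_eq_zero.1 (le_antisymm h0 (abs_nonneg _))

end Pool.Agent.Helper7.NT
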