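import Pool.Agent.Helper7.NT.Ext
import Pool.Agent.Helper7.NT.Anti

/-!
Module Idn: the energy identity for the difference `u(t) - u(s)`.
-/

open MeasureTheory Set Filter Topology
open scoped ENNReal

namespace Pool.Agent.Helper7.NT

open Pool.Agent.Helper52.NSE

variable {Ω : Set E3} {ν T : ℝ} {u₀ : E3 → E3} {f u : ℝ → E3 → E3} {G : ℝ → Fin 3 → E3 → E3}

theorem Idn_diss (hb : Bornology.IsBounded Ω) (A : Fin 3 → E3 → E3) :
    (volume Ω).toReal * diss Ω ν A = ν * gsq Ω A := by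
  by_cases h : (volume Ω).toReal = 0
  · have h1 : volume Ω = 0 := by
      rcases (ENNReal.toReal_eq_zero_iff _).1 h with h | h
      · exact h
      · exact absurd h hb.measure_lt_top.ne
    have h2 : gsq Ω A = 0 := by
      unfold gsq
      rw [Measure.restrict_eq_zero.2 h1, integral_zero_measure]
    rw [h, h2]
    simp
  · unfold diss gsq
    field_simp

theorem Idn_kin {a b : E3 → E3} (ha : MemLp a 2 (volume.restrict Ω))
    (hb : MemLp b 2 (volume.restrict Ω)) :
    kin Ω a - kin Ω b = nm Ω (fun x => a x - b x) ^ 2 / 2 +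
      ((∫ x in Ω, inner ℝ (a x) (b x)) - ∫ x in Ω, inner ℝ (b x) (b x)) := by
  rw [nm_sq]
  unfold kin
  have i1 := sq_int ha
  have i2 := sq_int hb
  have i3 := inner_int ha hb
  have i4 := inner_int hb hb
  have i5 : Integrable (fun x => ‖a x - b x‖ ^ 2) (volume.restrict Ω) := sq_int (ha.sub hb)
  have e1 : (1 / 2) * (∫ x in Ω, ‖a x‖ ^ 2) - (1 / 2) * ∫ x in Ω, ‖b x‖ ^ 2 =
      ∫ x in Ω, ((1 / 2) * ‖a x‖ ^ 2 - (1 / 2) * ‖b x‖ ^ 2) := by
    rw [integral_sub (i1.const_mul _) (i2.const_mul _), integral_const_mul, integral_const_mul]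
  have i6 : Integrable (fun x => ‖a x - b x‖ ^ 2 / 2) (volume.restrict Ω) := i5.div_const 2
  have i7 : Integrable (fun x => inner ℝ (a x) (b x) - inner ℝ (b x) (b x))
      (volume.restrict Ω) := i3.sub i4
  have e2 : (∫ x in Ω, ‖a x - b x‖ ^ 2) / 2 +
      ((∫ x in Ω, inner ℝ (a x) (b x)) - ∫ x in Ω, inner ℝ (b x) (b x)) =
      ∫ x in Ω, (‖a x - b x‖ ^ 2 / 2 + (inner ℝ (a x) (b x) - inner ℝ (b x) (b x))) := by
    rw [integral_add i6 i7, integral_sub i3 i4, integral_div]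
  rw [e1, e2]
  refine integral_congr_ae (Eventually.of_forall fun x => ?_)
  simp only []
  have h1 := norm_sub_sq_real (a x) (b x)
  have h2 := real_inner_self_eq_norm_sq (b x)
  rw [h1, h2]
  ring

theorem identity (hO : IsOpen Ω) (hb : Bornology.IsBounded Ω)
    (h : IsWeakSolution Ω ν T u₀ f u G) {s t : ℝ} (hs : 0 ≤ s) (hst : s ≤ t) (ht : t ≤ T)
    (hmem : MemH1s Ω (u s) (G s)) :
    defect Ω ν f u G t - defect Ω ν f u G s + nm Ω (fun x => u t x - u s x) ^ 2 / 2 =
      ∫ τ in s..t, ((∫ x in Ω, inner ℝ (f τ x) (u τ x - u s x)) - ν * gsq Ω (G τ) +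
        ν * gp Ω (G τ) (G s) - Bf Ω (u τ) (G s) (fun x => u τ x - u s x)) := by
  obtain ⟨CS, hCS, hsob⟩ := sobolev hO hb
  have hA := hmem.grad_memLp
  have ha2 := hmem.toL2.memLp
  have ha6 : MemLp (u s) 6 (volume.restrict Ω) :=
    ⟨hmem.1, lt_of_le_of_lt (hsob _ _ hmem) ENNReal.ofReal_lt_top⟩
  have hut := (h.mem t ⟨hs.trans hst, ht⟩).memLp
  -- integrability in time
  have ipow := ii_of h.power_int hs hst ht
  have igp := ii_of (gp_time h hA) hs hst ht
  have igsq := ii_of h.gsq_int hs hst ht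
  have ipair := ii_of (pair_time h ha2) hs hst ht
  have iBf : IntervalIntegrable (fun τ => Bf Ω (u τ) (G s) (u τ)) volume s t := by
    have h0 : MemLp (fun _ : E3 => (0 : E3)) 6 (volume.restrict Ω) := MemLp.zero
    have := ii_of (Bf_time hO hb h h0 hA) hs hst ht
    simpa using this
  have irhs : IntervalIntegrable (fun τ => rhsE Ω ν (f τ) (u τ) (G τ) (u s) (G s)) volume s t := by
    unfold rhsE
    exact ((igp.const_mul (-ν)).add iBf).add ipair
  rw [h.defect_sub hs hst ht, Idn_kin hut ha2, weak_ext hO hb h hmem hs hst ht]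
  have hd : (volume Ω).toReal * ∫ τ in s..t, diss Ω ν (G τ) = ∫ τ in s..t, ν * gsq Ω (G τ) := by
    rw [← intervalIntegral.integral_const_mul]
    refine intervalIntegral.integral_congr fun τ _ => ?_
    exact Idn_diss hb (G τ)
  rw [hd]
  have e1 : (∫ τ in s..t, power Ω (f τ) (u τ)) -
      (nm Ω (fun x => u t x - u s x) ^ 2 / 2 +
        ∫ τ in s..t, rhsE Ω ν (f τ) (u τ) (G τ) (u s) (G s)) -
      (∫ τ in s..t, ν * gsq Ω (G τ)) + nm Ω (fun x => u t x - u s x) ^ 2 / 2 =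
      (∫ τ in s..t, power Ω (f τ) (u τ)) -
        (∫ τ in s..t, rhsE Ω ν (f τ) (u τ) (G τ) (u s) (G s)) -
      (∫ τ in s..t, ν * gsq Ω (G τ)) := by ring
  rw [e1, ← intervalIntegral.integral_sub ipow irhs,
    ← intervalIntegral.integral_sub (ipow.sub irhs) (igsq.const_mul ν)]
  refine intervalIntegral.integral_congr_ae ?_
  have g1 := (ae_restrict_iff' measurableSet_Icc).1 h.grad_mem
  have g2 := (ae_restrict_iff' measurableSet_Icc).1 h.force_mem
  filter_upwards [g1, g2] with τ h1 h2 hτ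
  rw [uIoc_of_le hst] at hτ
  have hτ' : τ ∈ Icc 0 T := ⟨hs.trans hτ.1.le, hτ.2.trans ht⟩
  have hm := h1 hτ'
  have hf := (h2 hτ').memLp
  have hu2 := (h.mem τ hτ').memLp
  have hu6 : MemLp (u τ) 6 (volume.restrict Ω) :=
    ⟨hm.1, lt_of_le_of_lt (hsob _ _ hm) ENNReal.ofReal_lt_top⟩
  have hself := Bf_self hO hb (h.mem τ hτ') hu6 hmem
  have hsub := Bf_sub_right hb hu6 hu6 ha6 hA
  rw [hself, sub_zero] at hsub
  have hpair : ∫ x in Ω, inner ℝ (f τ x) (u τ x - u s x) =
      power Ω (f τ) (u τ) - ∫ x in Ω, inner ℝ (f τ x) (u s x) := by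
    unfold power
    rw [← integral_sub (inner_int hf hu2) (inner_int hf ha2)]
    refine integral_congr_ae (Eventually.of_forall fun x => ?_)
    simp only [inner_sub_right]
  rw [hpair, hsub]
  unfold rhsE
  ring

end Pool.Agent.Helper7.NT
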