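import Pool.Agent.Helper7.NT.Leb
import Pool.Agent.Helper7.NT.Idn

/-!
Module AeL: almost every time, the energy defect has left difference quotients with lower limit
at most zero.
-/

open MeasureTheory Set Filter Topology
open scoped ENNReal

namespace Pool.Agent.Helper7.NT

open Pool.Agent.Helper52.NSE

variable {Ω : Set E3} {ν T : ℝ} {u₀ : E3 → E3} {f u : ℝ → E3 → E3} {G : ℝ → Fin 3 → E3 → E3}

theorem ael_avg {α : ℝ → ℝ} {a b : ℝ} (hab : a < b) (hα : IntervalIntegrable α volume a b)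
    {S : Set ℝ} (hS : ∀ᵐ s ∂(volume.restrict (Ioo a b)), s ∈ S) :
    ∃ s ∈ Ioo a b, s ∈ S ∧ (b - a) * α s ≤ ∫ τ in a..b, α τ := by
  have hα' : IntegrableOn α (Ioo a b) :=
    ((intervalIntegrable_iff_integrableOn_Ioc_of_le hab.le).1 hα).mono_set Ioo_subset_Ioc_self
  have hμ : volume.restrict (Ioo a b) ≠ 0 := by
    rw [Ne, Measure.restrict_eq_zero, Real.volume_Ioo, ENNReal.ofReal_eq_zero, not_le]
    linarith
  have hN : (volume.restrict (Ioo a b)) (S ∩ Ioo a b)ᶜ = 0 := by
    have h2 : ∀ᵐ s ∂(volume.restrict (Ioo a b)), s ∈ Ioo a b :=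
      ae_restrict_mem measurableSet_Ioo
    have h3 : ∀ᵐ s ∂(volume.restrict (Ioo a b)), s ∈ S ∩ Ioo a b := by
      filter_upwards [hS, h2] with s hs1 hs2 using ⟨hs1, hs2⟩
    exact h3
  obtain ⟨s, hs, hle⟩ := exists_notMem_null_le_average hμ hα' hN
  rw [notMem_compl_iff] at hs
  refine ⟨s, hs.2, hs.1, ?_⟩
  rw [average_eq, measureReal_restrict_apply_univ, Real.volume_real_Ioo_of_le hab.le,
    smul_eq_mul, ← integral_Ioc_eq_integral_Ioo, ← intervalIntegral.integral_of_le hab.le] at hle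
  have h4 : 0 < b - a := by linarith
  calc (b - a) * α s ≤ (b - a) * ((b - a)⁻¹ * ∫ τ in a..b, α τ) :=
        mul_le_mul_of_nonneg_left hle h4.le
    _ = ∫ τ in a..b, α τ := by rw [mul_inv_cancel_left₀ h4.ne']

theorem ael_gp {G A : Fin 3 → E3 → E3} (hG : ∀ i, MemLp (G i) 2 (volume.restrict Ω))
    (hA : ∀ i, MemLp (A i) 2 (volume.restrict Ω)) :
    gp Ω G A - gsq Ω G ≤
      Real.sqrt (gsq Ω G) * Real.sqrt (gsq Ω (fun i x => G i x - A i x)) := by
  have h1 : gsq Ω G - gp Ω G A = gp Ω G (fun i x => G i x - A i x) := by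
    have h0 : gsq Ω G = gp Ω G G := by
      unfold gsq gp
      refine integral_congr_ae (Eventually.of_forall fun x => ?_)
      exact Finset.sum_congr rfl fun i _ => (real_inner_self_eq_norm_sq _).symm
    rw [h0]
    unfold gp
    rw [← integral_sub (gp_int hG hG) (gp_int hG hA)]
    refine integral_congr_ae (Eventually.of_forall fun x => ?_)
    simp only
    rw [← Finset.sum_sub_distrib]
    exact Finset.sum_congr rfl fun i _ => (inner_sub_right _ _ _).symm
  have h2 := gp_le hG (fun i => (hG i).sub (hA i))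
  have h3 : -gp Ω G (fun i x => G i x - A i x) ≤
      Real.sqrt (gsq Ω G) * Real.sqrt (gsq Ω (fun i x => G i x - A i x)) :=
    (neg_le_abs _).trans h2
  linarith

theorem ael_six {C : ℝ} (hC : ∀ (w : E3 → E3) (G : Fin 3 → E3 → E3), MemH1s Ω w G →
      eLpNorm w 6 (volume.restrict Ω) ≤ ENNReal.ofReal (C * Real.sqrt (gsq Ω G)))
    (hC0 : 0 < C) {w : E3 → E3} {G : Fin 3 → E3 → E3} (hw : MemH1s Ω w G) :
    MemLp w 6 (volume.restrict Ω) ∧ n6 Ω w ≤ C * Real.sqrt (gsq Ω G) := by
  have h1 := hC w G hw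
  refine ⟨⟨hw.1, h1.trans_lt ENNReal.ofReal_lt_top⟩, ?_⟩
  unfold n6
  exact ENNReal.toReal_le_of_le_ofReal (by positivity) h1

theorem ael_point (hO : IsOpen Ω) (hb : Bornology.IsBounded Ω) (hν : 0 < ν) :
    ∃ C : ℝ, 0 < C ∧ ∀ (g v a : E3 → E3) (G A : Fin 3 → E3 → E3),
      MemLp g 2 (volume.restrict Ω) → MemH1s Ω v G → MemH1s Ω a A → ∀ l : ℝ, 0 < l →
      (∫ x in Ω, inner ℝ (g x) (v x - a x)) - ν * gsq Ω G + ν * gp Ω G A -
        Bf Ω v A (fun x => v x - a x) ≤
      C * (1 + Real.sqrt (gsq Ω A)) *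
        (l * (nm Ω g ^ 2 + gsq Ω G) + gsq Ω (fun i x => G i x - A i x) / l) := by
  obtain ⟨CS, hCS, hS⟩ := sobolev (Ω := Ω) hO hb
  obtain ⟨CP, hCP, hP⟩ := poincare (Ω := Ω) hO hb
  obtain ⟨CT, hCT, hT⟩ := tri_bound (Ω := Ω) hb
  refine ⟨CP + ν + CT * CS * CS, by positivity, ?_⟩
  intro g v a G A hg hv ha l hl
  have hw := memH1s_sub hv ha
  have hG := hv.grad_memLp
  have hA := ha.grad_memLp
  obtain ⟨hv6, hv6'⟩ := ael_six hS hCS hv
  obtain ⟨hw6, hw6'⟩ := ael_six hS hCS hw
  have hw2 : MemLp (fun x => v x - a x) 2 (volume.restrict Ω) := hw.toL2.memLp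
  have b1 : (∫ x in Ω, inner ℝ (g x) (v x - a x)) ≤
      nm Ω g * (CP * Real.sqrt (gsq Ω (fun i x => G i x - A i x))) :=
    (le_abs_self _).trans ((cs hg hw2).trans
      (mul_le_mul_of_nonneg_left (hP _ _ hw) (nm_nonneg _ _)))
  have b2 := ael_gp hG hA
  have b3 : -Bf Ω v A (fun x => v x - a x) ≤
      CT * (CS * Real.sqrt (gsq Ω G)) * (CS * Real.sqrt (gsq Ω (fun i x => G i x - A i x))) *
        Real.sqrt (gsq Ω A) := by
    refine (neg_le_abs _).trans ((hT v _ A hv6 hw6 hA).trans ?_)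
    have hn0 : 0 ≤ n6 Ω v := ENNReal.toReal_nonneg
    have hn1 : 0 ≤ n6 Ω (fun x => v x - a x) := ENNReal.toReal_nonneg
    gcongr
  set n := nm Ω g with hn
  set W := gsq Ω (fun i x => G i x - A i x) with hW
  set E := gsq Ω G with hE
  set e := Real.sqrt E with he
  set w := Real.sqrt W with hw'
  set m := Real.sqrt (gsq Ω A) with hm
  have hn0 : 0 ≤ n := nm_nonneg _ _
  have he0 : 0 ≤ e := Real.sqrt_nonneg _
  have hw0 : 0 ≤ w := Real.sqrt_nonneg _
  have hm0 : 0 ≤ m := Real.sqrt_nonneg _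
  have he2 : e ^ 2 = E := Real.sq_sqrt (gsq_nonneg _ _)
  have hw2' : w ^ 2 = W := Real.sq_sqrt (gsq_nonneg _ _)
  have hyoung : (n + e) * w ≤ l * (n ^ 2 + E) + W / l := by
    rw [← he2, ← hw2']
    have h1 : 0 ≤ (l * (n + e) - w) ^ 2 / l := by positivity
    have h2 : (l * (n + e) - w) ^ 2 / l = l * (n + e) ^ 2 - 2 * ((n + e) * w) + w ^ 2 / l := by
      field_simp
      ring
    have h3 : 0 ≤ w ^ 2 / l := by positivity
    have h4 : 0 ≤ l * (n - e) ^ 2 := by positivity
    nlinarith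
  have hmain : n * (CP * w) + ν * (e * w) + CT * (CS * e) * (CS * w) * m ≤
      (CP + ν + CT * CS * CS) * (1 + m) * ((n + e) * w) := by
    have t1 : 0 ≤ CP * m * (n * w) := by positivity
    have t2 : 0 ≤ CP * (1 + m) * (e * w) := by positivity
    have t3 : 0 ≤ ν * m * (e * w) := by positivity
    have t4 : 0 ≤ ν * (1 + m) * (n * w) := by positivity
    have t5 : 0 ≤ CT * CS * CS * (1 + m) * (n * w) := by positivity
    have t6 : 0 ≤ CT * CS * CS * (e * w) := by positivity
    have key : (CP + ν + CT * CS * CS) * (1 + m) * ((n + e) * w) -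
        (n * (CP * w) + ν * (e * w) + CT * (CS * e) * (CS * w) * m) =
        CP * m * (n * w) + CP * (1 + m) * (e * w) + ν * m * (e * w) + ν * (1 + m) * (n * w) +
        CT * CS * CS * (1 + m) * (n * w) + CT * CS * CS * (e * w) := by ring
    linarith
  have b2' : -(ν * E) + ν * gp Ω G A ≤ ν * (e * w) := by
    have := mul_le_mul_of_nonneg_left b2 hν.le
    linarith
  have hlast : (CP + ν + CT * CS * CS) * (1 + m) * ((n + e) * w) ≤
      (CP + ν + CT * CS * CS) * (1 + m) * (l * (n ^ 2 + E) + W / l) :=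
    mul_le_mul_of_nonneg_left hyoung (by positivity)
  linarith

theorem ae_left (hO : IsOpen Ω) (hb : Bornology.IsBounded Ω) (hν : 0 < ν)
    (h : IsWeakSolution Ω ν T u₀ f u G) :
    ∀ᵐ t ∂(volume.restrict (Icc 0 T)), ∀ η δ : ℝ, 0 < η → 0 < δ →
      ∃ s ∈ Ioo (t - δ) t, 0 ≤ s ∧
        defect Ω ν f u G t ≤ defect Ω ν f u G s + η * (t - s) := by
  obtain ⟨C, hC, hpt⟩ := ael_point (Ω := Ω) (ν := ν) hO hb hν
  have hpos : ∀ᵐ t ∂(volume.restrict (Icc 0 T)), t ≠ 0 := by
    refine ae_restrict_of_ae ?_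
    exact (compl_mem_ae_iff.2 (by simp) : ({0} : Set ℝ)ᶜ ∈ ae volume)
  filter_upwards [leb_scalar h.force_int, leb_scalar h.gsq_int, leb_grad h, h.grad_mem, hpos,
    ae_restrict_mem measurableSet_Icc] with t hF hE hG hmem ht0 htT
  intro η δ hη hδ
  obtain ⟨KF, δF, hδF, hF⟩ := hF
  obtain ⟨KE, δE, hδE, hE⟩ := hE
  have ht : 0 < t := lt_of_le_of_ne htT.1 (Ne.symm ht0)
  obtain ⟨K, hK⟩ : ∃ K, K = |KF| + |KE| := ⟨_, rfl⟩
  have hK0 : 0 ≤ K := by rw [hK]; positivity
  obtain ⟨M, hM⟩ : ∃ M, M = C * (1 + Real.sqrt (2 * gsq Ω (G t) + 4)) := ⟨_, rfl⟩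
  have hM0 : 0 < M := by rw [hM]; positivity
  -- the parameters
  obtain ⟨l, hl⟩ : ∃ l, l = η / (2 * (M * K + 1)) := ⟨_, rfl⟩
  have hl0 : 0 < l := by rw [hl]; positivity
  have hl1 : M * (l * K) ≤ η / 2 := by
    rw [hl]
    have : M * (η / (2 * (M * K + 1)) * K) = η / 2 * (M * K / (M * K + 1)) := by
      field_simp
    rw [this]
    have h2 : M * K / (M * K + 1) ≤ 1 := by
      rw [div_le_one (by positivity)]
      linarith
    nlinarith
  obtain ⟨ε, hε⟩ : ∃ ε, ε = min 1 (η * l / (12 * M)) := ⟨_, rfl⟩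
  have hε0 : 0 < ε := by rw [hε]; positivity
  have hε1 : ε ≤ 1 := by rw [hε]; exact min_le_left _ _
  have hε2 : M * (6 * ε / l) ≤ η / 2 := by
    have h1 : ε ≤ η * l / (12 * M) := by rw [hε]; exact min_le_right _ _
    have h2 : M * (6 * ε / l) ≤ M * (6 * (η * l / (12 * M)) / l) := by gcongr
    have h3 : M * (6 * (η * l / (12 * M)) / l) = η / 2 := by
      field_simp
      norm_num
    linarith
  obtain ⟨δG, hδG, hG⟩ := hG ε hε0
  obtain ⟨r, hr⟩ : ∃ r, r = min (min δ (min δF δE)) (min δG t) := ⟨_, rfl⟩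
  have hr0 : 0 < r := by rw [hr]; positivity
  have hrδ : r ≤ δ := by rw [hr]; exact (min_le_left _ _).trans (min_le_left _ _)
  have hrF : r ≤ δF := by
    rw [hr]; exact (min_le_left _ _).trans ((min_le_right _ _).trans (min_le_left _ _))
  have hrE : r ≤ δE := by
    rw [hr]; exact (min_le_left _ _).trans ((min_le_right _ _).trans (min_le_right _ _))
  have hrG : r ≤ δG := by rw [hr]; exact (min_le_right _ _).trans (min_le_left _ _)
  have hrt : r ≤ t := by rw [hr]; exact (min_le_right _ _).trans (min_le_right _ _)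
  -- the starting point
  obtain ⟨hi1, hi2⟩ := hG (t - r / 2) ⟨by linarith, by linarith⟩ (by linarith)
  have hsub : uIcc (t - r / 2) (t - r / 4) ⊆ uIcc (t - r / 2) t := by
    rw [uIcc_of_le (by linarith), uIcc_of_le (by linarith)]
    exact Icc_subset_Icc le_rfl (by linarith)
  have hsub' : uIcc (t - r / 4) t ⊆ uIcc (t - r / 2) t := by
    rw [uIcc_of_le (by linarith), uIcc_of_le (by linarith)]
    exact Icc_subset_Icc (by linarith) le_rfl
  have hii := hi1.mono_set hsub
  have hii' := hi1.mono_set hsub'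
  have hgood : ∀ᵐ s ∂(volume.restrict (Ioo (t - r / 2) (t - r / 4))),
      s ∈ {s | MemH1s Ω (u s) (G s)} := by
    refine ae_restrict_of_ae_restrict_of_subset ?_ h.grad_mem
    intro x hx
    exact ⟨by linarith [hx.1], by linarith [hx.2, htT.2]⟩
  obtain ⟨s, hs, hsmem, havg⟩ := ael_avg (by linarith) hii hgood
  have hsmem : MemH1s Ω (u s) (G s) := hsmem
  have hst : s < t := by linarith [hs.2]
  have hs0 : 0 ≤ s := by linarith [hs.1]
  have hVs : gsq Ω (fun i x => G s i x - G t i x) ≤ 2 * ε := by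
    have h1 := intervalIntegral.integral_add_adjacent_intervals hii hii'
    have h2 : 0 ≤ ∫ τ in (t - r / 4)..t, gsq Ω (fun i x => G τ i x - G t i x) :=
      intervalIntegral.integral_nonneg (by linarith) fun x _ => gsq_nonneg _ _
    have h3 : (t - r / 4 - (t - r / 2)) * gsq Ω (fun i x => G s i x - G t i x) ≤
      ε * (t - (t - r / 2)) := by linarith
    have h4 : r / 4 * gsq Ω (fun i x => G s i x - G t i x) ≤ r / 4 * (2 * ε) := by linarith
    exact le_of_mul_le_mul_left h4 (by positivity)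
  have hGt := hmem.grad_memLp
  have hGs := hsmem.grad_memLp
  have hgs : gsq Ω (G s) ≤ 2 * gsq Ω (G t) + 4 := by
    have h1 := gsq_sub_le (Ω := Ω) (G := fun i x => G s i x - G t i x)
      (A := fun i x => - G t i x) (fun i => (hGs i).sub (hGt i)) (fun i => (hGt i).neg)
    have h2 : gsq Ω (fun i x => - G t i x) = gsq Ω (G t) := by
      unfold gsq
      simp only [norm_neg]
    have h3 : (fun (i : Fin 3) (x : E3) => G s i x - G t i x - - G t i x) = G s := by
      funext i x
      abel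
    rw [h2, h3] at h1
    linarith
  refine ⟨s, ⟨by linarith [hs.1], hst⟩, hs0, ?_⟩
  have hid := identity hO hb h hs0 hst.le htT.2 hsmem
  have hsq : 0 ≤ nm Ω (fun x => u t x - u s x) ^ 2 / 2 := by positivity
  -- the integral
  obtain ⟨hj1, hj2⟩ := hG s ⟨by linarith [hs.1], hst⟩ hs0
  have hFs := hF s ⟨by linarith [hs.1], hst⟩ hs0
  have hEs := hE s ⟨by linarith [hs.1], hst⟩ hs0
  have iF := ii_of h.force_int hs0 hst.le htT.2
  have iE := ii_of h.gsq_int hs0 hst.le htT.2
  obtain ⟨g, hg⟩ : ∃ g : ℝ → ℝ, g = fun τ => M * (l * ((∫ x in Ω, ‖f τ x‖ ^ 2) + gsq Ω (G τ)) +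
      (2 * gsq Ω (fun i x => G τ i x - G t i x) + 4 * ε) / l) := ⟨_, rfl⟩
  have ig : IntervalIntegrable g volume s t := by
    rw [hg]
    exact (((iF.add iE).const_mul l).add
      (((hj1.const_mul 2).add intervalIntegrable_const).div_const l)).const_mul M
  have hg0 : ∀ τ, 0 ≤ g τ := by
    intro τ
    rw [hg]
    have h1 : 0 ≤ ∫ x in Ω, ‖f τ x‖ ^ 2 := integral_nonneg fun x => by positivity
    have h2 := gsq_nonneg Ω (G τ)
    have h3 := gsq_nonneg Ω (fun i x => G τ i x - G t i x)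
    simp only
    positivity
  have hgi : ∫ τ in s..t, g τ ≤ η * (t - s) := by
    have e1 : ∫ τ in s..t, g τ = M * (l * ((∫ τ in s..t, ∫ x in Ω, ‖f τ x‖ ^ 2) +
        ∫ τ in s..t, gsq Ω (G τ)) +
        (2 * (∫ τ in s..t, gsq Ω (fun i x => G τ i x - G t i x)) + 4 * ε * (t - s)) / l) := by
      rw [hg, intervalIntegral.integral_const_mul, intervalIntegral.integral_add
        ((iF.add iE).const_mul l)
        (((hj1.const_mul 2).add intervalIntegrable_const).div_const l),
        intervalIntegral.integral_const_mul, intervalIntegral.integral_add iF iE,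
        intervalIntegral.integral_div, intervalIntegral.integral_add (hj1.const_mul 2)
        intervalIntegrable_const, intervalIntegral.integral_const_mul,
        intervalIntegral.integral_const, smul_eq_mul]
      ring
    have hts : 0 < t - s := by linarith
    have hFE : (∫ τ in s..t, ∫ x in Ω, ‖f τ x‖ ^ 2) + ∫ τ in s..t, gsq Ω (G τ) ≤
        K * (t - s) := by
      have h1 : KF * (t - s) ≤ |KF| * (t - s) :=
        mul_le_mul_of_nonneg_right (le_abs_self _) hts.le
      have h2 : KE * (t - s) ≤ |KE| * (t - s) :=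
        mul_le_mul_of_nonneg_right (le_abs_self _) hts.le
      rw [hK, add_mul]
      linarith
    have hVV : 2 * (∫ τ in s..t, gsq Ω (fun i x => G τ i x - G t i x)) + 4 * ε * (t - s) ≤
        6 * ε * (t - s) := by linarith
    rw [e1]
    calc M * (l * ((∫ τ in s..t, ∫ x in Ω, ‖f τ x‖ ^ 2) +
        ∫ τ in s..t, gsq Ω (G τ)) +
        (2 * (∫ τ in s..t, gsq Ω (fun i x => G τ i x - G t i x)) + 4 * ε * (t - s)) / l)
        ≤ M * (l * (K * (t - s)) + 6 * ε * (t - s) / l) := by gcongr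
      _ = (M * (l * K) + M * (6 * ε / l)) * (t - s) := by ring
      _ ≤ (η / 2 + η / 2) * (t - s) := by gcongr
      _ = η * (t - s) := by ring
  have hle : (∫ τ in s..t, ((∫ x in Ω, inner ℝ (f τ x) (u τ x - u s x)) - ν * gsq Ω (G τ) +
        ν * gp Ω (G τ) (G s) - Bf Ω (u τ) (G s) (fun x => u τ x - u s x))) ≤
      ∫ τ in s..t, g τ := by
    by_cases hI : IntervalIntegrable (fun τ => (∫ x in Ω, inner ℝ (f τ x) (u τ x - u s x)) -
        ν * gsq Ω (G τ) + ν * gp Ω (G τ) (G s) - Bf Ω (u τ) (G s) (fun x => u τ x - u s x))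
        volume s t
    · refine intervalIntegral.integral_mono_ae_restrict hst.le hI ig ?_
      have hsubT : Icc s t ⊆ Icc 0 T := Icc_subset_Icc hs0 htT.2
      filter_upwards [ae_restrict_of_ae_restrict_of_subset hsubT h.force_mem,
        ae_restrict_of_ae_restrict_of_subset hsubT h.grad_mem] with τ hfτ hGτ
      have h1 := hpt (f τ) (u τ) (u s) (G τ) (G s) hfτ.memLp hGτ hsmem l hl0
      refine h1.trans ?_
      have hW : gsq Ω (fun i x => G τ i x - G s i x) ≤
          2 * gsq Ω (fun i x => G τ i x - G t i x) + 4 * ε := by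
        have h2 := gsq_sub_le (Ω := Ω) (G := fun i x => G τ i x - G t i x)
          (A := fun i x => G s i x - G t i x) (fun i => (hGτ.grad_memLp i).sub (hGt i))
          (fun i => (hGs i).sub (hGt i))
        have h3 : (fun (i : Fin 3) (x : E3) => G τ i x - G t i x - (G s i x - G t i x)) =
            fun i x => G τ i x - G s i x := by
          funext i x
          abel
        rw [h3] at h2
        linarith
      rw [hg]
      simp only
      rw [nm_sq]
      have h4 : 0 ≤ ∫ x in Ω, ‖f τ x‖ ^ 2 := integral_nonneg fun x => by positivity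
      have h5 := gsq_nonneg Ω (G τ)
      have h6 := gsq_nonneg Ω (fun i x => G τ i x - G s i x)
      have h7 : C * (1 + Real.sqrt (gsq Ω (G s))) ≤ M := by
        rw [hM]
        gcongr
      have h8 : l * ((∫ x in Ω, ‖f τ x‖ ^ 2) + gsq Ω (G τ)) +
          gsq Ω (fun i x => G τ i x - G s i x) / l ≤
          l * ((∫ x in Ω, ‖f τ x‖ ^ 2) + gsq Ω (G τ)) +
          (2 * gsq Ω (fun i x => G τ i x - G t i x) + 4 * ε) / l := by gcongr
      exact mul_le_mul h7 h8 (by positivity) hM0.le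
    · rw [intervalIntegral.integral_undef hI]
      exact intervalIntegral.integral_nonneg hst.le fun x _ => hg0 x
  linarith

end Pool.Agent.Helper7.NT
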