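import Pool.Agent.Helper7.NT.Sob

/-!
Module DN: a bound for the dissipation gives a bound for the norm of `L^(4/3)(s, t; L⁶)`.
-/

open MeasureTheory Set Filter Topology
open scoped ENNReal

namespace Pool.Agent.Helper7.NT

open Pool.Agent.Helper52.NSE

variable {Ω : Set E3} {ν T : ℝ} {u₀ : E3 → E3} {f u : ℝ → E3 → E3} {G : ℝ → Fin 3 → E3 → E3}

theorem dn_timeExp : timeExp 6 = 4 / 3 := by
  unfold timeExp
  norm_num

theorem dn_alg (a m r : ℝ≥0∞) :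
    a ^ (4 / 3 : ℝ) * ((m ^ 2 * r) ^ (2 / 3 : ℝ) * (r ^ 2) ^ (1 / 3 : ℝ)) =
      (a * m * r) ^ (4 / 3 : ℝ) := by
  rw [ENNReal.mul_rpow_of_nonneg _ _ (by norm_num : (0 : ℝ) ≤ 2 / 3),
    ENNReal.mul_rpow_of_nonneg _ _ (by norm_num : (0 : ℝ) ≤ 4 / 3),
    ENNReal.mul_rpow_of_nonneg _ _ (by norm_num : (0 : ℝ) ≤ 4 / 3),
    ← ENNReal.rpow_natCast, ← ENNReal.rpow_natCast, ← ENNReal.rpow_mul, ← ENNReal.rpow_mul]
  have e1 : ((2 : ℕ) : ℝ) * (2 / 3) = 4 / 3 := by norm_num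
  have e2 : ((2 : ℕ) : ℝ) * (1 / 3) = 2 / 3 := by norm_num
  have e3 : (4 / 3 : ℝ) = 2 / 3 + 2 / 3 := by norm_num
  have e4 : r ^ (4 / 3 : ℝ) = r ^ (2 / 3 : ℝ) * r ^ (2 / 3 : ℝ) := by
    rw [e3, ENNReal.rpow_add_of_nonneg _ _ (by norm_num) (by norm_num)]
  rw [e1, e2, e4]
  ring

theorem diss_norm (hO : IsOpen Ω) (hb : Bornology.IsBounded Ω)
    (h : IsWeakSolution Ω ν T u₀ f u G) :
    ∃ C : ℝ, 0 < C ∧ ∀ s t : ℝ, 0 ≤ s → s < t → t ≤ T → ∀ M : ℝ, 0 ≤ M →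
      ∫ τ in s..t, gsq Ω (G τ) ≤ M * Real.sqrt (t - s) →
      ∫⁻ τ in Ioo s t, eLpNorm (u τ) 6 (volume.restrict Ω) ^ timeExp 6 ≤
        ENNReal.ofReal (C * Real.sqrt M * Real.sqrt (t - s)) ^ timeExp 6 := by
  obtain ⟨C, hC, hS⟩ := sobolev hO hb
  refine ⟨C, hC, fun s t hs hst ht M hM hle => ?_⟩
  rw [dn_timeExp]
  have hsub : Ioo s t ⊆ Icc 0 T := fun x hx => ⟨hs.trans hx.1.le, hx.2.le.trans ht⟩
  have hae : ∀ᵐ τ ∂(volume.restrict (Ioo s t)), MemH1s Ω (u τ) (G τ) :=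
    ae_restrict_of_ae_restrict_of_subset hsub h.grad_mem
  have hgi : IntegrableOn (fun τ => gsq Ω (G τ)) (Ioo s t) := h.gsq_int.mono_set hsub
  have h1 : ∫⁻ τ in Ioo s t, eLpNorm (u τ) 6 (volume.restrict Ω) ^ (4 / 3 : ℝ) ≤
      ∫⁻ τ in Ioo s t, ENNReal.ofReal C ^ (4 / 3 : ℝ) *
        (ENNReal.ofReal (gsq Ω (G τ)) ^ (2 / 3 : ℝ) * 1 ^ (1 / 3 : ℝ)) := by
    refine lintegral_mono_ae ?_
    filter_upwards [hae] with τ hτ
    refine (ENNReal.rpow_le_rpow (hS _ _ hτ) (by norm_num)).trans (le_of_eq ?_)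
    rw [ENNReal.ofReal_mul hC.le, ENNReal.mul_rpow_of_nonneg _ _ (by norm_num), ENNReal.one_rpow,
      mul_one]
    congr 1
    have h2 : ENNReal.ofReal (gsq Ω (G τ)) = ENNReal.ofReal (Real.sqrt (gsq Ω (G τ))) ^ (2 : ℕ) := by
      rw [← ENNReal.ofReal_pow (Real.sqrt_nonneg _), Real.sq_sqrt (gsq_nonneg Ω (G τ))]
    rw [h2, ← ENNReal.rpow_natCast, ← ENNReal.rpow_mul]
    norm_num
  refine h1.trans ?_
  have hm : AEMeasurable (fun τ => ENNReal.ofReal (gsq Ω (G τ))) (volume.restrict (Ioo s t)) :=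
    hgi.aestronglyMeasurable.aemeasurable.ennreal_ofReal
  rw [lintegral_const_mul'' _ ((hm.pow_const _).mul_const _)]
  have h3 := ENNReal.lintegral_mul_norm_pow_le (μ := volume.restrict (Ioo s t)) hm
    (aemeasurable_const (b := (1 : ℝ≥0∞))) (p := 2 / 3) (q := 1 / 3) (by norm_num) (by norm_num)
    (by norm_num)
  have h4 : ∫⁻ τ in Ioo s t, ENNReal.ofReal (gsq Ω (G τ)) ≤
      ENNReal.ofReal (Real.sqrt M) ^ 2 * ENNReal.ofReal (Real.sqrt (t - s)) := by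
    rw [← ofReal_integral_eq_lintegral_ofReal hgi (ae_of_all _ fun τ => gsq_nonneg Ω (G τ)),
      ← ENNReal.ofReal_pow (Real.sqrt_nonneg _), Real.sq_sqrt hM, ← ENNReal.ofReal_mul hM]
    refine ENNReal.ofReal_le_ofReal ?_
    rw [← integral_Ioc_eq_integral_Ioo, ← intervalIntegral.integral_of_le hst.le]
    exact hle
  have h5 : ∫⁻ _ in Ioo s t, (1 : ℝ≥0∞) = ENNReal.ofReal (Real.sqrt (t - s)) ^ 2 := by
    rw [lintegral_const, one_mul, Measure.restrict_apply_univ, Real.volume_Ioo,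
      ← ENNReal.ofReal_pow (Real.sqrt_nonneg _), Real.sq_sqrt (by linarith)]
  have h6 : ENNReal.ofReal (C * Real.sqrt M * Real.sqrt (t - s)) =
      ENNReal.ofReal C * ENNReal.ofReal (Real.sqrt M) * ENNReal.ofReal (Real.sqrt (t - s)) := by
    rw [ENNReal.ofReal_mul (by positivity), ENNReal.ofReal_mul hC.le]
  rw [h6, ← dn_alg]
  gcongr
  refine h3.trans ?_
  rw [h5]
  gcongr

end Pool.Agent.Helper7.NT
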