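import Mathlib

/-!
Module RV: a real function with controlled left difference quotients does not increase.
-/

open MeasureTheory Set Filter Topology

namespace Pool.Agent.Helper7.NT

theorem rv {T : ℝ} {D g : ℝ → ℝ} (hg : IntegrableOn g (Icc 0 T)) (hg1 : ∀ τ, 1 ≤ g τ)
    {C : Set ℝ} (hC : C.Countable)
    (husc : ∀ x ∈ Icc 0 T, ∀ η : ℝ, 0 < η → ∀ᶠ t in 𝓝[Icc 0 T] x, D t ≤ D x + η)
    (hae : ∀ᵐ t ∂(volume.restrict (Icc 0 T)), ∀ η δ : ℝ, 0 < η → 0 < δ →
      ∃ s ∈ Ioo (t - δ) t, 0 ≤ s ∧ D t ≤ D s + η * (t - s))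
    (hI : ∀ t ∈ Ioc 0 T,
      (∃ M : ℝ, ∀ δ : ℝ, 0 < δ → ∃ s ∈ Ioo (t - δ) t, 0 ≤ s ∧
        D t ≤ D s + M * ∫ τ in s..t, g τ) ∨
      (t ∈ C ∧ ∀ η δ : ℝ, 0 < η → 0 < δ → ∃ s ∈ Ioo (t - δ) t, 0 ≤ s ∧ D t ≤ D s + η)) :
    ∀ t ∈ Icc 0 T, D t ≤ D 0 := by
  intro t1 ht1
  have hT : 0 ≤ T := ht1.1.trans ht1.2
  suffices hmain : ∀ η : ℝ, 0 < η → D t1 ≤ D 0 + (2 + T) * η by
    refine le_of_forall_pos_le_add fun ε hε => ?_
    have h := hmain (ε / (2 + T)) (by positivity)
    have h2 : (2 + T) * (ε / (2 + T)) = ε := by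
      have : (2 + T) ≠ 0 := by positivity
      field_simp
    rw [h2] at h
    exact h
  intro η hη
  -- the measure with density `g`
  set ν : Measure ℝ := (volume.restrict (Icc 0 T)).withDensity (fun τ => ENNReal.ofReal (g τ))
    with hν
  have : IsFiniteMeasure ν := by
    rw [hν]
    exact isFiniteMeasure_withDensity_ofReal hg.2
  set N : Set ℝ := {t | ¬ ∀ η δ : ℝ, 0 < η → 0 < δ →
      ∃ s ∈ Ioo (t - δ) t, 0 ≤ s ∧ D t ≤ D s + η * (t - s)} with hN
  have hN0 : ν N = 0 := withDensity_absolutelyContinuous _ _ hae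
  have hνI : ∀ s t : ℝ, 0 ≤ s → s ≤ t → t ≤ T →
      ν (Ioc s t) = ENNReal.ofReal (∫ τ in s..t, g τ) := by
    intro s t hs hst htT
    have hsub : Ioc s t ⊆ Icc 0 T := fun x hx => ⟨hs.trans hx.1.le, hx.2.trans htT⟩
    rw [hν, withDensity_apply _ measurableSet_Ioc, Measure.restrict_restrict measurableSet_Ioc,
      inter_eq_self_of_subset_left hsub, intervalIntegral.integral_of_le hst,
      ofReal_integral_eq_lintegral_ofReal (hg.mono_set hsub)
        (ae_of_all _ fun τ => (zero_le_one.trans (hg1 τ)))]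
  -- open sets
  obtain ⟨ε, hε, hεs⟩ := ENNReal.exists_pos_sum_of_countable
    (ENNReal.ofReal_pos.mpr hη).ne' ℕ
  have hU : ∀ k : ℕ, ∃ U ⊇ N, IsOpen U ∧ ν U < (ε k : ENNReal) := by
    intro k
    refine Set.exists_isOpen_lt_of_lt N _ ?_
    rw [hN0]
    exact_mod_cast hε k
  choose U hUN hUo hUε using hU
  have : Countable C := hC.to_subtype
  obtain ⟨ε', hε', hεs'⟩ := ENNReal.exists_pos_sum_of_countable
    (ENNReal.ofReal_pos.mpr hη).ne' C
  set ρ1 : Measure ℝ := Measure.sum (fun k => ν.restrict (U k)) with hρ1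
  set ρ2 : Measure ℝ := Measure.sum (fun c : C => (ε' c : ENNReal) • Measure.dirac (c : ℝ))
    with hρ2
  set ρ : Measure ℝ := ρ1 + ρ2 with hρ
  have h1u : ρ1 univ ≤ ENNReal.ofReal η := by
    rw [hρ1, Measure.sum_apply _ MeasurableSet.univ]
    refine le_trans (ENNReal.tsum_le_tsum fun k => ?_) hεs.le
    rw [Measure.restrict_apply MeasurableSet.univ, univ_inter]
    exact (hUε k).le
  have h2u : ρ2 univ ≤ ENNReal.ofReal η := by
    rw [hρ2, Measure.sum_apply _ MeasurableSet.univ]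
    refine le_trans (ENNReal.tsum_le_tsum fun c => ?_) hεs'.le
    rw [Measure.smul_apply, measure_univ, smul_eq_mul, mul_one]
  have hρu : ρ univ ≤ ENNReal.ofReal (2 * η) := by
    rw [hρ, Measure.add_apply, two_mul, ENNReal.ofReal_add hη.le hη.le]
    exact add_le_add h1u h2u
  have : IsFiniteMeasure ρ := ⟨lt_of_le_of_lt hρu ENNReal.ofReal_lt_top⟩
  set R : ℝ → ℝ := fun t => (ρ (Iic t)).toReal with hR
  have hRmono : Monotone R := by
    intro s t hst
    exact ENNReal.toReal_mono (measure_ne_top _ _) (measure_mono (Iic_subset_Iic.mpr hst))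
  have hR0 : ∀ t, 0 ≤ R t := fun t => ENNReal.toReal_nonneg
  have hRle : ∀ t, R t ≤ 2 * η := by
    intro t
    refine ENNReal.toReal_le_of_le_ofReal (by positivity) ?_
    exact (measure_mono (subset_univ _)).trans hρu
  have hRsub : ∀ s t : ℝ, s ≤ t → ∀ r : ℝ, ENNReal.ofReal r ≤ ρ (Ioc s t) → R s + r ≤ R t := by
    intro s t hst r hr
    have h1 : ρ (Iic t) = ρ (Iic s) + ρ (Ioc s t) := by
      rw [← Iic_union_Ioc_eq_Iic hst]
      refine measure_union ?_ measurableSet_Ioc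
      rw [Set.disjoint_left]
      intro x hx hx'
      exact absurd hx'.1 (not_lt.mpr hx)
    have h2 : R t = R s + (ρ (Ioc s t)).toReal := by
      simp only [hR]
      rw [h1, ENNReal.toReal_add (measure_ne_top _ _) (measure_ne_top _ _)]
    have h3 : r ≤ (ρ (Ioc s t)).toReal :=
      (ENNReal.ofReal_le_iff_le_toReal (measure_ne_top _ _)).mp hr
    linarith
  -- the comparison function
  set H : ℝ → ℝ := fun t => D t - R t - η * t with hH
  have key : ∀ t ∈ Ioc 0 T, ∃ s, 0 ≤ s ∧ s < t ∧ H t ≤ H s := by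
    intro t ht
    by_cases htN : t ∈ N
    · rcases hI t ht with ⟨M, hM⟩ | ⟨htC, h2⟩
      · obtain ⟨m, hm⟩ := exists_nat_ge M
        have hop : IsOpen (⋂ k ∈ Finset.range m, U k) :=
          isOpen_biInter_finset fun k _ => hUo k
        have hmem : t ∈ ⋂ k ∈ Finset.range m, U k := by
          simp only [mem_iInter]
          intro k _
          exact hUN k htN
        obtain ⟨δ, hδ, hball⟩ := Metric.isOpen_iff.mp hop t hmem
        obtain ⟨s, hs, hs0, hDs⟩ := hM δ hδ
        refine ⟨s, hs0, hs.2, ?_⟩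
        have hsub : ∀ k ∈ Finset.range m, Ioc s t ⊆ U k := by
          intro k hk x hx
          have hx' : x ∈ Metric.ball t δ := by
            rw [Metric.mem_ball, Real.dist_eq, abs_lt]
            constructor <;> linarith [hs.1, hs.2, hx.1, hx.2]
          have := hball hx'
          simp only [mem_iInter] at this
          exact this k hk
        have hint0 : 0 ≤ ∫ τ in s..t, g τ :=
          intervalIntegral.integral_nonneg hs.2.le fun τ _ => zero_le_one.trans (hg1 τ)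
        have h3 : ENNReal.ofReal (m * ∫ τ in s..t, g τ) ≤ ρ (Ioc s t) := by
          rw [ENNReal.ofReal_mul (Nat.cast_nonneg m), ENNReal.ofReal_natCast,
            ← hνI s t hs0 hs.2.le ht.2, hρ, Measure.add_apply]
          refine le_trans ?_ le_self_add
          rw [hρ1, Measure.sum_apply _ measurableSet_Ioc]
          refine le_trans ?_ (ENNReal.sum_le_tsum (Finset.range m))
          have h4 : ∀ k ∈ Finset.range m, (ν.restrict (U k)) (Ioc s t) = ν (Ioc s t) := by
            intro k hk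
            rw [Measure.restrict_apply measurableSet_Ioc,
              inter_eq_self_of_subset_left (hsub k hk)]
          rw [Finset.sum_congr rfl h4, Finset.sum_const, Finset.card_range, nsmul_eq_mul]
        have h5 := hRsub s t hs.2.le _ h3
        have h6 : M * ∫ τ in s..t, g τ ≤ m * ∫ τ in s..t, g τ :=
          mul_le_mul_of_nonneg_right hm hint0
        have h7 : η * s ≤ η * t := mul_le_mul_of_nonneg_left hs.2.le hη.le
        simp only [hH]
        linarith
      · have hc0 : (0 : ℝ) < ε' ⟨t, htC⟩ := by exact_mod_cast hε' ⟨t, htC⟩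
        obtain ⟨s, hs, hs0, hDs⟩ := h2 (ε' ⟨t, htC⟩) 1 hc0 one_pos
        refine ⟨s, hs0, hs.2, ?_⟩
        have h3 : ENNReal.ofReal (ε' ⟨t, htC⟩ : ℝ) ≤ ρ (Ioc s t) := by
          rw [hρ, Measure.add_apply, ENNReal.ofReal_coe_nnreal]
          refine le_trans ?_ le_add_self
          rw [hρ2, Measure.sum_apply _ measurableSet_Ioc]
          refine le_trans ?_ (ENNReal.le_tsum (⟨t, htC⟩ : C))
          rw [Measure.smul_apply, Measure.dirac_apply' _ measurableSet_Ioc,
            indicator_of_mem (show (t : ℝ) ∈ Ioc s t from ⟨hs.2, le_rfl⟩)]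
          simp
        have h5 := hRsub s t hs.2.le _ h3
        have h7 : η * s ≤ η * t := mul_le_mul_of_nonneg_left hs.2.le hη.le
        simp only [hH]
        linarith
    · have htN' : ∀ η δ : ℝ, 0 < η → 0 < δ →
          ∃ s ∈ Ioo (t - δ) t, 0 ≤ s ∧ D t ≤ D s + η * (t - s) := by
        by_contra hcon
        exact htN hcon
      obtain ⟨s, hs, hs0, hDs⟩ := htN' η 1 hη one_pos
      refine ⟨s, hs0, hs.2, ?_⟩
      have h5 := hRmono hs.2.le
      simp only [hH]
      linarith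
  -- the infimum
  set A : Set ℝ := {t | t ∈ Icc 0 t1 ∧ H t1 ≤ H t} with hA
  have hAne : A.Nonempty := ⟨t1, ⟨ht1.1, le_rfl⟩, le_rfl⟩
  have hAbd : BddBelow A := ⟨0, fun t ht => ht.1.1⟩
  set t0 := sInf A with ht0
  have ht0m : t0 ∈ Icc 0 t1 :=
    ⟨le_csInf hAne fun t ht => ht.1.1, csInf_le hAbd ⟨⟨ht1.1, le_rfl⟩, le_rfl⟩⟩
  have ht0T : t0 ∈ Icc 0 T := ⟨ht0m.1, ht0m.2.trans ht1.2⟩
  have ht0A : t0 ∈ A := by
    refine ⟨ht0m, ?_⟩
    refine le_of_forall_pos_le_add fun e he => ?_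
    have h1 := husc t0 ht0T e he
    rw [eventually_nhdsWithin_iff, Metric.eventually_nhds_iff] at h1
    obtain ⟨δ, hδ, h2⟩ := h1
    obtain ⟨t, htA, htlt⟩ := exists_lt_of_csInf_lt hAne (show sInf A < t0 + δ by linarith)
    have h3 : t0 ≤ t := csInf_le hAbd htA
    have h4 := h2 (show dist t t0 < δ by
      rw [Real.dist_eq, abs_lt]
      constructor <;> linarith) ⟨htA.1.1, htA.1.2.trans ht1.2⟩
    have h5 := hRmono h3
    have h6 : η * t0 ≤ η * t := mul_le_mul_of_nonneg_left h3 hη.le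
    have h7 := htA.2
    simp only [hH] at h7 ⊢
    linarith
  have ht00 : t0 = 0 := by
    by_contra hne
    have hpos : 0 < t0 := lt_of_le_of_ne ht0m.1 (Ne.symm hne)
    obtain ⟨s, hs0, hst, hHs⟩ := key t0 ⟨hpos, ht0T.2⟩
    have hsA : s ∈ A := ⟨⟨hs0, hst.le.trans ht0m.2⟩, ht0A.2.trans hHs⟩
    exact absurd (csInf_le hAbd hsA) (not_le.mpr hst)
  have hfin := ht0A.2
  rw [ht00] at hfin
  simp only [hH] at hfin
  have h8 := hRle t1
  have h9 := hR0 0
  have h10 : η * t1 ≤ η * T := mul_le_mul_of_nonneg_left ht1.2 hη.le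
  linarith

end Pool.Agent.Helper7.NT
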