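import Mathlib

/-!
Module Sel: selection of good starting times (elementary analysis on an interval).
-/

open MeasureTheory Set Filter Topology

namespace Pool.Agent.Helper7.NT

theorem sel_ii {T : ℝ} {α : ℝ → ℝ} (hα : IntegrableOn α (Icc 0 T)) {a b : ℝ} (ha : 0 ≤ a)
    (hab : a ≤ b) (hb : b ≤ T) : IntervalIntegrable α volume a b := by
  rw [intervalIntegrable_iff_integrableOn_Icc_of_le hab]
  exact hα.mono_set (Icc_subset_Icc ha hb)

theorem sel_add {T t : ℝ} (htT : t ≤ T) {α : ℝ → ℝ} (hα : IntegrableOn α (Icc 0 T))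
    {a b : ℝ} (ha : 0 ≤ a) (hab : a ≤ b) (hbt : b ≤ t) :
    (∫ τ in a..b, α τ) + (∫ τ in b..t, α τ) = ∫ τ in a..t, α τ :=
  intervalIntegral.integral_add_adjacent_intervals (sel_ii hα ha hab (hbt.trans htT))
    (sel_ii hα (ha.trans hab) hbt htT)

theorem sel_anti {T t : ℝ} (htT : t ≤ T) {α : ℝ → ℝ} (hα : IntegrableOn α (Icc 0 T))
    (h0 : ∀ τ, 0 ≤ α τ) {a b : ℝ} (ha : 0 ≤ a) (hab : a ≤ b) (hbt : b ≤ t) :
    (∫ τ in b..t, α τ) ≤ ∫ τ in a..t, α τ := by
  have h1 := sel_add htT hα ha hab hbt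
  have h2 : 0 ≤ ∫ τ in a..b, α τ := intervalIntegral.integral_nonneg hab fun x _ => h0 x
  linarith

theorem sel_avg {T : ℝ} {α : ℝ → ℝ} (hα : IntegrableOn α (Icc 0 T)) {S : Set ℝ}
    (hS : ∀ᵐ s ∂(volume.restrict (Icc 0 T)), s ∈ S) {a b : ℝ} (ha : 0 ≤ a) (hab : a < b)
    (hb : b ≤ T) : ∃ s ∈ Ioo a b, s ∈ S ∧ (b - a) * α s ≤ ∫ τ in a..b, α τ := by
  have hsub : Ioo a b ⊆ Icc 0 T := fun x hx => ⟨ha.trans hx.1.le, hx.2.le.trans hb⟩
  have hμ : volume.restrict (Ioo a b) ≠ 0 := by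
    rw [Ne, Measure.restrict_eq_zero, Real.volume_Ioo, ENNReal.ofReal_eq_zero, not_le]
    linarith
  have hN : (volume.restrict (Ioo a b)) (S ∩ Ioo a b)ᶜ = 0 := by
    have h1 : ∀ᵐ s ∂(volume.restrict (Ioo a b)), s ∈ S :=
      ae_restrict_of_ae_restrict_of_subset hsub hS
    have h2 : ∀ᵐ s ∂(volume.restrict (Ioo a b)), s ∈ Ioo a b :=
      ae_restrict_mem measurableSet_Ioo
    have h3 : ∀ᵐ s ∂(volume.restrict (Ioo a b)), s ∈ S ∩ Ioo a b := by
      filter_upwards [h1, h2] with s hs1 hs2 using ⟨hs1, hs2⟩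
    exact h3
  obtain ⟨s, hs, hle⟩ := exists_notMem_null_le_average hμ (hα.mono_set hsub) hN
  rw [notMem_compl_iff] at hs
  refine ⟨s, hs.2, hs.1, ?_⟩
  rw [average_eq, measureReal_restrict_apply_univ, Real.volume_real_Ioo_of_le hab.le,
    smul_eq_mul, ← integral_Ioc_eq_integral_Ioo, ← intervalIntegral.integral_of_le hab.le] at hle
  have h4 : 0 < b - a := by linarith
  calc (b - a) * α s ≤ (b - a) * ((b - a)⁻¹ * ∫ τ in a..b, α τ) :=
        mul_le_mul_of_nonneg_left hle h4.le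
    _ = ∫ τ in a..b, α τ := by rw [mul_inv_cancel_left₀ h4.ne']

theorem sel_small {l δ : ℝ} (hδ : 0 < δ) : ∃ i : ℕ, l / 2 ^ i < δ := by
  have h1 : Tendsto (fun i : ℕ => l * ((1 / 2 : ℝ)) ^ i) atTop (𝓝 (l * 0)) :=
    (tendsto_pow_atTop_nhds_zero_of_lt_one (by norm_num) (by norm_num)).const_mul l
  rw [mul_zero] at h1
  obtain ⟨i, hi⟩ := (h1.eventually (gt_mem_nhds hδ)).exists
  refine ⟨i, ?_⟩
  rw [one_div, inv_pow] at hi
  rw [div_eq_mul_inv]
  exact hi

theorem sel_a {T t : ℝ} (ht : 0 < t) (htT : t ≤ T) {α : ℝ → ℝ}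
    (hα : IntegrableOn α (Icc 0 T)) (h0 : ∀ τ, 0 ≤ α τ) {S : Set ℝ}
    (hS : ∀ᵐ s ∂(volume.restrict (Icc 0 T)), s ∈ S) {M : ℝ}
    (hM : ∀ δ : ℝ, 0 < δ → ∃ s ∈ Ioo (t - δ) t, 0 ≤ s ∧
      ∫ τ in s..t, α τ ≤ M * Real.sqrt (t - s)) :
    ∃ M' : ℝ, 0 ≤ M' ∧ ∀ δ : ℝ, 0 < δ → ∃ s ∈ Ioo (t - δ) t, 0 ≤ s ∧ s ∈ S ∧
      (∫ τ in s..t, α τ) ≤ M' * Real.sqrt (t - s) ∧
      (t - s) * α s ≤ M' * ((∫ τ in s..t, α τ) + (t - s)) := by
  have hφ0 : ∀ s, s ≤ t → 0 ≤ ∫ τ in s..t, α τ := fun s hs =>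
    intervalIntegral.integral_nonneg hs fun x _ => h0 x
  set P : ℝ := max M 0 with hP
  have hP0 : 0 ≤ P := le_max_right _ _
  have hMP : M ≤ P := le_max_left _ _
  by_cases hcase : ∀ δ : ℝ, 0 < δ → ∃ s ∈ Ioo (t - δ) t, 0 ≤ s ∧ s ∈ S ∧
      (t - s) * α s ≤ 2 * (∫ τ in s..t, α τ) ∧ (∫ τ in s..t, α τ) ≤ 2 * P * Real.sqrt (t - s)
  · refine ⟨2 + 2 * P, by linarith, fun δ hδ => ?_⟩
    obtain ⟨s, hs, hs0, hsS, h1, h2⟩ := hcase δ hδ
    have h3 := hφ0 s hs.2.le
    have h4 : 0 ≤ t - s := by linarith [hs.2]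
    refine ⟨s, hs, hs0, hsS, h2.trans ?_, h1.trans ?_⟩
    · have := Real.sqrt_nonneg (t - s)
      nlinarith
    · nlinarith [mul_nonneg hP0 h3, mul_nonneg hP0 h4]
  · push Not at hcase
    obtain ⟨δ₀, hδ₀, hbad⟩ := hcase
    obtain ⟨s₀, hs₀, hs₀0, hφs₀⟩ := hM δ₀ hδ₀
    set l : ℝ := t - s₀ with hl
    have hl0 : 0 < l := by linarith [hs₀.2]
    have hlδ : l < δ₀ := by linarith [hs₀.1]
    -- the dyadic points
    set m : ℕ → ℝ := fun i => t - l / 2 ^ i with hm
    have hmt : ∀ i, m i < t := fun i => by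
      simp only [hm]
      have : 0 < l / 2 ^ i := by positivity
      linarith
    have hm0 : m 0 = s₀ := by simp [hm, hl]
    have hdiff : ∀ i, m (i + 1) - m i = l / 2 ^ (i + 1) := fun i => by
      simp only [hm]
      rw [pow_succ]
      field_simp
      ring
    have htm : ∀ i, t - m i = 2 * (m (i + 1) - m i) := fun i => by
      rw [hdiff]
      simp only [hm]
      rw [pow_succ]
      field_simp
      ring
    have hlt : ∀ i, m i < m (i + 1) := fun i => by
      have h1 := hdiff i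
      have : 0 < l / 2 ^ (i + 1) := by positivity
      linarith
    have hms : ∀ i, s₀ ≤ m i := fun i => by
      have : l / 2 ^ i ≤ l := div_le_self hl0.le (one_le_pow₀ (by norm_num))
      simp only [hm]
      linarith
    have hm00 : ∀ i, 0 ≤ m i := fun i => hs₀0.trans (hms i)
    have hclaim : ∀ i, (∫ τ in (m i)..t, α τ) ≤ (∫ τ in s₀..t, α τ) / 2 ^ i := by
      intro i
      induction i with
      | zero => rw [hm0]; simp
      | succ i ih =>
        obtain ⟨s, hs, hsS, havg⟩ := sel_avg hα hS (hm00 i) (hlt i) ((hmt (i + 1)).le.trans htT)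
        have hst : s < t := hs.2.trans (hmt (i + 1))
        have hs0 : 0 ≤ s := (hm00 i).trans hs.1.le
        have h1 : (∫ τ in s..t, α τ) ≤ ∫ τ in (m i)..t, α τ :=
          sel_anti htT hα h0 (hm00 i) hs.1.le hst.le
        have h2 : (∫ τ in (m (i + 1))..t, α τ) ≤ ∫ τ in s..t, α τ :=
          sel_anti htT hα h0 hs0 hs.2.le (hmt (i + 1)).le
        have h3 : (∫ τ in s₀..t, α τ) / 2 ^ i ≤ P * (Real.sqrt l / 2 ^ i) := by
          rw [← mul_div_assoc]
          refine div_le_div_of_nonneg_right (hφs₀.trans ?_) (by positivity)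
          exact mul_le_mul_of_nonneg_right hMP (Real.sqrt_nonneg _)
        have h4 : Real.sqrt l / 2 ^ i ≤ 2 * Real.sqrt (t - s) := by
          have hts : l / 2 ^ (i + 1) ≤ t - s := by
            have h5 := htm i
            have h6 := hdiff i
            have h7 := hs.2
            have h8 : t - m (i + 1) = l / 2 ^ (i + 1) := by linarith
            linarith
          have h9 : Real.sqrt l / 2 ^ i = Real.sqrt (l / 4 ^ i) := by
            rw [Real.sqrt_div' _ (by positivity)]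
            congr 1
            rw [show (4 : ℝ) = 2 ^ 2 by norm_num, ← pow_mul, mul_comm 2 i, pow_mul,
              Real.sqrt_sq (by positivity)]
          have h10 : (2 : ℝ) * Real.sqrt (t - s) = Real.sqrt (4 * (t - s)) := by
            rw [Real.sqrt_mul (by norm_num), show (4 : ℝ) = 2 ^ 2 by norm_num,
              Real.sqrt_sq (by norm_num)]
          rw [h9, h10]
          refine Real.sqrt_le_sqrt ?_
          have h11 : l / 4 ^ i ≤ l / 2 ^ i :=
            div_le_div_of_nonneg_left hl0.le (by positivity)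
              (pow_le_pow_left₀ (by norm_num) (by norm_num) i)
          have h12 : l / 2 ^ i = 2 * (l / 2 ^ (i + 1)) := by
            rw [pow_succ]
            field_simp
          have h13 : 0 < l / 2 ^ (i + 1) := by positivity
          linarith
        have h5 : (∫ τ in s..t, α τ) ≤ 2 * P * Real.sqrt (t - s) := by
          have h6 := mul_le_mul_of_nonneg_left h4 hP0
          linarith
        have h7 : 2 * (∫ τ in s..t, α τ) < (t - s) * α s := by
          by_contra hcon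
          push Not at hcon
          have hmem : s ∈ Ioo (t - δ₀) t := by
            refine ⟨?_, hst⟩
            have := hms i
            have := hs.1
            linarith
          exact absurd h5 (not_le.2 (hbad s hmem hs0 hsS hcon))
        have h8 : (t - s) * α s ≤ 2 * ((m (i + 1) - m i) * α s) := by
          have h9 : t - s ≤ 2 * (m (i + 1) - m i) := by
            have := htm i
            have := hs.1
            linarith
          have := mul_le_mul_of_nonneg_right h9 (h0 s)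
          linarith
        have h9 := sel_add htT hα (hm00 i) (hlt i).le (hmt (i + 1)).le
        have h10 : (∫ τ in s₀..t, α τ) / 2 ^ (i + 1) = (∫ τ in s₀..t, α τ) / 2 ^ i / 2 := by
          rw [pow_succ]
          field_simp
        rw [h10]
        linarith
    set K : ℝ := (∫ τ in s₀..t, α τ) / l with hK
    have hK0 : 0 ≤ K := div_nonneg (hφ0 s₀ hs₀.2.le) hl0.le
    have hsT : 0 ≤ Real.sqrt T := Real.sqrt_nonneg T
    refine ⟨2 * K * (1 + Real.sqrt T), by positivity, fun δ hδ => ?_⟩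
    obtain ⟨i, hi⟩ := sel_small (l := l) hδ
    obtain ⟨s, hs, hsS, havg⟩ := sel_avg hα hS (hm00 i) (hlt i) ((hmt (i + 1)).le.trans htT)
    have hst : s < t := hs.2.trans (hmt (i + 1))
    have hs0 : 0 ≤ s := (hm00 i).trans hs.1.le
    have hKi : (∫ τ in s₀..t, α τ) / 2 ^ i = K * (t - m i) := by
      simp only [hK, hm]
      field_simp
      ring
    have hd0 : 0 < m (i + 1) - m i := by linarith [hlt i]
    have h1 : (∫ τ in (m i)..t, α τ) ≤ K * (2 * (m (i + 1) - m i)) := by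
      rw [← htm i, ← hKi]
      exact hclaim i
    have h2 : (∫ τ in s..t, α τ) ≤ ∫ τ in (m i)..t, α τ :=
      sel_anti htT hα h0 (hm00 i) hs.1.le hst.le
    have h3 : α s ≤ 2 * K := by
      have h4 := sel_add htT hα (hm00 i) (hlt i).le (hmt (i + 1)).le
      have h5 := hφ0 (m (i + 1)) (hmt (i + 1)).le
      have h6 : (m (i + 1) - m i) * α s ≤ (m (i + 1) - m i) * (2 * K) := by linarith
      exact le_of_mul_le_mul_left h6 hd0
    have h4 : m (i + 1) - m i ≤ t - s := by
      have h5 := htm i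
      have := hs.2
      linarith
    have h5 : (∫ τ in s..t, α τ) ≤ 2 * K * (t - s) := by
      have := mul_le_mul_of_nonneg_left h4 hK0
      linarith
    have hts0 : 0 ≤ t - s := by linarith
    refine ⟨s, ⟨?_, hst⟩, hs0, hsS, h5.trans ?_, ?_⟩
    · have h6 : m i ≤ s := hs.1.le
      have h7 : t - m i = l / 2 ^ i := by simp [hm]
      linarith
    · have h6 : t - s = Real.sqrt (t - s) * Real.sqrt (t - s) := (Real.mul_self_sqrt hts0).symm
      have h7 : Real.sqrt (t - s) ≤ Real.sqrt T := Real.sqrt_le_sqrt (by linarith)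
      have h8 := Real.sqrt_nonneg (t - s)
      have h9 : t - s ≤ (1 + Real.sqrt T) * Real.sqrt (t - s) := by
        have h10 := mul_le_mul_of_nonneg_right h7 h8
        linarith
      have h10 := mul_le_mul_of_nonneg_left h9 (mul_nonneg (by norm_num : (0 : ℝ) ≤ 2) hK0)
      linarith
    · have h6 := mul_le_mul_of_nonneg_left h3 hts0
      have h7 := hφ0 s hst.le
      have h8 : (0 : ℝ) ≤ 2 * K * Real.sqrt T * (t - s) := by positivity
      have h9 : (0 : ℝ) ≤ 2 * K * (1 + Real.sqrt T) * (∫ τ in s..t, α τ) :=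
        mul_nonneg (by positivity) h7
      linarith

theorem sel_b {T t : ℝ} (ht : 0 < t) (htT : t ≤ T) {α g : ℝ → ℝ}
    (hα : IntegrableOn α (Icc 0 T)) (h0 : ∀ τ, 0 ≤ α τ) (hg : IntegrableOn g (Icc 0 T))
    (hg1 : ∀ τ, 1 + α τ ≤ g τ) {S : Set ℝ}
    (hS : ∀ᵐ s ∂(volume.restrict (Icc 0 T)), s ∈ S) :
    ∀ δ : ℝ, 0 < δ → ∃ s ∈ Ioo (t - δ) t, 0 ≤ s ∧ s ∈ S ∧
      (∫ τ in s..t, α τ) + (t - s) * α s ≤ 12 * ∫ τ in s..t, g τ := by
  intro δ hδ
  have hφ0 : ∀ s, s ≤ t → 0 ≤ ∫ τ in s..t, α τ := fun s hs =>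
    intervalIntegral.integral_nonneg hs fun x _ => h0 x
  have hg0 : ∀ τ, 0 ≤ g τ := fun τ => by linarith [h0 τ, hg1 τ]
  set l : ℝ := min (δ / 2) t with hl
  have hl0 : 0 < l := lt_min (by linarith) ht
  have hlδ : l < δ := lt_of_le_of_lt (min_le_left _ _) (by linarith)
  have hlt' : l ≤ t := min_le_right _ _
  set m : ℕ → ℝ := fun i => t - l / 2 ^ i with hm
  have hmt : ∀ i, m i < t := fun i => by
    simp only [hm]
    have : 0 < l / 2 ^ i := by positivity
    linarith
  have hdiff : ∀ i, m (i + 1) - m i = l / 2 ^ (i + 1) := fun i => by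
    simp only [hm]
    rw [pow_succ]
    field_simp
    ring
  have htm : ∀ i, t - m i = 2 * (m (i + 1) - m i) := fun i => by
    rw [hdiff]
    simp only [hm]
    rw [pow_succ]
    field_simp
    ring
  have hlt : ∀ i, m i < m (i + 1) := fun i => by
    have h1 := hdiff i
    have : 0 < l / 2 ^ (i + 1) := by positivity
    linarith
  have hms : ∀ i, t - l ≤ m i := fun i => by
    have : l / 2 ^ i ≤ l := div_le_self hl0.le (one_le_pow₀ (by norm_num))
    simp only [hm]
    linarith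
  have hm00 : ∀ i, 0 ≤ m i := fun i => by linarith [hms i]
  have hHlow : ∀ i, l / 2 ^ i ≤ ∫ τ in (m i)..t, g τ := by
    intro i
    have h1 : (∫ _τ in (m i)..t, (1 : ℝ)) ≤ ∫ τ in (m i)..t, g τ :=
      intervalIntegral.integral_mono_on (hmt i).le intervalIntegrable_const
        (sel_ii hg (hm00 i) (hmt i).le htT) fun x _ => by linarith [h0 x, hg1 x]
    rw [intervalIntegral.integral_const, smul_eq_mul, mul_one] at h1
    have h2 : t - m i = l / 2 ^ i := by simp [hm]
    linarith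
  have hex : ∃ i, (∫ τ in (m i)..t, g τ) ≤ 4 * ∫ τ in (m (i + 1))..t, g τ := by
    by_contra hcon
    push Not at hcon
    have hdec : ∀ i, (∫ τ in (m i)..t, g τ) ≤ (∫ τ in (m 0)..t, g τ) / 4 ^ i := by
      intro i
      induction i with
      | zero => simp
      | succ i ih =>
        have h1 := hcon i
        have h2 : (∫ τ in (m 0)..t, g τ) / 4 ^ (i + 1) = (∫ τ in (m 0)..t, g τ) / 4 ^ i / 4 := by
          rw [pow_succ]
          field_simp
        rw [h2]
        linarith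
    obtain ⟨i, hi⟩ := sel_small (l := ∫ τ in (m 0)..t, g τ) hl0
    have h1 := hHlow i
    have h2 := hdec i
    have h3 : (∫ τ in (m 0)..t, g τ) / 4 ^ i = (∫ τ in (m 0)..t, g τ) / 2 ^ i / 2 ^ i := by
      rw [div_div, ← mul_pow]
      norm_num
    rw [h3] at h2
    have h4 : (∫ τ in (m 0)..t, g τ) / 2 ^ i / 2 ^ i < l / 2 ^ i :=
      div_lt_div_of_pos_right hi (by positivity)
    linarith
  obtain ⟨i, hi⟩ := hex
  obtain ⟨s, hs, hsS, havg⟩ := sel_avg hα hS (hm00 i) (hlt i) ((hmt (i + 1)).le.trans htT)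
  have hst : s < t := hs.2.trans (hmt (i + 1))
  have hs0 : 0 ≤ s := (hm00 i).trans hs.1.le
  refine ⟨s, ⟨?_, hst⟩, hs0, hsS, ?_⟩
  · have h6 : m i ≤ s := hs.1.le
    have := hms i
    linarith
  · have h1 : (∫ τ in s..t, α τ) ≤ ∫ τ in (m i)..t, α τ :=
      sel_anti htT hα h0 (hm00 i) hs.1.le hst.le
    have h2 : (∫ τ in (m (i + 1))..t, g τ) ≤ ∫ τ in s..t, g τ :=
      sel_anti htT hg hg0 hs0 hs.2.le (hmt (i + 1)).le
    have h3 : (t - s) * α s ≤ 2 * ((m (i + 1) - m i) * α s) := by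
      have h9 : t - s ≤ 2 * (m (i + 1) - m i) := by
        have := htm i
        have := hs.1
        linarith
      have := mul_le_mul_of_nonneg_right h9 (h0 s)
      linarith
    have h4 := sel_add htT hα (hm00 i) (hlt i).le (hmt (i + 1)).le
    have h5 := hφ0 (m (i + 1)) (hmt (i + 1)).le
    have h6 : (∫ τ in (m i)..t, α τ) ≤ ∫ τ in (m i)..t, g τ :=
      intervalIntegral.integral_mono_on (hmt i).le (sel_ii hα (hm00 i) (hmt i).le htT)
        (sel_ii hg (hm00 i) (hmt i).le htT) fun x _ => by linarith [h0 x, hg1 x]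
    linarith

end Pool.Agent.Helper7.NT
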