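import Pool.Agent.Helper7.NT.Key
import Pool.Agent.Helper7.NT.DN
import Pool.Agent.Helper7.NT.Sel
import Pool.Agent.Helper7.NT.AeL
import Pool.Agent.Helper7.NT.RV

/-!
Assembly: the energy equality for weak solutions all of whose times are of Type I.
-/

open MeasureTheory Set Filter Topology
open scoped ENNReal

namespace Pool.Agent.Helper7.NT

open Pool.Agent.Helper52.NSE

variable {Ω : Set E3} {ν T : ℝ} {u₀ : E3 → E3} {f u : ℝ → E3 → E3} {G : ℝ → Fin 3 → E3 → E3}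

/-- the comparison function `1 + ‖∇u‖² + ‖f‖²` -/
noncomputable def gg (Ω : Set E3) (f : ℝ → E3 → E3) (G : ℝ → Fin 3 → E3 → E3) (τ : ℝ) : ℝ :=
  1 + gsq Ω (G τ) + ∫ x in Ω, ‖f τ x‖ ^ 2

theorem gg_int (h : IsWeakSolution Ω ν T u₀ f u G) : IntegrableOn (gg Ω f G) (Icc 0 T) := by
  have h1 : IntegrableOn (fun _ : ℝ => (1 : ℝ)) (Icc 0 T) :=
    integrableOn_const isCompact_Icc.measure_lt_top.ne
  exact (h1.add h.gsq_int).add h.force_int

theorem fsq_nonneg (Ω : Set E3) (f : E3 → E3) : 0 ≤ ∫ x in Ω, ‖f x‖ ^ 2 :=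
  integral_nonneg fun x => by positivity

theorem int_gg (h : IsWeakSolution Ω ν T u₀ f u G) {s t : ℝ} (hs : 0 ≤ s) (hst : s ≤ t)
    (ht : t ≤ T) : ∫ τ in s..t, gg Ω f G τ = (t - s) + (∫ τ in s..t, gsq Ω (G τ)) +
      ∫ τ in s..t, ∫ x in Ω, ‖f τ x‖ ^ 2 := by
  have i1 : IntervalIntegrable (fun τ => gsq Ω (G τ)) volume s t := ii_of h.gsq_int hs hst ht
  have i2 : IntervalIntegrable (fun τ => ∫ x in Ω, ‖f τ x‖ ^ 2) volume s t :=
    ii_of h.force_int hs hst ht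
  have i0 : IntervalIntegrable (fun _ : ℝ => (1 : ℝ)) volume s t := by simp
  unfold gg
  rw [intervalIntegral.integral_add (i0.add i1) i2, intervalIntegral.integral_add i0 i1]
  simp

theorem good_ae (h : IsWeakSolution Ω ν T u₀ f u G)
    (hS : StrongEnergyInequality Ω ν T f u G) :
    ∀ᵐ s ∂(volume.restrict (Icc 0 T)),
      s ∈ {s | MemH1s Ω (u s) (G s) ∧ EnergyFrom Ω ν T f u G s} := by
  filter_upwards [h.grad_mem, hS] with s h1 h2
  exact ⟨h1, h2⟩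

/-- At a time of Type I the defect is controlled from the left. -/
theorem typeI_left (hO : IsOpen Ω) (hb : Bornology.IsBounded Ω) (hν : 0 < ν)
    (h : IsWeakSolution Ω ν T u₀ f u G) (hS : StrongEnergyInequality Ω ν T f u G) {t : ℝ}
    (ht : t ∈ Ioc 0 T) (hI : TypeI Ω u G t) :
    ∃ M : ℝ, ∀ δ : ℝ, 0 < δ → ∃ s ∈ Ioo (t - δ) t, 0 ≤ s ∧
      defect Ω ν f u G t ≤ defect Ω ν f u G s + M * ∫ τ in s..t, gg Ω f G τ := by
  have hgood := good_ae h hS
  rcases hI with ⟨M, hM⟩ | ⟨q, hq, M, δ₀, hδ₀, hM⟩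
  · obtain ⟨C, hC, hdn⟩ := diss_norm hO hb h
    obtain ⟨M', hM', hsel⟩ := sel_a ht.1 ht.2 h.gsq_int (fun τ => gsq_nonneg Ω (G τ)) hgood hM
    obtain ⟨K, hK, hkey⟩ := key hO hb hν h (q := 6) (by norm_num)
      (N := C * Real.sqrt M') (by positivity)
    refine ⟨K * (M' + 1), fun δ hδ => ?_⟩
    obtain ⟨s, hs, hs0, ⟨hm, hE⟩, h1, h2⟩ := hsel δ hδ
    refine ⟨s, hs, hs0, ?_⟩
    have h3 := hkey s t hs0 hs.2 ht.2 hm hE (hdn s t hs0 hs.2 ht.2 M' hM' h1)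
    refine h3.trans (add_le_add le_rfl ?_)
    rw [int_gg h hs0 hs.2.le ht.2, mul_assoc]
    refine mul_le_mul_of_nonneg_left ?_ hK.le
    have p1 : 0 ≤ ∫ τ in s..t, ∫ x in Ω, ‖f τ x‖ ^ 2 :=
      intervalIntegral.integral_nonneg hs.2.le fun τ _ => fsq_nonneg Ω (f τ)
    have p2 : 0 ≤ ∫ τ in s..t, gsq Ω (G τ) :=
      intervalIntegral.integral_nonneg hs.2.le fun τ _ => gsq_nonneg Ω (G τ)
    have p3 : 0 ≤ t - s := by linarith [hs.2]
    nlinarith [mul_nonneg hM' p1]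
  · obtain ⟨K, hK, hkey⟩ := key hO hb hν h hq (N := max M 0) (le_max_right _ _)
    refine ⟨K * 13, fun δ hδ => ?_⟩
    obtain ⟨s, hs, hs0, ⟨hm, hE⟩, h1⟩ := sel_b ht.1 ht.2 h.gsq_int
      (fun τ => gsq_nonneg Ω (G τ)) (gg_int h)
      (fun τ => by unfold gg; linarith [fsq_nonneg Ω (f τ)]) hgood (min δ δ₀) (lt_min hδ hδ₀)
    have hs1 : s ∈ Ioo (t - δ) t := ⟨by linarith [hs.1, min_le_left δ δ₀], hs.2⟩
    have hs2 : s ∈ Ioo (t - δ₀) t := ⟨by linarith [hs.1, min_le_right δ δ₀], hs.2⟩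
    refine ⟨s, hs1, hs0, ?_⟩
    have h2 : ∫⁻ τ in Ioo s t, eLpNorm (u τ) q (volume.restrict Ω) ^ timeExp q ≤
        ENNReal.ofReal (max M 0 * Real.sqrt (t - s)) ^ timeExp q := by
      refine (hM s hs2 hs0).trans ?_
      refine ENNReal.rpow_le_rpow (ENNReal.ofReal_le_ofReal ?_) ?_
      · exact mul_le_mul_of_nonneg_right (le_max_left _ _) (Real.sqrt_nonneg _)
      · rw [timeExp_eq]
        have := (th_bounds hq).1
        positivity
    have h3 := hkey s t hs0 hs.2 ht.2 hm hE h2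
    refine h3.trans (add_le_add le_rfl ?_)
    rw [mul_assoc]
    refine mul_le_mul_of_nonneg_left ?_ hK.le
    have p1 : 0 ≤ ∫ τ in s..t, ∫ x in Ω, ‖f τ x‖ ^ 2 :=
      intervalIntegral.integral_nonneg hs.2.le fun τ _ => fsq_nonneg Ω (f τ)
    have p2 : 0 ≤ ∫ τ in s..t, gsq Ω (G τ) :=
      intervalIntegral.integral_nonneg hs.2.le fun τ _ => gsq_nonneg Ω (G τ)
    have p3 : 0 ≤ t - s := by linarith [hs.2]
    have p4 := int_gg h hs0 hs.2.le ht.2
    linarith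

/-- No loss of kinetic energy means that the defect does not jump. -/
theorem noLoss_left (h : IsWeakSolution Ω ν T u₀ f u G) (hν : 0 < ν) {t : ℝ}
    (ht : t ∈ Ioc 0 T) (hN : NoLoss Ω u t) :
    ∀ η δ : ℝ, 0 < η → 0 < δ → ∃ s ∈ Ioo (t - δ) t, 0 ≤ s ∧
      defect Ω ν f u G t ≤ defect Ω ν f u G s + η := by
  intro η δ hη hδ
  have hT : 0 ≤ T := ht.1.le.trans ht.2
  have c1 : ContinuousOn (fun t => ∫ τ in (0)..t, power Ω (f τ) (u τ)) (Icc 0 T) := by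
    have := intervalIntegral.continuousOn_primitive_interval (μ := volume)
      (f := fun τ => power Ω (f τ) (u τ)) (a := 0) (b := T)
      (by rw [uIcc_of_le hT]; exact h.power_int)
    rwa [uIcc_of_le hT] at this
  have hη2 : 0 < η / 2 := by linarith
  obtain ⟨δ₁, hδ₁, hc⟩ := Metric.continuousWithinAt_iff.mp (c1 t ⟨ht.1.le, ht.2⟩) _ hη2
  obtain ⟨s, hs, hs0, hk⟩ := hN (η / 2) (min δ δ₁) hη2 (lt_min hδ hδ₁)
  have hs1 : s ∈ Ioo (t - δ) t := ⟨by linarith [hs.1, min_le_left δ δ₁], hs.2⟩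
  refine ⟨s, hs1, hs0, ?_⟩
  have h1 := h.defect_sub hs0 hs.2.le ht.2
  have h2 : 0 ≤ (volume Ω).toReal * ∫ τ in s..t, diss Ω ν (G τ) :=
    mul_nonneg ENNReal.toReal_nonneg
      (intervalIntegral.integral_nonneg hs.2.le fun τ _ => diss_nonneg hν _)
  have h3 := hc (x := s) ⟨hs0, hs.2.le.trans ht.2⟩ (by
    rw [Real.dist_eq, abs_lt]
    constructor <;> linarith [hs.1, hs.2, min_le_right δ δ₁])
  rw [Real.dist_eq] at h3
  have h4 := intervalIntegral.integral_add_adjacent_intervals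
    (ii_of h.power_int le_rfl hs0 (hs.2.le.trans ht.2)) (ii_of h.power_int hs0 hs.2.le ht.2)
  have h5 := (abs_lt.mp h3).1
  linarith

theorem main (hO : IsOpen Ω) (hb : Bornology.IsBounded Ω) (hν : 0 < ν)
    (h : IsWeakSolution Ω ν T u₀ f u G) (hS : StrongEnergyInequality Ω ν T f u G) {C : Set ℝ}
    (hC : C.Countable) (hI : ∀ t ∈ Ioc 0 T, TypeI Ω u G t ∨ (t ∈ C ∧ NoLoss Ω u t)) :
    ∀ t ∈ Icc 0 T, defect Ω ν f u G t = 0 := by
  intro t ht
  have h0 : defect Ω ν f u G 0 = 0 := by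
    unfold defect
    simp
  have h1 := rv (D := defect Ω ν f u G) (gg_int h)
    (fun τ => by unfold gg; linarith [fsq_nonneg Ω (f τ), gsq_nonneg Ω (G τ)]) hC
    (fun x hx η hη => h.usc hx η hη) (ae_left hO hb hν h)
    (fun t ht => (hI t ht).imp (typeI_left hO hb hν h hS ht)
      fun h' => ⟨h'.1, noLoss_left h hν ht h'.2⟩) t ht
  have h2 := h.energy t ht
  rw [h0] at h1
  refine le_antisymm h1 ?_
  unfold defect
  linarith

end Pool.Agent.Helper7.NT
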