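import Pool.Agent.Helper7.NT.Defs

/-!
Module HoS: Hoelder's inequality in space for the trilinear form.
-/

open MeasureTheory Set Filter Topology
open scoped ENNReal

namespace Pool.Agent.Helper7.NT

open Pool.Agent.Helper52.NSE

variable {Ω : Set E3}

theorem hos_two (w : E3 → E3) (μ : Measure E3) :
    eLpNorm w 2 μ = (∫⁻ x, ‖w x‖ₑ ^ (2 : ℝ) ∂μ) ^ (1 / 2 : ℝ) := by
  rw [eLpNorm_eq_lintegral_rpow_enorm_toReal (by norm_num) (by norm_num)]
  norm_num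

theorem hos_six (w : E3 → E3) (μ : Measure E3) :
    eLpNorm w 6 μ = (∫⁻ x, ‖w x‖ₑ ^ (6 : ℝ) ∂μ) ^ (1 / 6 : ℝ) := by
  rw [eLpNorm_eq_lintegral_rpow_enorm_toReal (by norm_num) (by norm_num)]
  norm_num

/-- the scalar Hoelder inequality -/
theorem hos_scalar {q : ℝ≥0∞} (hq : 3 ≤ q) {μ : Measure E3} {v w a : E3 → E3}
    (hv : AEStronglyMeasurable v μ) (hw : AEStronglyMeasurable w μ)
    (ha : AEStronglyMeasurable a μ) :
    ∫⁻ x, ‖v x‖ₑ * (‖w x‖ₑ * ‖a x‖ₑ) ∂μ ≤ eLpNorm a 2 μ *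
      (eLpNorm v q μ * eLpNorm w 2 μ ^ (2 * th q) * eLpNorm w 6 μ ^ (1 - 2 * th q)) := by
  by_cases hqt : q = ⊤
  · subst hqt
    have hth : th ⊤ = 1 / 2 := by simp [th]
    rw [hth]
    norm_num
    have h1 : ∫⁻ x, ‖v x‖ₑ * (‖w x‖ₑ * ‖a x‖ₑ) ∂μ ≤
        ∫⁻ x, eLpNormEssSup v μ * (‖w x‖ₑ * ‖a x‖ₑ) ∂μ := by
      refine lintegral_mono_ae ?_
      filter_upwards [ae_le_eLpNormEssSup (f := v) (μ := μ)] with x hx
      gcongr
    refine h1.trans ?_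
    rw [lintegral_const_mul'' (f := fun x => ‖w x‖ₑ * ‖a x‖ₑ) _ (hw.enorm.mul ha.enorm)]
    have h2 : ∫⁻ x, ‖w x‖ₑ * ‖a x‖ₑ ∂μ ≤ eLpNorm w 2 μ * eLpNorm a 2 μ := by
      rw [hos_two, hos_two]
      have := ENNReal.lintegral_mul_le_Lp_mul_Lq μ (p := 2) (q := 2)
        (Real.HolderConjugate.two_two) hw.enorm ha.enorm
      simpa using this
    calc eLpNormEssSup v μ * ∫⁻ x, ‖w x‖ₑ * ‖a x‖ₑ ∂μ
        ≤ eLpNormEssSup v μ * (eLpNorm w 2 μ * eLpNorm a 2 μ) := by gcongr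
      _ = eLpNorm a 2 μ * (eLpNormEssSup v μ * eLpNorm w 2 μ) := by ring
  · have hQ : 3 ≤ q.toReal := by
      have := (ENNReal.toReal_le_toReal (by simp) hqt).mpr hq
      simpa using this
    have hq0 : q ≠ 0 := by
      rintro rfl
      simp at hQ
      linarith
    obtain ⟨hθ0, hθ1⟩ := th_bounds hq
    set Q := q.toReal with hQdef
    set θ := th q with hθ
    have hQ0 : 0 < Q := by linarith
    have hsum : 1 / Q + 1 / 2 + θ + (1 - 2 * θ) / 6 = 1 := by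
      have : θ = 1 / 2 - 3 / (2 * Q) := rfl
      rw [this]
      field_simp
      ring
    have key := ENNReal.lintegral_prod_norm_pow_le (μ := μ) (Finset.univ : Finset (Fin 4))
      (f := ![fun x => ‖v x‖ₑ ^ Q, fun x => ‖a x‖ₑ ^ (2 : ℝ), fun x => ‖w x‖ₑ ^ (2 : ℝ),
        fun x => ‖w x‖ₑ ^ (6 : ℝ)])
      (by
        intro i _
        fin_cases i
        · exact hv.enorm.pow_const _
        · exact ha.enorm.pow_const _
        · exact hw.enorm.pow_const _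
        · exact hw.enorm.pow_const _)
      (p := ![1 / Q, 1 / 2, θ, (1 - 2 * θ) / 6])
      (by
        rw [Fin.sum_univ_four]
        exact hsum)
      (by
        intro i _
        fin_cases i
        · show 0 ≤ 1 / Q
          positivity
        · show (0 : ℝ) ≤ 1 / 2
          norm_num
        · exact hθ0
        · show 0 ≤ (1 - 2 * θ) / 6
          linarith)
    simp only [Fin.prod_univ_four] at key
    have hl : ∀ x, ‖v x‖ₑ * (‖w x‖ₑ * ‖a x‖ₑ) =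
        (‖v x‖ₑ ^ Q) ^ (1 / Q) * (‖a x‖ₑ ^ (2 : ℝ)) ^ (1 / 2 : ℝ) *
          (‖w x‖ₑ ^ (2 : ℝ)) ^ θ * (‖w x‖ₑ ^ (6 : ℝ)) ^ ((1 - 2 * θ) / 6) := by
      intro x
      rw [← ENNReal.rpow_mul, ← ENNReal.rpow_mul, ← ENNReal.rpow_mul, ← ENNReal.rpow_mul,
        mul_one_div_cancel hQ0.ne', ENNReal.rpow_one]
      have e1 : (2 : ℝ) * (1 / 2) = 1 := by norm_num
      have e2 : (6 : ℝ) * ((1 - 2 * θ) / 6) = 1 - 2 * θ := by ring
      rw [e1, e2, ENNReal.rpow_one, mul_assoc (‖v x‖ₑ * ‖a x‖ₑ),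
        ← ENNReal.rpow_add_of_nonneg _ _ (by linarith) (by linarith)]
      have e3 : 2 * θ + (1 - 2 * θ) = 1 := by ring
      rw [e3, ENNReal.rpow_one]
      ring
    calc ∫⁻ x, ‖v x‖ₑ * (‖w x‖ₑ * ‖a x‖ₑ) ∂μ = _ := lintegral_congr hl
      _ ≤ _ := key
      _ = _ := by
        rw [eLpNorm_eq_lintegral_rpow_enorm_toReal (p := q) hq0 hqt, hos_two, hos_two, hos_six,
          ← ENNReal.rpow_mul, ← ENNReal.rpow_mul]
        have e1 : (1 / 2 : ℝ) * (2 * θ) = θ := by ring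
        have e2 : (1 / 6 : ℝ) * (1 - 2 * θ) = (1 - 2 * θ) / 6 := by ring
        rw [e1, e2]
        simp only [Matrix.cons_val_zero, Matrix.cons_val_one, Matrix.cons_val]
        ring

theorem Bf_le_q {q : ℝ≥0∞} (hq : 3 ≤ q) {v w : E3 → E3} {A : Fin 3 → E3 → E3}
    (hv : AEStronglyMeasurable v (volume.restrict Ω))
    (hw : AEStronglyMeasurable w (volume.restrict Ω))
    (hA : ∀ i, MemLp (A i) 2 (volume.restrict Ω)) :
    ‖Bf Ω v A w‖ₑ ≤ 3 * ENNReal.ofReal (Real.sqrt (gsq Ω A)) *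
      (eLpNorm v q (volume.restrict Ω) * eLpNorm w 2 (volume.restrict Ω) ^ (2 * th q) *
        eLpNorm w 6 (volume.restrict Ω) ^ (1 - 2 * th q)) := by
  unfold Bf
  refine (enorm_integral_le_lintegral_enorm _).trans ?_
  have h1 : ∀ x, ‖∑ i, (v x) i * inner ℝ (w x) (A i x)‖ₑ ≤
      ∑ i, ‖v x‖ₑ * (‖w x‖ₑ * ‖A i x‖ₑ) := by
    intro x
    refine (enorm_sum_le _ _).trans (Finset.sum_le_sum fun i _ => ?_)
    rw [enorm_mul]
    have h2 : ‖(v x) i‖ₑ ≤ ‖v x‖ₑ := by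
      rw [← ofReal_norm, ← ofReal_norm]
      exact ENNReal.ofReal_le_ofReal (PiLp.norm_apply_le (v x) i)
    have h3 : ‖(inner ℝ (w x) (A i x) : ℝ)‖ₑ ≤ ‖w x‖ₑ * ‖A i x‖ₑ := by
      rw [← ofReal_norm, ← ofReal_norm, ← ofReal_norm, ← ENNReal.ofReal_mul (norm_nonneg _)]
      exact ENNReal.ofReal_le_ofReal (norm_inner_le_norm _ _)
    gcongr
  refine (lintegral_mono h1).trans ?_
  rw [lintegral_finsetSum' (f := fun i x => ‖v x‖ₑ * (‖w x‖ₑ * ‖A i x‖ₑ)) _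
    fun i _ => hv.enorm.mul (hw.enorm.mul (hA i).1.enorm)]
  have h2 : ∀ i ∈ (Finset.univ : Finset (Fin 3)),
      ∫⁻ x, ‖v x‖ₑ * (‖w x‖ₑ * ‖A i x‖ₑ) ∂(volume.restrict Ω) ≤
      ENNReal.ofReal (Real.sqrt (gsq Ω A)) *
      (eLpNorm v q (volume.restrict Ω) * eLpNorm w 2 (volume.restrict Ω) ^ (2 * th q) *
        eLpNorm w 6 (volume.restrict Ω) ^ (1 - 2 * th q)) := by
    intro i _
    refine (hos_scalar hq hv hw (hA i).1).trans ?_
    have h3 : eLpNorm (A i) 2 (volume.restrict Ω) ≤ ENNReal.ofReal (Real.sqrt (gsq Ω A)) := by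
      rw [nm_eq (hA i)]
      exact ENNReal.ofReal_le_ofReal (nm_le_gsq hA i)
    gcongr
  refine (Finset.sum_le_sum h2).trans ?_
  rw [Finset.sum_const, Finset.card_univ, Fintype.card_fin, nsmul_eq_mul, Nat.cast_ofNat,
    ← mul_assoc 3]

end Pool.Agent.Helper7.NT
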