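import Pool.Agent.Helper52.NSE.Public
import Pool.Agent.Helper52.NSE.Left

/-!
Definitions: the strong energy inequality, times of Type I, and the bilinear and trilinear forms
used in the proof.
-/

open MeasureTheory Set Filter Topology
open scoped ENNReal

namespace Pool.Agent.Helper7.NT

open Pool.Agent.Helper52.NSE

/-- The energy inequality started at the time `s`. -/
def EnergyFrom (Ω : Set E3) (ν T : ℝ) (f u : ℝ → E3 → E3) (G : ℝ → Fin 3 → E3 → E3)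
    (s : ℝ) : Prop :=
  ∀ t ∈ Icc s T, kin Ω (u t) + (volume Ω).toReal * (∫ τ in s..t, diss Ω ν (G τ)) ≤
    kin Ω (u s) + ∫ τ in s..t, power Ω (f τ) (u τ)

/-- The strong energy inequality: the energy inequality holds from almost every time on. -/
def StrongEnergyInequality (Ω : Set E3) (ν T : ℝ) (f u : ℝ → E3 → E3)
    (G : ℝ → Fin 3 → E3 → E3) : Prop :=
  ForAETime T (EnergyFrom Ω ν T f u G)

/-- The exponent `r` with `2/r + 3/q = 2` (it is `1` for `q = ∞`, where `q.toReal = 0`). -/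
noncomputable def timeExp (q : ℝ≥0∞) : ℝ := (1 - 3 / (2 * q.toReal))⁻¹

/-- `liminf_{s → t-} (t - s)^(-1/2) ∫_s^t ‖∇u‖² < ∞`. -/
def DissipationTypeI (Ω : Set E3) (G : ℝ → Fin 3 → E3 → E3) (t : ℝ) : Prop :=
  ∃ M : ℝ, ∀ δ : ℝ, 0 < δ → ∃ s ∈ Ioo (t - δ) t, 0 ≤ s ∧
    ∫ τ in s..t, gradSq Ω (G τ) ≤ M * Real.sqrt (t - s)

/-- `limsup_{s → t-} (t - s)^(-1/2) ‖u‖_{L^r(s, t; L^q(Ω))} < ∞`, where `2/r + 3/q = 2`. -/
def NormTypeI (Ω : Set E3) (u : ℝ → E3 → E3) (q : ℝ≥0∞) (t : ℝ) : Prop :=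
  ∃ M δ : ℝ, 0 < δ ∧ ∀ s ∈ Ioo (t - δ) t, 0 ≤ s →
    ∫⁻ τ in Ioo s t, lpNorm Ω q (u τ) ^ timeExp q ≤
      ENNReal.ofReal (M * Real.sqrt (t - s)) ^ timeExp q

/-- The time `t` is of Type I (seen from the left). -/
def TypeI (Ω : Set E3) (u : ℝ → E3 → E3) (G : ℝ → Fin 3 → E3 → E3) (t : ℝ) : Prop :=
  DissipationTypeI Ω G t ∨ ∃ q : ℝ≥0∞, 3 ≤ q ∧ NormTypeI Ω u q t

/-- There is no loss of kinetic energy at the time `t` from the left. -/
def NoLoss (Ω : Set E3) (u : ℝ → E3 → E3) (t : ℝ) : Prop :=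
  ∀ η δ : ℝ, 0 < η → 0 < δ → ∃ s ∈ Ioo (t - δ) t, 0 ≤ s ∧ kin Ω (u s) ≤ kin Ω (u t) + η

/-- The trilinear form `∫ (v · ∇) a · w`, where `A` is the gradient of `a`. -/
noncomputable def Bf (Ω : Set E3) (v : E3 → E3) (A : Fin 3 → E3 → E3) (w : E3 → E3) : ℝ :=
  ∫ x in Ω, ∑ i, (v x) i * inner ℝ (w x) (A i x)

/-- `∫ ∇v : ∇a` -/
noncomputable def gp (Ω : Set E3) (G A : Fin 3 → E3 → E3) : ℝ :=
  ∫ x in Ω, ∑ i, inner ℝ (G i x) (A i x)

/-- the right-hand side of the weak formulation, tested with `a`, `A = ∇a` -/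
noncomputable def rhsE (Ω : Set E3) (ν : ℝ) (f u : E3 → E3) (G : Fin 3 → E3 → E3) (a : E3 → E3)
    (A : Fin 3 → E3 → E3) : ℝ :=
  -ν * gp Ω G A + Bf Ω u A u + ∫ x in Ω, inner ℝ (f x) (a x)

/-- the norm of `L⁶(Ω)` as a real number -/
noncomputable def n6 (Ω : Set E3) (w : E3 → E3) : ℝ := (eLpNorm w 6 (volume.restrict Ω)).toReal

/-- the interpolation exponent `1/2 - 3/(2q)` (`1/2` for `q = ∞`) -/
noncomputable def th (q : ℝ≥0∞) : ℝ := 1 / 2 - 3 / (2 * q.toReal)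

theorem timeExp_eq (q : ℝ≥0∞) : timeExp q = (1 / 2 + th q)⁻¹ := by
  unfold timeExp th
  congr 1
  ring

theorem th_bounds {q : ℝ≥0∞} (hq : 3 ≤ q) : 0 ≤ th q ∧ th q ≤ 1 / 2 := by
  unfold th
  by_cases h : q = ⊤
  · simp [h]
  · have h1 : 3 ≤ q.toReal := by
      have := (ENNReal.toReal_le_toReal (by simp) h).mpr hq
      simpa using this
    constructor
    · rw [sub_nonneg, div_le_div_iff₀ (by linarith) (by norm_num)]
      linarith
    · have : 0 ≤ 3 / (2 * q.toReal) := by positivity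
      linarith

end Pool.Agent.Helper7.NT
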