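import Pool.Agent.Helper7.NT.Tint

/-!
Module Ext: the weak formulation, tested with elements of `H¹_{0,σ}`.
-/

open MeasureTheory Set Filter Topology
open scoped ENNReal

namespace Pool.Agent.Helper7.NT

open Pool.Agent.Helper52.NSE

variable {Ω : Set E3} {ν T : ℝ} {u₀ : E3 → E3} {f u : ℝ → E3 → E3} {G : ℝ → Fin 3 → E3 → E3}

theorem Ext_small {A P : Fin 3 → E3 → E3}
    (hAd : ∀ i, MemLp (fun x => A i x - P i x) 2 (volume.restrict Ω)) {ε : ℝ} (hε : 0 < ε)
    (h2 : ∀ i, eLpNorm (fun x => A i x - P i x) 2 (volume.restrict Ω) < ENNReal.ofReal ε) :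
    Real.sqrt (gsq Ω (fun i x => A i x - P i x)) ≤ 3 * ε := by
  refine Real.sqrt_le_iff.2 ⟨by positivity, ?_⟩
  unfold gsq
  rw [integral_finsetSum _ fun i _ => sq_int (hAd i)]
  have h3 : ∀ i ∈ (Finset.univ : Finset (Fin 3)),
      ∫ x in Ω, ‖A i x - P i x‖ ^ 2 ≤ ε ^ 2 := by
    intro i _
    rw [← nm_sq]
    refine pow_le_pow_left₀ (nm_nonneg _ _) ?_ 2
    have h4 := h2 i
    rw [nm_eq (hAd i)] at h4
    exact ((ENNReal.ofReal_lt_ofReal_iff hε).1 h4).le
  refine (Finset.sum_le_sum h3).trans ?_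
  rw [Finset.sum_const, Finset.card_univ, Fintype.card_fin, nsmul_eq_mul]
  push_cast
  nlinarith [sq_nonneg ε]

theorem Ext_gp_sub {B A P : Fin 3 → E3 → E3} (hB : ∀ i, MemLp (B i) 2 (volume.restrict Ω))
    (hA : ∀ i, MemLp (A i) 2 (volume.restrict Ω)) (hP : ∀ i, MemLp (P i) 2 (volume.restrict Ω)) :
    gp Ω B (fun i x => A i x - P i x) = gp Ω B A - gp Ω B P := by
  unfold gp
  rw [← integral_sub (gp_int hB hA) (gp_int hB hP)]
  refine integral_congr_ae (Eventually.of_forall fun x => ?_)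
  simp only []
  rw [← Finset.sum_sub_distrib]
  refine Finset.sum_congr rfl fun i _ => ?_
  rw [inner_sub_right]

theorem Ext_pair_sub {b a p : E3 → E3} (hb : MemLp b 2 (volume.restrict Ω))
    (ha : MemLp a 2 (volume.restrict Ω)) (hp : MemLp p 2 (volume.restrict Ω)) :
    ∫ x in Ω, inner ℝ (b x) (a x - p x) =
      (∫ x in Ω, inner ℝ (b x) (a x)) - ∫ x in Ω, inner ℝ (b x) (p x) := by
  rw [← integral_sub (inner_int hb ha) (inner_int hb hp)]
  refine integral_congr_ae (Eventually.of_forall fun x => ?_)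
  simp only [inner_sub_right]

theorem Ext_rhs_int (hO : IsOpen Ω) (hb : Bornology.IsBounded Ω)
    (h : IsWeakSolution Ω ν T u₀ f u G) {a : E3 → E3} {A : Fin 3 → E3 → E3}
    (ha : MemLp a 2 (volume.restrict Ω)) (hA : ∀ i, MemLp (A i) 2 (volume.restrict Ω))
    {s t : ℝ} (hs : 0 ≤ s) (hst : s ≤ t) (ht : t ≤ T) :
    IntervalIntegrable (fun τ => rhsE Ω ν (f τ) (u τ) (G τ) a A) volume s t := by
  have igp := ii_of (gp_time h hA) hs hst ht
  have ipair := ii_of (pair_time h ha) hs hst ht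
  have iBf : IntervalIntegrable (fun τ => Bf Ω (u τ) A (u τ)) volume s t := by
    have h0 : MemLp (fun _ : E3 => (0 : E3)) 6 (volume.restrict Ω) := MemLp.zero
    have := ii_of (Bf_time hO hb h h0 hA) hs hst ht
    simpa using this
  unfold rhsE
  exact ((igp.const_mul (-ν)).add iBf).add ipair

theorem weak_ext (hO : IsOpen Ω) (hb : Bornology.IsBounded Ω)
    (h : IsWeakSolution Ω ν T u₀ f u G) {a : E3 → E3} {A : Fin 3 → E3 → E3}
    (ha : MemH1s Ω a A) {s t : ℝ} (hs : 0 ≤ s) (hst : s ≤ t) (ht : t ≤ T) :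
    (∫ x in Ω, inner ℝ (u t x) (a x)) - (∫ x in Ω, inner ℝ (u s x) (a x)) =
      ∫ τ in s..t, rhsE Ω ν (f τ) (u τ) (G τ) a A := by
  obtain ⟨CS, hCS, hsob⟩ := sobolev hO hb
  obtain ⟨CT, hCT, htri⟩ := tri_bound hb
  have hA := ha.grad_memLp
  have ha2 := ha.toL2.memLp
  have hut := (h.mem t ⟨hs.trans hst, ht⟩).memLp
  have hus := (h.mem s ⟨hs, hst.trans ht⟩).memLp
  have g1 := (ae_restrict_iff' measurableSet_Icc).1 h.grad_mem
  have g2 := (ae_restrict_iff' measurableSet_Icc).1 h.force_mem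
  -- the majorant
  set g : ℝ → ℝ := fun τ => 3 * |ν| * (1 + gsq Ω (G τ)) + 3 * (CT * CS ^ 2) * gsq Ω (G τ) +
    nm Ω (f τ) with hg
  have ig : IntervalIntegrable g volume s t := by
    have i1 := ii_of h.gsq_int hs hst ht
    have i2 := ii_of h.nmf_int hs hst ht
    exact (((intervalIntegrable_const.add i1).const_mul (3 * |ν|)).add
      (i1.const_mul (3 * (CT * CS ^ 2)))).add i2
  have hg0 : 0 ≤ ∫ τ in s..t, g τ := by
    refine intervalIntegral.integral_nonneg hst fun τ _ => ?_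
    have := gsq_nonneg Ω (G τ)
    have := nm_nonneg Ω (f τ)
    simp only [hg]
    positivity
  set K : ℝ := nm Ω (u t) + nm Ω (u s) + ∫ τ in s..t, g τ with hK
  have hK0 : 0 ≤ K := by
    have := nm_nonneg Ω (u t)
    have := nm_nonneg Ω (u s)
    rw [hK]
    linarith
  set D : ℝ := (∫ x in Ω, inner ℝ (u t x) (a x)) - (∫ x in Ω, inner ℝ (u s x) (a x)) -
      ∫ τ in s..t, rhsE Ω ν (f τ) (u τ) (G τ) a A with hD
  have hest : ∀ ε : ℝ, 0 < ε → |D| ≤ K * ε := by
    intro ε hε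
    obtain ⟨φ, hφ, h1, h2⟩ := ha.2.2 (ENNReal.ofReal ε) (ENNReal.ofReal_pos.2 hε)
    have hφ2 : MemLp φ 2 (volume.restrict Ω) := hφ.memLp _ 2
    have hφA : ∀ i, MemLp (pd φ i) 2 (volume.restrict Ω) := fun i => hφ.pd_memLp i _ 2
    have had : MemLp (fun x => a x - φ x) 2 (volume.restrict Ω) := ha2.sub hφ2
    have hAd : ∀ i, MemLp (fun x => A i x - pd φ i x) 2 (volume.restrict Ω) :=
      fun i => (hA i).sub (hφA i)
    have hsm := Ext_small hAd hε h2
    have hnm : nm Ω (fun x => a x - φ x) ≤ ε := by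
      rw [nm_eq had] at h1
      exact ((ENNReal.ofReal_lt_ofReal_iff hε).1 h1).le
    have heq := h.eqn φ hφ s t hs hst ht
    have heq' : ∫ τ in s..t, rhs Ω ν (f τ) (u τ) (G τ) φ =
        ∫ τ in s..t, rhsE Ω ν (f τ) (u τ) (G τ) φ (pd φ) := rfl
    rw [heq'] at heq
    have hDeq : D = (∫ x in Ω, inner ℝ (u t x) (a x - φ x)) -
        (∫ x in Ω, inner ℝ (u s x) (a x - φ x)) -
        ∫ τ in s..t, (rhsE Ω ν (f τ) (u τ) (G τ) a A - rhsE Ω ν (f τ) (u τ) (G τ) φ (pd φ)) := by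
      rw [intervalIntegral.integral_sub (Ext_rhs_int hO hb h ha2 hA hs hst ht)
        (Ext_rhs_int hO hb h hφ2 hφA hs hst ht), Ext_pair_sub hut ha2 hφ2,
        Ext_pair_sub hus ha2 hφ2, hD]
      linarith
    have b1 : |∫ x in Ω, inner ℝ (u t x) (a x - φ x)| ≤ nm Ω (u t) * ε :=
      (cs hut had).trans (mul_le_mul_of_nonneg_left hnm (nm_nonneg _ _))
    have b2 : |∫ x in Ω, inner ℝ (u s x) (a x - φ x)| ≤ nm Ω (u s) * ε :=
      (cs hus had).trans (mul_le_mul_of_nonneg_left hnm (nm_nonneg _ _))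
    have b3 : |∫ τ in s..t, (rhsE Ω ν (f τ) (u τ) (G τ) a A -
        rhsE Ω ν (f τ) (u τ) (G τ) φ (pd φ))| ≤ (∫ τ in s..t, g τ) * ε := by
      rw [← intervalIntegral.integral_mul_const, ← Real.norm_eq_abs]
      refine intervalIntegral.norm_integral_le_of_norm_le hst ?_ (ig.mul_const ε)
      filter_upwards [g1, g2] with τ h3 h4 hτ
      have hτ' : τ ∈ Icc 0 T := ⟨hs.trans hτ.1.le, hτ.2.trans ht⟩
      have hm := h3 hτ'
      have hf := (h4 hτ').memLp
      have hGτ := hm.grad_memLp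
      have hs6 := hsob _ _ hm
      have hu6 : MemLp (u τ) 6 (volume.restrict Ω) :=
        ⟨hm.1, lt_of_le_of_lt hs6 ENNReal.ofReal_lt_top⟩
      have hn6 : n6 Ω (u τ) ≤ CS * Real.sqrt (gsq Ω (G τ)) := by
        unfold n6
        exact ENNReal.toReal_le_of_le_ofReal (by positivity) hs6
      have hn60 : 0 ≤ n6 Ω (u τ) := ENNReal.toReal_nonneg
      have hgs := gsq_nonneg Ω (G τ)
      have e1 := Ext_gp_sub hGτ hA hφA
      have e2 := Bf_sub_mid hb hu6 hu6 hA hφA
      have e3 := Ext_pair_sub hf ha2 hφ2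
      have e4 : rhsE Ω ν (f τ) (u τ) (G τ) a A - rhsE Ω ν (f τ) (u τ) (G τ) φ (pd φ) =
          -ν * gp Ω (G τ) (fun i x => A i x - pd φ i x) +
            Bf Ω (u τ) (fun i x => A i x - pd φ i x) (u τ) +
            ∫ x in Ω, inner ℝ (f τ x) (a x - φ x) := by
        rw [e1, e2, e3]
        unfold rhsE
        ring
      rw [e4, Real.norm_eq_abs]
      have c1 : |(-ν) * gp Ω (G τ) (fun i x => A i x - pd φ i x)| ≤
          3 * |ν| * (1 + gsq Ω (G τ)) * ε := by
        rw [abs_mul, abs_neg]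
        have c2 := gp_le hGτ hAd
        have c3 : Real.sqrt (gsq Ω (G τ)) ≤ 1 + gsq Ω (G τ) := by
          have := Real.sq_sqrt hgs
          nlinarith [Real.sqrt_nonneg (gsq Ω (G τ)), sq_nonneg (Real.sqrt (gsq Ω (G τ)) - 1)]
        have c4 : |gp Ω (G τ) (fun i x => A i x - pd φ i x)| ≤ (1 + gsq Ω (G τ)) * (3 * ε) :=
          c2.trans (mul_le_mul c3 hsm (Real.sqrt_nonneg _) (by linarith))
        calc |ν| * |gp Ω (G τ) (fun i x => A i x - pd φ i x)| ≤
            |ν| * ((1 + gsq Ω (G τ)) * (3 * ε)) := mul_le_mul_of_nonneg_left c4 (abs_nonneg _)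
          _ = _ := by ring
      have c5 : |Bf Ω (u τ) (fun i x => A i x - pd φ i x) (u τ)| ≤
          3 * (CT * CS ^ 2) * gsq Ω (G τ) * ε := by
        have c6 := htri (u τ) (u τ) (fun i x => A i x - pd φ i x) hu6 hu6 hAd
        refine c6.trans ?_
        have c7 : n6 Ω (u τ) * n6 Ω (u τ) ≤ CS ^ 2 * gsq Ω (G τ) := by
          calc n6 Ω (u τ) * n6 Ω (u τ) ≤
              (CS * Real.sqrt (gsq Ω (G τ))) * (CS * Real.sqrt (gsq Ω (G τ))) :=
                mul_le_mul hn6 hn6 hn60 (by positivity)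
            _ = CS ^ 2 * (Real.sqrt (gsq Ω (G τ)) ^ 2) := by ring
            _ = _ := by rw [Real.sq_sqrt hgs]
        calc CT * n6 Ω (u τ) * n6 Ω (u τ) *
              Real.sqrt (gsq Ω fun i x => A i x - pd φ i x)
            = (CT * (n6 Ω (u τ) * n6 Ω (u τ))) *
              Real.sqrt (gsq Ω fun i x => A i x - pd φ i x) := by ring
          _ ≤ (CT * (CS ^ 2 * gsq Ω (G τ))) * (3 * ε) :=
              mul_le_mul (mul_le_mul_of_nonneg_left c7 hCT.le) hsm (Real.sqrt_nonneg _)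
                (by positivity)
          _ = _ := by ring
      have c8 : |∫ x in Ω, inner ℝ (f τ x) (a x - φ x)| ≤ nm Ω (f τ) * ε :=
        (cs hf had).trans (mul_le_mul_of_nonneg_left hnm (nm_nonneg _ _))
      refine (abs_add_le _ _).trans ((add_le_add ((abs_add_le _ _).trans (add_le_add c1 c5))
        c8).trans (le_of_eq ?_))
      simp only [hg]
      ring
    rw [hDeq]
    refine (abs_sub _ _).trans ?_
    have b4 := abs_sub (∫ x in Ω, inner ℝ (u t x) (a x - φ x))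
      (∫ x in Ω, inner ℝ (u s x) (a x - φ x))
    calc _ ≤ (nm Ω (u t) * ε + nm Ω (u s) * ε) + (∫ τ in s..t, g τ) * ε :=
          add_le_add (b4.trans (add_le_add b1 b2)) b3
      _ = K * ε := by rw [hK]; ring
  have h0 : |D| ≤ 0 := by
    refine le_of_forall_pos_le_add fun δ hδ => ?_
    have h1 := hest (δ / (K + 1)) (by positivity)
    have h2 : K * (δ / (K + 1)) ≤ δ := by
      have h3 : K * (δ / (K + 1)) = δ * (K / (K + 1)) := by ring
      rw [h3]
      have h4 : K / (K + 1) ≤ 1 := by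
        rw [div_le_one (by positivity)]
        linarith
      calc δ * (K / (K + 1)) ≤ δ * 1 := mul_le_mul_of_nonneg_left h4 hδ.le
        _ = δ := mul_one δ
    linarith
  have h1 : D = 0 := abs_eq_zero.1 (le_antisymm h0 (abs_nonneg _))
  rw [hD] at h1
  linarith

end Pool.Agent.Helper7.NT
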