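import Pool.Agent.Helper7.NT.HoS
import Pool.Agent.Helper7.NT.Sob
import Pool.Agent.Helper7.NT.Vsp

/-!
Module HoT: the estimate of the flux, integrated in time.
-/

open MeasureTheory Set Filter Topology
open scoped ENNReal

namespace Pool.Agent.Helper7.NT

open Pool.Agent.Helper52.NSE

variable {Ω : Set E3} {ν T : ℝ} {u₀ : E3 → E3} {f u : ℝ → E3 → E3} {G : ℝ → Fin 3 → E3 → E3}

/-- measurability in time of the norm in space -/
theorem hoT_meas (h : IsWeakSolution Ω ν T u₀ f u G) {q : ℝ≥0∞} (hq0 : q ≠ 0) (hqt : q ≠ ⊤) :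
    AEMeasurable (fun σ => eLpNorm (u σ) q (volume.restrict Ω)) (volume.restrict (Icc 0 T)) := by
  have h1 : AEMeasurable (fun p : ℝ × E3 => ‖u p.1 p.2‖ₑ ^ q.toReal)
      ((volume.restrict (Icc 0 T)).prod (volume.restrict Ω)) := h.meas.enorm.pow_const _
  have h2 := h1.lintegral_prod_right'
  have h3 := h2.pow_const (1 / q.toReal)
  refine h3.congr (Eventually.of_forall fun σ => ?_)
  show _ = eLpNorm (u σ) q (volume.restrict Ω)
  rw [eLpNorm_eq_lintegral_rpow_enorm_toReal hq0 hqt]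

/-- Hoelder's inequality in time -/
theorem hoT_holder {μ : Measure ℝ} {q : ℝ≥0∞} (hq : 3 ≤ q) {U H : ℝ → ℝ≥0∞}
    (hU : q ≠ ⊤ → AEMeasurable U μ) (hH : AEMeasurable H μ) :
    ∫⁻ σ, U σ * H σ ^ (1 - 2 * th q) ∂μ ≤
      (∫⁻ σ, U σ ^ timeExp q ∂μ) ^ (1 / timeExp q) * (∫⁻ σ, H σ ^ (2 : ℝ) ∂μ) ^ (1 / 2 - th q) := by
  by_cases hqt : q = ⊤
  · have h1 : th q = 1 / 2 := by unfold th; simp [hqt]
    have h2 : timeExp q = 1 := by rw [timeExp_eq, h1]; norm_num
    rw [h1, h2]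
    norm_num
  · have hb := th_bounds hq
    have hlt : th q < 1 / 2 := by
      have h3 : (3 : ℝ) ≤ q.toReal := by
        have := (ENNReal.toReal_le_toReal (by simp) hqt).mpr hq
        simpa using this
      have : 0 < 3 / (2 * q.toReal) := by positivity
      unfold th
      linarith
    have hr : 1 / timeExp q = 1 / 2 + th q := by rw [timeExp_eq, one_div, inv_inv]
    have hc : (timeExp q).HolderConjugate (1 / (1 / 2 - th q)) := by
      rw [Real.holderConjugate_iff]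
      constructor
      · rw [timeExp_eq]
        rw [one_lt_inv₀ (by linarith)]
        linarith
      · rw [timeExp_eq]
        simp only [one_div, inv_inv]
        ring
    have h1 := ENNReal.lintegral_mul_le_Lp_mul_Lq μ hc (hU hqt) (hH.pow_const (1 - 2 * th q))
    have h2 : ∀ σ, (H σ ^ (1 - 2 * th q)) ^ (1 / (1 / 2 - th q)) = H σ ^ (2 : ℝ) := by
      intro σ
      rw [← ENNReal.rpow_mul]
      congr 1
      have hd : (1 / 2 - th q) ≠ 0 := by linarith
      rw [mul_one_div, div_eq_iff hd]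
      ring
    simp only [Pi.mul_apply, h2] at h1
    have h3 : 1 / (1 / (1 / 2 - th q)) = 1 / 2 - th q := by rw [one_div_one_div]
    rwa [h3] at h1

theorem flux_le (hO : IsOpen Ω) (hb : Bornology.IsBounded Ω)
    (h : IsWeakSolution Ω ν T u₀ f u G) {q : ℝ≥0∞} (hq : 3 ≤ q) :
    ∃ C : ℝ, 0 < C ∧ ∀ s t : ℝ, 0 ≤ s → s < t → t ≤ T →
      ∀ (a : E3 → E3) (A : Fin 3 → E3 → E3), MemH1s Ω a A → ∀ W E N : ℝ, 0 ≤ W → 0 ≤ E →
      0 ≤ N → (∀ τ ∈ Ioc s t, nm Ω (fun x => u τ x - a x) ^ 2 ≤ W) →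
      (∫ τ in s..t, gsq Ω (G τ)) + (t - s) * gsq Ω A ≤ E →
      ∫⁻ τ in Ioo s t, eLpNorm (u τ) q (volume.restrict Ω) ^ timeExp q ≤
        ENNReal.ofReal (N * Real.sqrt (t - s)) ^ timeExp q →
      ∀ τ ∈ Icc s t, |∫ σ in s..τ, Bf Ω (u σ) A (fun x => u σ x - a x)| ≤
        C * N * E ^ (1 - th q) * W ^ th q := by
  obtain ⟨CS, hCS0, hCS⟩ := sobolev hO hb
  obtain ⟨hth0, hth1⟩ := th_bounds hq
  have hr0 : 0 < timeExp q := by rw [timeExp_eq]; exact inv_pos.2 (by linarith)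
  refine ⟨3 * (2 * CS ^ 2) ^ (1 / 2 - th q), by positivity, ?_⟩
  intro s t hs hst ht a A ha W E N hW hE hN hw hgE hU τ hτ
  have hAm : ∀ i, MemLp (A i) 2 (volume.restrict Ω) := ha.grad_memLp
  have hts : 0 < t - s := by linarith
  set H : ℝ → ℝ≥0∞ := fun σ =>
    ENNReal.ofReal (CS * Real.sqrt (2 * gsq Ω (G σ) + 2 * gsq Ω A)) with hHdef
  set K : ℝ≥0∞ := 3 * ENNReal.ofReal (Real.sqrt (gsq Ω A)) *
    ENNReal.ofReal (Real.sqrt W) ^ (2 * th q) with hK
  have hsub : Ioc s t ⊆ Icc 0 T := fun x hx => ⟨hs.trans hx.1.le, hx.2.trans ht⟩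
  -- pointwise bound
  have hpt : ∀ᵐ σ ∂(volume.restrict (Ioc s t)),
      ‖Bf Ω (u σ) A (fun x => u σ x - a x)‖ₑ ≤
        K * (eLpNorm (u σ) q (volume.restrict Ω) * H σ ^ (1 - 2 * th q)) := by
    have hae := ae_restrict_of_ae_restrict_of_subset hsub h.grad_mem
    filter_upwards [hae, ae_restrict_mem measurableSet_Ioc] with σ h1 h2
    have h3 := memH1s_sub h1 ha
    have h4 : MemLp (fun x => u σ x - a x) 2 (volume.restrict Ω) := h3.toL2.memLp
    have h5 := Bf_le_q hq (v := u σ) (w := fun x => u σ x - a x) (A := A) h1.1 h3.1 hAm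
    refine h5.trans ?_
    have h6 : eLpNorm (fun x => u σ x - a x) 2 (volume.restrict Ω) ≤
        ENNReal.ofReal (Real.sqrt W) := by
      rw [nm_eq h4]
      apply ENNReal.ofReal_le_ofReal
      exact Real.le_sqrt_of_sq_le (hw σ h2)
    have h7 : eLpNorm (fun x => u σ x - a x) 6 (volume.restrict Ω) ≤ H σ := by
      refine (hCS _ _ h3).trans (ENNReal.ofReal_le_ofReal ?_)
      refine mul_le_mul_of_nonneg_left (Real.sqrt_le_sqrt ?_) hCS0.le
      exact gsq_sub_le h1.grad_memLp hAm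
    have h8 : eLpNorm (fun x => u σ x - a x) 2 (volume.restrict Ω) ^ (2 * th q) ≤
        ENNReal.ofReal (Real.sqrt W) ^ (2 * th q) := ENNReal.rpow_le_rpow h6 (by linarith)
    have h9 : eLpNorm (fun x => u σ x - a x) 6 (volume.restrict Ω) ^ (1 - 2 * th q) ≤
        H σ ^ (1 - 2 * th q) := ENNReal.rpow_le_rpow h7 (by linarith)
    calc 3 * ENNReal.ofReal (Real.sqrt (gsq Ω A)) *
          (eLpNorm (u σ) q (volume.restrict Ω) *
            eLpNorm (fun x => u σ x - a x) 2 (volume.restrict Ω) ^ (2 * th q) *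
            eLpNorm (fun x => u σ x - a x) 6 (volume.restrict Ω) ^ (1 - 2 * th q))
        ≤ 3 * ENNReal.ofReal (Real.sqrt (gsq Ω A)) *
          (eLpNorm (u σ) q (volume.restrict Ω) *
            ENNReal.ofReal (Real.sqrt W) ^ (2 * th q) * H σ ^ (1 - 2 * th q)) := by gcongr
      _ = K * (eLpNorm (u σ) q (volume.restrict Ω) * H σ ^ (1 - 2 * th q)) := by
          rw [hK]; ring
  have hGint : IntegrableOn (fun σ => gsq Ω (G σ)) (Ioc s t) := h.gsq_int.mono_set hsub
  have hHm : AEMeasurable H (volume.restrict (Ioo s t)) := by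
    have h1 : AEMeasurable (fun σ => gsq Ω (G σ)) (volume.restrict (Ioc s t)) :=
      hGint.1.aemeasurable
    have h2 : AEMeasurable (fun σ => gsq Ω (G σ)) (volume.restrict (Ioo s t)) :=
      h1.mono_set Ioo_subset_Ioc_self
    have h3 : AEMeasurable (fun σ => CS * Real.sqrt (2 * gsq Ω (G σ) + 2 * gsq Ω A))
        (volume.restrict (Ioo s t)) :=
      (((h2.const_mul 2).add_const _).sqrt).const_mul CS
    exact h3.ennreal_ofReal
  have hUm : q ≠ ⊤ → AEMeasurable (fun σ => eLpNorm (u σ) q (volume.restrict Ω))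
      (volume.restrict (Ioo s t)) := by
    intro hqt
    have hq0 : q ≠ 0 := by
      intro h0; rw [h0] at hq; simp at hq
    exact (hoT_meas h hq0 hqt).mono_set (Ioo_subset_Ioc_self.trans hsub)
  have hH2 : ∫⁻ σ in Ioo s t, H σ ^ (2 : ℝ) ≤ ENNReal.ofReal (2 * CS ^ 2 * E) := by
    have h1 : ∀ σ, H σ ^ (2 : ℝ) = ENNReal.ofReal (CS ^ 2 * (2 * gsq Ω (G σ) + 2 * gsq Ω A)) := by
      intro σ
      have h0 : 0 ≤ 2 * gsq Ω (G σ) + 2 * gsq Ω A := by
        have := gsq_nonneg Ω (G σ)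
        have := gsq_nonneg Ω A
        linarith
      rw [hHdef]
      show ENNReal.ofReal (CS * Real.sqrt (2 * gsq Ω (G σ) + 2 * gsq Ω A)) ^ (2 : ℝ) = _
      rw [ENNReal.rpow_two, ← ENNReal.ofReal_pow (by positivity), mul_pow, Real.sq_sqrt h0]
    simp_rw [h1]
    have hint : IntegrableOn (fun σ => CS ^ 2 * (2 * gsq Ω (G σ) + 2 * gsq Ω A)) (Ioo s t) := by
      have h2 : IntegrableOn (fun _ : ℝ => 2 * gsq Ω A) (Ioo s t) := by
        rw [integrableOn_const_iff]
        right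
        rw [Real.volume_Ioo]
        exact ENNReal.ofReal_lt_top
      exact (((hGint.mono_set Ioo_subset_Ioc_self).const_mul 2).add h2).const_mul _
    rw [← ofReal_integral_eq_lintegral_ofReal hint (Eventually.of_forall fun σ => by
      have := gsq_nonneg Ω (G σ)
      have := gsq_nonneg Ω A
      positivity)]
    apply ENNReal.ofReal_le_ofReal
    rw [← integral_Ioc_eq_integral_Ioo, ← intervalIntegral.integral_of_le hst.le]
    have i1 : IntervalIntegrable (fun σ => gsq Ω (G σ)) volume s t := ii_of h.gsq_int hs hst.le ht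
    rw [intervalIntegral.integral_const_mul,
      intervalIntegral.integral_add (i1.const_mul 2) (by simp),
      intervalIntegral.integral_const_mul, intervalIntegral.integral_const]
    simp only [smul_eq_mul]
    have h3 : 0 ≤ CS ^ 2 := by positivity
    nlinarith
  -- the estimate in `ℝ≥0∞`
  have hmain : ‖∫ σ in s..τ, Bf Ω (u σ) A (fun x => u σ x - a x)‖ₑ ≤
      K * (ENNReal.ofReal (N * Real.sqrt (t - s)) *
        ENNReal.ofReal (2 * CS ^ 2 * E) ^ (1 / 2 - th q)) := by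
    rw [intervalIntegral.integral_of_le hτ.1]
    refine (enorm_integral_le_lintegral_enorm _).trans ?_
    refine (lintegral_mono_set (Ioc_subset_Ioc_right hτ.2)).trans ?_
    refine (lintegral_mono_ae hpt).trans ?_
    have hKt : K ≠ ⊤ := by
      rw [hK]
      refine ENNReal.mul_ne_top (ENNReal.mul_ne_top (by norm_num) ENNReal.ofReal_ne_top) ?_
      exact ENNReal.rpow_ne_top_of_nonneg (by linarith) ENNReal.ofReal_ne_top
    rw [lintegral_const_mul' _ _ hKt]
    have e1 : ∫⁻ σ in Ioc s t, eLpNorm (u σ) q (volume.restrict Ω) * H σ ^ (1 - 2 * th q) =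
        ∫⁻ σ in Ioo s t, eLpNorm (u σ) q (volume.restrict Ω) * H σ ^ (1 - 2 * th q) :=
      setLIntegral_congr Ioo_ae_eq_Ioc.symm
    rw [e1]
    refine mul_le_mul_right ?_ K
    refine (hoT_holder hq hUm hHm).trans ?_
    refine mul_le_mul' ?_ ?_
    · have h1 := ENNReal.rpow_le_rpow hU (z := 1 / timeExp q) (by positivity)
      refine h1.trans ?_
      rw [← ENNReal.rpow_mul, mul_one_div_cancel hr0.ne', ENNReal.rpow_one]
    · exact ENNReal.rpow_le_rpow hH2 (by linarith)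
  -- back to the reals
  have hreal : K * (ENNReal.ofReal (N * Real.sqrt (t - s)) *
        ENNReal.ofReal (2 * CS ^ 2 * E) ^ (1 / 2 - th q)) =
      ENNReal.ofReal (3 * Real.sqrt (gsq Ω A) * (Real.sqrt W) ^ (2 * th q) *
        (N * Real.sqrt (t - s) * (2 * CS ^ 2 * E) ^ (1 / 2 - th q))) := by
    have e3 : (3 : ℝ≥0∞) = ENNReal.ofReal 3 := by simp
    rw [hK, e3, ENNReal.ofReal_rpow_of_nonneg (Real.sqrt_nonneg _) (by linarith),
      ENNReal.ofReal_rpow_of_nonneg (by positivity) (by linarith),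
      ← ENNReal.ofReal_mul (by positivity), ← ENNReal.ofReal_mul (by positivity),
      ← ENNReal.ofReal_mul (by positivity), ← ENNReal.ofReal_mul (by positivity)]
  rw [hreal, Real.enorm_eq_ofReal_abs, ENNReal.ofReal_le_ofReal_iff (by positivity)] at hmain
  refine hmain.trans ?_
  have hWr : (Real.sqrt W) ^ (2 * th q) = W ^ th q := by
    rw [Real.rpow_mul (Real.sqrt_nonneg _), Real.rpow_two, Real.sq_sqrt hW]
  have hgA : Real.sqrt (gsq Ω A) * Real.sqrt (t - s) ≤ E ^ (1 / 2 : ℝ) := by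
    rw [← Real.sqrt_mul (gsq_nonneg Ω A), ← Real.sqrt_eq_rpow]
    apply Real.sqrt_le_sqrt
    have h1 : 0 ≤ ∫ τ in s..t, gsq Ω (G τ) :=
      intervalIntegral.integral_nonneg hst.le fun x _ => gsq_nonneg _ _
    linarith
  have hEr : E ^ (1 - th q) = E ^ (1 / 2 : ℝ) * E ^ (1 / 2 - th q) := by
    rw [← Real.rpow_add_of_nonneg hE (by norm_num) (by linarith)]
    congr 1; ring
  have hCE : (2 * CS ^ 2 * E) ^ (1 / 2 - th q) =
      (2 * CS ^ 2) ^ (1 / 2 - th q) * E ^ (1 / 2 - th q) :=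
    Real.mul_rpow (by positivity) hE
  rw [hWr, hCE, hEr]
  have hP : 0 ≤ 3 * (2 * CS ^ 2) ^ (1 / 2 - th q) * N * E ^ (1 / 2 - th q) * W ^ th q := by
    positivity
  calc 3 * Real.sqrt (gsq Ω A) * W ^ th q *
        (N * Real.sqrt (t - s) * ((2 * CS ^ 2) ^ (1 / 2 - th q) * E ^ (1 / 2 - th q)))
      = (Real.sqrt (gsq Ω A) * Real.sqrt (t - s)) *
        (3 * (2 * CS ^ 2) ^ (1 / 2 - th q) * N * E ^ (1 / 2 - th q) * W ^ th q) := by ring
    _ ≤ E ^ (1 / 2 : ℝ) *
        (3 * (2 * CS ^ 2) ^ (1 / 2 - th q) * N * E ^ (1 / 2 - th q) * W ^ th q) :=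
        mul_le_mul_of_nonneg_right hgA hP
    _ = _ := by ring

end Pool.Agent.Helper7.NT
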