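import Pool.Agent.Helper7.NT.HoT
import Pool.Agent.Helper7.NT.Idn

/-!
Module Key: the scale invariant bound for the growth of the energy defect.
-/

open MeasureTheory Set Filter Topology
open scoped ENNReal

namespace Pool.Agent.Helper7.NT

open Pool.Agent.Helper52.NSE

variable {Ω : Set E3} {ν T : ℝ} {u₀ : E3 → E3} {f u : ℝ → E3 → E3} {G : ℝ → Fin 3 → E3 → E3}

theorem Key_interp {E W θ B : ℝ} (hE : 0 ≤ E) (hW : 0 ≤ W) (hθ : 0 ≤ θ) (hθ' : θ ≤ 1 / 2)
    (hB : 0 ≤ B) : B * E ^ (1 - θ) * W ^ θ ≤ (B + B ^ 2) * E + W / 4 := by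
  rcases le_or_gt W E with h | h
  · have h1 : W ^ θ ≤ E ^ θ := Real.rpow_le_rpow hW h hθ
    have h2 : E ^ (1 - θ) * E ^ θ = E := by
      rw [← Real.rpow_add_of_nonneg hE (by linarith) hθ, sub_add_cancel, Real.rpow_one]
    have h3 : E ^ (1 - θ) * W ^ θ ≤ E := by
      calc E ^ (1 - θ) * W ^ θ ≤ E ^ (1 - θ) * E ^ θ :=
            mul_le_mul_of_nonneg_left h1 (Real.rpow_nonneg hE _)
        _ = E := h2
    have h4 : B * (E ^ (1 - θ) * W ^ θ) ≤ B * E := mul_le_mul_of_nonneg_left h3 hB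
    have h5 : 0 ≤ B ^ 2 * E := by positivity
    calc B * E ^ (1 - θ) * W ^ θ = B * (E ^ (1 - θ) * W ^ θ) := by ring
      _ ≤ B * E := h4
      _ ≤ (B + B ^ 2) * E + W / 4 := by linarith
  · have h1 : E ^ (1 / 2 - θ) ≤ W ^ (1 / 2 - θ) := Real.rpow_le_rpow hE h.le (by linarith)
    have h2 : E ^ (1 - θ) = E ^ (1 / 2 : ℝ) * E ^ (1 / 2 - θ) := by
      rw [← Real.rpow_add_of_nonneg hE (by norm_num) (by linarith)]
      congr 1
      ring
    have h3 : W ^ (1 / 2 - θ) * W ^ θ = W ^ (1 / 2 : ℝ) := by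
      rw [← Real.rpow_add_of_nonneg hW (by linarith) hθ, sub_add_cancel]
    have h4 : E ^ (1 - θ) * W ^ θ ≤ Real.sqrt E * Real.sqrt W := by
      rw [h2, Real.sqrt_eq_rpow, Real.sqrt_eq_rpow, ← h3]
      calc E ^ (1 / 2 : ℝ) * E ^ (1 / 2 - θ) * W ^ θ ≤
            E ^ (1 / 2 : ℝ) * W ^ (1 / 2 - θ) * W ^ θ :=
            mul_le_mul_of_nonneg_right (mul_le_mul_of_nonneg_left h1 (Real.rpow_nonneg hE _))
              (Real.rpow_nonneg hW _)
        _ = _ := by ring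
    have h5 := mul_le_mul_of_nonneg_left h4 hB
    have h6 := Real.sq_sqrt hE
    have h7 := Real.sq_sqrt hW
    have h8 := sq_nonneg (B * Real.sqrt E - Real.sqrt W / 2)
    have h9 : (B * Real.sqrt E - Real.sqrt W / 2) ^ 2 =
        B ^ 2 * E + W / 4 - B * (Real.sqrt E * Real.sqrt W) := by
      calc (B * Real.sqrt E - Real.sqrt W / 2) ^ 2 =
          B ^ 2 * (Real.sqrt E ^ 2) + Real.sqrt W ^ 2 / 4 - B * (Real.sqrt E * Real.sqrt W) := by
            ring
        _ = _ := by rw [h6, h7]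
    have h10 : 0 ≤ B * E := mul_nonneg hB hE
    calc B * E ^ (1 - θ) * W ^ θ = B * (E ^ (1 - θ) * W ^ θ) := by ring
      _ ≤ B * (Real.sqrt E * Real.sqrt W) := h5
      _ ≤ (B + B ^ 2) * E + W / 4 := by
          rw [h9] at h8
          linarith

theorem Key_nm_sub {a b : E3 → E3} (ha : MemLp a 2 (volume.restrict Ω))
    (hb : MemLp b 2 (volume.restrict Ω)) :
    nm Ω (fun x => a x - b x) ^ 2 ≤ 2 * nm Ω a ^ 2 + 2 * nm Ω b ^ 2 := by
  rw [nm_sq, nm_sq, nm_sq, ← integral_const_mul, ← integral_const_mul,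
    ← integral_add ((sq_int ha).const_mul 2) ((sq_int hb).const_mul 2)]
  refine integral_mono (sq_int (ha.sub hb)) (((sq_int ha).const_mul 2).add
    ((sq_int hb).const_mul 2)) fun x => ?_
  have h1 := norm_sub_sq_real (a x) (b x)
  have h2 := norm_add_sq_real (a x) (b x)
  have h3 : 0 ≤ ‖a x + b x‖ ^ 2 := by positivity
  simp only [Pi.sub_apply, Pi.add_apply]
  linarith

theorem key (hO : IsOpen Ω) (hb : Bornology.IsBounded Ω) (hν : 0 < ν)
    (h : IsWeakSolution Ω ν T u₀ f u G) {q : ℝ≥0∞} (hq : 3 ≤ q) {N : ℝ} (hN : 0 ≤ N) :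
    ∃ C : ℝ, 0 < C ∧ ∀ s t : ℝ, 0 ≤ s → s < t → t ≤ T → MemH1s Ω (u s) (G s) →
      EnergyFrom Ω ν T f u G s →
      ∫⁻ τ in Ioo s t, eLpNorm (u τ) q (volume.restrict Ω) ^ timeExp q ≤
        ENNReal.ofReal (N * Real.sqrt (t - s)) ^ timeExp q →
      defect Ω ν f u G t ≤ defect Ω ν f u G s +
        C * ((∫ τ in s..t, ∫ x in Ω, ‖f τ x‖ ^ 2) + (∫ τ in s..t, gsq Ω (G τ)) +
          (t - s) * gsq Ω (G s)) := by
  obtain ⟨CP, hCP, hpoi⟩ := poincare hO hb
  obtain ⟨CS, hCS, hsob⟩ := sobolev hO hb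
  obtain ⟨CF, hCF, hflux⟩ := flux_le hO hb h hq
  obtain ⟨K, hK⟩ := h.bound
  obtain ⟨hθ0, hθ1⟩ := th_bounds hq
  set B : ℝ := CF * N with hB
  have hB0 : 0 ≤ B := mul_nonneg hCF.le hN
  set C1 : ℝ := 1 + 2 * CP ^ 2 + ν with hC1
  have hC10 : 0 < C1 := by positivity
  refine ⟨2 * (C1 + B + B ^ 2), by positivity, ?_⟩
  intro s t hs hst htT hmem hen hNt
  have hA := hmem.grad_memLp
  have ha2 := hmem.toL2.memLp
  have ha6 : MemLp (u s) 6 (volume.restrict Ω) :=
    ⟨hmem.1, lt_of_le_of_lt (hsob _ _ hmem) ENNReal.ofReal_lt_top⟩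
  set F : ℝ := ∫ τ in s..t, ∫ x in Ω, ‖f τ x‖ ^ 2 with hF
  set E : ℝ := (∫ τ in s..t, gsq Ω (G τ)) + (t - s) * gsq Ω (G s) with hE
  have hgs0 : 0 ≤ gsq Ω (G s) := gsq_nonneg Ω _
  have hF0 : 0 ≤ F :=
    intervalIntegral.integral_nonneg hst.le fun τ _ => integral_nonneg fun x => by positivity
  have hE0 : 0 ≤ E := by
    have h1 : 0 ≤ ∫ τ in s..t, gsq Ω (G τ) :=
      intervalIntegral.integral_nonneg hst.le fun τ _ => gsq_nonneg Ω _
    have h2 : 0 ≤ (t - s) * gsq Ω (G s) := mul_nonneg (by linarith) hgs0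
    linarith
  -- the supremum of the differences
  have hbdd : BddAbove ((fun τ => nm Ω (fun x => u τ x - u s x) ^ 2) '' Ioc s t) := by
    refine ⟨4 * K, ?_⟩
    rintro _ ⟨τ, hτ, rfl⟩
    have hτ' : τ ∈ Icc 0 T := ⟨hs.trans hτ.1.le, hτ.2.trans htT⟩
    have hs' : s ∈ Icc 0 T := ⟨hs, hst.le.trans htT⟩
    have h1 := Key_nm_sub (h.mem τ hτ').memLp ha2
    have h2 := hK τ hτ'
    have h3 := hK s hs'
    rw [← nm_sq] at h2 h3
    simp only []
    linarith
  set W : ℝ := sSup ((fun τ => nm Ω (fun x => u τ x - u s x) ^ 2) '' Ioc s t) with hW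
  have hWle : ∀ τ ∈ Ioc s t, nm Ω (fun x => u τ x - u s x) ^ 2 ≤ W := fun τ hτ =>
    le_csSup hbdd ⟨τ, hτ, rfl⟩
  have hW0 : 0 ≤ W := (sq_nonneg _).trans (hWle t ⟨hst, le_rfl⟩)
  -- integrability on subintervals
  have key1 : ∀ τ ∈ Ioc s t, defect Ω ν f u G τ - defect Ω ν f u G s +
      nm Ω (fun x => u τ x - u s x) ^ 2 / 2 ≤ C1 * (F + E) + B * E ^ (1 - th q) * W ^ th q := by
    intro τ hτ
    have hτT : τ ≤ T := hτ.2.trans htT
    have iA := ii_of h.power_int hs hτ.1.le hτT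
    have iP := ii_of (pair_time h ha2) hs hτ.1.le hτT
    have iG := ii_of h.gsq_int hs hτ.1.le hτT
    have igp := ii_of (gp_time h hA) hs hτ.1.le hτT
    have iB := ii_of (Bf_time hO hb h ha6 hA) hs hτ.1.le hτT
    have iF := ii_of h.force_int hs hτ.1.le hτT
    have g1 := (ae_restrict_iff' measurableSet_Icc).1 h.grad_mem
    have g2 := (ae_restrict_iff' measurableSet_Icc).1 h.force_mem
    have hpair : ∀ᵐ σ ∂volume, σ ∈ uIoc s τ →
        power Ω (f σ) (u σ) - ∫ x in Ω, inner ℝ (f σ x) (u s x) =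
        ∫ x in Ω, inner ℝ (f σ x) (u σ x - u s x) := by
      filter_upwards [g2] with σ h2 hσ
      rw [uIoc_of_le hτ.1.le] at hσ
      have hσ' : σ ∈ Icc 0 T := ⟨hs.trans hσ.1.le, hσ.2.trans hτT⟩
      have hf := (h2 hσ').memLp
      have hu2 := (h.mem σ hσ').memLp
      unfold power
      rw [← integral_sub (inner_int hf hu2) (inner_int hf ha2)]
      refine integral_congr_ae (Eventually.of_forall fun x => ?_)
      simp only [inner_sub_right]
    have iW : IntervalIntegrable (fun σ => ∫ x in Ω, inner ℝ (f σ x) (u σ x - u s x)) volume s τ := by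
      refine (iA.sub iP).congr_ae ?_
      exact (ae_restrict_iff' measurableSet_uIoc).2 hpair
    have i1 : IntervalIntegrable (fun σ => (∫ x in Ω, inner ℝ (f σ x) (u σ x - u s x)) -
        ν * gsq Ω (G σ) + ν * gp Ω (G σ) (G s)) volume s τ :=
      (iW.sub (iG.const_mul ν)).add (igp.const_mul ν)
    rw [identity hO hb h hs hτ.1.le hτT hmem, intervalIntegral.integral_sub i1 iB]
    have hb1 : ∫ σ in s..τ, ((∫ x in Ω, inner ℝ (f σ x) (u σ x - u s x)) -
        ν * gsq Ω (G σ) + ν * gp Ω (G σ) (G s)) ≤ C1 * (F + E) := by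
      have i2 : IntervalIntegrable (fun σ => C1 * ((∫ x in Ω, ‖f σ x‖ ^ 2) +
          (gsq Ω (G σ) + gsq Ω (G s)))) volume s τ :=
        (iF.add (iG.add intervalIntegrable_const)).const_mul C1
      have hmono : ∫ σ in s..τ, ((∫ x in Ω, inner ℝ (f σ x) (u σ x - u s x)) -
          ν * gsq Ω (G σ) + ν * gp Ω (G σ) (G s)) ≤
          ∫ σ in s..τ, C1 * ((∫ x in Ω, ‖f σ x‖ ^ 2) + (gsq Ω (G σ) + gsq Ω (G s))) := by
        rw [intervalIntegral.integral_of_le hτ.1.le, intervalIntegral.integral_of_le hτ.1.le]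
        refine setIntegral_mono_on_ae i1.1 i2.1 measurableSet_Ioc ?_
        filter_upwards [g1, g2] with σ h1 h2 hσ
        have hσ' : σ ∈ Icc 0 T := ⟨hs.trans hσ.1.le, hσ.2.trans hτT⟩
        have hm := h1 hσ'
        have hf := (h2 hσ').memLp
        have hu2 := (h.mem σ hσ').memLp
        have hGσ := hm.grad_memLp
        have hsub := memH1s_sub hm hmem
        have p1 := hpoi _ _ hsub
        have p2 := gsq_sub_le hGσ hA
        have p3 := gp_le hGσ hA
        have p4 := cs hf (hu2.sub ha2)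
        have hg0 : 0 ≤ gsq Ω (G σ) := gsq_nonneg Ω _
        have hd0 : 0 ≤ gsq Ω (fun i x => G σ i x - G s i x) := gsq_nonneg Ω _
        have q1 : nm Ω (fun x => u σ x - u s x) ^ 2 ≤
            CP ^ 2 * (2 * gsq Ω (G σ) + 2 * gsq Ω (G s)) := by
          calc nm Ω (fun x => u σ x - u s x) ^ 2 ≤
              (CP * Real.sqrt (gsq Ω (fun i x => G σ i x - G s i x))) ^ 2 :=
                pow_le_pow_left₀ (nm_nonneg _ _) p1 2
            _ = CP ^ 2 * gsq Ω (fun i x => G σ i x - G s i x) := by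
                rw [mul_pow, Real.sq_sqrt hd0]
            _ ≤ _ := mul_le_mul_of_nonneg_left p2 (by positivity)
        have q2 : (∫ x in Ω, inner ℝ (f σ x) (u σ x - u s x)) ≤
            nm Ω (f σ) ^ 2 / 2 + nm Ω (fun x => u σ x - u s x) ^ 2 / 2 := by
          have p5 : (∫ x in Ω, inner ℝ (f σ x) (u σ x - u s x)) ≤
              nm Ω (f σ) * nm Ω (fun x => u σ x - u s x) := (le_abs_self _).trans p4
          nlinarith [sq_nonneg (nm Ω (f σ) - nm Ω (fun x => u σ x - u s x))]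
        have q3 : gp Ω (G σ) (G s) ≤ (gsq Ω (G σ) + gsq Ω (G s)) / 2 := by
          have p6 := (le_abs_self _).trans p3
          have s1 := Real.sq_sqrt hg0
          have s2 := Real.sq_sqrt hgs0
          nlinarith [sq_nonneg (Real.sqrt (gsq Ω (G σ)) - Real.sqrt (gsq Ω (G s)))]
        rw [nm_sq Ω (f σ)] at q2
        have hff : 0 ≤ ∫ x in Ω, ‖f σ x‖ ^ 2 := integral_nonneg fun x => by positivity
        have q4 : ν * gp Ω (G σ) (G s) ≤ ν * ((gsq Ω (G σ) + gsq Ω (G s)) / 2) :=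
          mul_le_mul_of_nonneg_left q3 hν.le
        have n1 : 0 ≤ ν * gsq Ω (G σ) := by positivity
        have n2 : 0 ≤ ν * gsq Ω (G s) := by positivity
        have n3 : 0 ≤ CP ^ 2 * gsq Ω (G σ) := by positivity
        have n4 : 0 ≤ CP ^ 2 * gsq Ω (G s) := by positivity
        have n5 : 0 ≤ CP ^ 2 * ∫ x in Ω, ‖f σ x‖ ^ 2 := by positivity
        have n6 : 0 ≤ ν * ∫ x in Ω, ‖f σ x‖ ^ 2 := by positivity
        rw [hC1]
        nlinarith
      refine hmono.trans ?_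
      rw [intervalIntegral.integral_const_mul]
      refine mul_le_mul_of_nonneg_left ?_ hC10.le
      rw [intervalIntegral.integral_add iF (iG.add intervalIntegrable_const),
        intervalIntegral.integral_add iG intervalIntegrable_const, intervalIntegral.integral_const,
        smul_eq_mul]
      have m1 : ∫ σ in s..τ, ∫ x in Ω, ‖f σ x‖ ^ 2 ≤ F := by
        rw [hF]
        refine intervalIntegral.integral_mono_interval le_rfl hτ.1.le hτ.2
          (Eventually.of_forall fun σ => integral_nonneg fun x => by positivity)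
          (ii_of h.force_int hs hst.le htT)
      have m2 : ∫ σ in s..τ, gsq Ω (G σ) ≤ ∫ σ in s..t, gsq Ω (G σ) :=
        intervalIntegral.integral_mono_interval le_rfl hτ.1.le hτ.2
          (Eventually.of_forall fun σ => gsq_nonneg Ω _) (ii_of h.gsq_int hs hst.le htT)
      have m3 : (τ - s) * gsq Ω (G s) ≤ (t - s) * gsq Ω (G s) :=
        mul_le_mul_of_nonneg_right (by linarith [hτ.2]) hgs0
      rw [hE]
      linarith
    have hb2 := hflux s t hs hst htT (u s) (G s) hmem W E N hW0 hE0 hN hWle le_rfl hNt τ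
      ⟨hτ.1.le, hτ.2⟩
    have hb3 := (abs_le.1 hb2).1
    linarith
  have hint := Key_interp hE0 hW0 hθ0 hθ1 hB0
  -- the defect does not decrease
  have hdef : ∀ τ ∈ Ioc s t, 0 ≤ defect Ω ν f u G τ - defect Ω ν f u G s := by
    intro τ hτ
    rw [h.defect_sub hs hτ.1.le (hτ.2.trans htT)]
    have := hen τ ⟨hτ.1.le, hτ.2.trans htT⟩
    linarith
  have hWb : W ≤ 2 * (C1 * (F + E) + B * E ^ (1 - th q) * W ^ th q) := by
    refine csSup_le ⟨_, ⟨t, ⟨hst, le_rfl⟩, rfl⟩⟩ ?_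
    rintro _ ⟨τ, hτ, rfl⟩
    have h1 := key1 τ hτ
    have h2 := hdef τ hτ
    simp only []
    linarith
  have hfin := key1 t ⟨hst, le_rfl⟩
  have hsq : 0 ≤ nm Ω (fun x => u t x - u s x) ^ 2 / 2 := by positivity
  have hEF : F + E = F + (∫ τ in s..t, gsq Ω (G τ)) + (t - s) * gsq Ω (G s) := by
    rw [hE]; ring
  rw [← hEF]
  have n1 : 0 ≤ B * F := mul_nonneg hB0 hF0
  have n2 : 0 ≤ B ^ 2 * F := by positivity
  nlinarith

end Pool.Agent.Helper7.NT
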