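import Pool.Agent.Helper7.NT.Vsp

/-!
Module Leb: Lebesgue points of the gradient in time.
-/

open MeasureTheory Set Filter Topology
open scoped ENNReal

namespace Pool.Agent.Helper7.NT

open Pool.Agent.Helper52.NSE

variable {Ω : Set E3} {ν T : ℝ} {u₀ : E3 → E3} {f u : ℝ → E3 → E3} {G : ℝ → Fin 3 → E3 → E3}

/-- Lebesgue differentiation from the left. -/
theorem leb_deriv {g : ℝ → ℝ} (hg : IntegrableOn g (Icc 0 T)) :
    ∀ᵐ t ∂(volume.restrict (Icc 0 T)), ∀ ε : ℝ, 0 < ε → ∃ δ : ℝ, 0 < δ ∧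
      ∀ s ∈ Ioo (t - δ) t, 0 ≤ s → |(∫ τ in s..t, g τ) - g t * (t - s)| ≤ ε * (t - s) := by
  rcases lt_or_ge T 0 with hT | hT
  · have : Icc (0 : ℝ) T = ∅ := Icc_eq_empty (by linarith)
    rw [this]
    simp
  have hii : IntervalIntegrable g volume 0 T := ii_of hg le_rfl hT le_rfl
  rw [ae_restrict_iff' measurableSet_Icc]
  filter_upwards [hii.ae_hasDerivAt_integral] with t ht htT ε hε
  have hd := ht (by rw [uIcc_of_le hT]; exact htT) 0 (by simp)
  have h1 := hd.isLittleO.def hε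
  rw [Metric.eventually_nhds_iff] at h1
  obtain ⟨δ, hδ, h1⟩ := h1
  refine ⟨δ, hδ, fun s hs hs0 => ?_⟩
  have hst : s ≤ t := hs.2.le
  have h2 := h1 (y := s) (by
    rw [Real.dist_eq, abs_sub_comm, abs_of_nonneg (by linarith)]
    linarith [hs.1])
  have h3 : (∫ τ in (0)..s, g τ) + ∫ τ in s..t, g τ = ∫ τ in (0)..t, g τ :=
    intervalIntegral.integral_add_adjacent_intervals (ii_of hg le_rfl hs0 (hst.trans htT.2))
      (ii_of hg hs0 hst htT.2)
  rw [Real.norm_eq_abs, Real.norm_eq_abs, smul_eq_mul] at h2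
  have h4 : (∫ τ in (0)..s, g τ) - (∫ τ in (0)..t, g τ) - (s - t) * g t =
      -((∫ τ in s..t, g τ) - g t * (t - s)) := by
    rw [← h3]; ring
  rw [h4, abs_neg, abs_sub_comm s t, abs_of_nonneg (show 0 ≤ t - s by linarith)] at h2
  exact h2

theorem leb_scalar {g : ℝ → ℝ} (hg : IntegrableOn g (Icc 0 T)) :
    ∀ᵐ t ∂(volume.restrict (Icc 0 T)), ∃ K δ : ℝ, 0 < δ ∧ ∀ s ∈ Ioo (t - δ) t, 0 ≤ s →
      ∫ τ in s..t, g τ ≤ K * (t - s) := by
  filter_upwards [leb_deriv hg] with t ht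
  obtain ⟨δ, hδ, h1⟩ := ht 1 one_pos
  refine ⟨g t + 1, δ, hδ, fun s hs hs0 => ?_⟩
  have := (abs_le.mp (h1 s hs hs0)).2
  linarith

theorem leb_meas (h : IsWeakSolution Ω ν T u₀ f u G) {A : Fin 3 → E3 → E3}
    (hA : ∀ i, AEStronglyMeasurable (A i) (volume.restrict Ω)) :
    AEStronglyMeasurable (fun τ => gsq Ω (fun i x => G τ i x - A i x))
      (volume.restrict (Icc 0 T)) := by
  have h1 : AEStronglyMeasurable (fun q : ℝ × E3 => ∑ i, ‖G q.1 i q.2 - A i q.2‖ ^ 2)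
      ((volume.restrict (Icc 0 T)).prod (volume.restrict Ω)) := by
    have h2 : ∀ i, AEStronglyMeasurable (fun q : ℝ × E3 => ‖G q.1 i q.2 - A i q.2‖ ^ 2)
        ((volume.restrict (Icc 0 T)).prod (volume.restrict Ω)) := fun i =>
      (((h.grad_meas i).sub ((hA i).comp_snd)).norm).pow 2
    exact Finset.aestronglyMeasurable_fun_sum _ fun i _ => h2 i
  exact h1.integral_prod_right'

theorem leb_int (h : IsWeakSolution Ω ν T u₀ f u G) {A : Fin 3 → E3 → E3}
    (hA : ∀ i, MemLp (A i) 2 (volume.restrict Ω)) :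
    IntegrableOn (fun τ => gsq Ω (fun i x => G τ i x - A i x)) (Icc 0 T) := by
  have hb : IntegrableOn (fun τ => 2 * gsq Ω (G τ) + 2 * gsq Ω A) (Icc 0 T) :=
    (h.gsq_int.const_mul 2).add (integrable_const _)
  refine Integrable.mono' hb (leb_meas h fun i => (hA i).aestronglyMeasurable) ?_
  filter_upwards [h.grad_mem] with τ hτ
  rw [Real.norm_eq_abs, abs_of_nonneg (gsq_nonneg _ _)]
  exact gsq_sub_le hτ.grad_memLp hA

theorem leb_dense (Ω : Set E3) : ∃ c : ℕ → Fin 3 → E3 → E3,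
    (∀ n i, MemLp (c n i) 2 (volume.restrict Ω)) ∧
    ∀ A : Fin 3 → E3 → E3, (∀ i, MemLp (A i) 2 (volume.restrict Ω)) → ∀ η : ℝ, 0 < η →
      ∃ n : ℕ, gsq Ω (fun i x => A i x - c n i x) < η := by
  have : Fact ((2 : ℝ≥0∞) ≠ ∞) := ⟨by simp⟩
  have : SecondCountableTopology (Lp E3 2 (volume.restrict Ω)) := Lp.SecondCountableTopology
  refine ⟨fun n i => (TopologicalSpace.denseSeq (Lp E3 2 (volume.restrict Ω) ×
    Lp E3 2 (volume.restrict Ω) × Lp E3 2 (volume.restrict Ω)) n |> fun y =>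
      ![(y.1 : E3 → E3), (y.2.1 : E3 → E3), (y.2.2 : E3 → E3)] i), ?_, ?_⟩
  · intro n i
    fin_cases i <;> exact Lp.memLp _
  intro A hA η hη
  obtain ⟨ε, hε, hε3⟩ : ∃ ε : ℝ, 0 < ε ∧ 3 * ε ^ 2 < η := by
    refine ⟨Real.sqrt (η / 6), Real.sqrt_pos.mpr (by positivity), ?_⟩
    rw [Real.sq_sqrt (by positivity)]
    linarith
  obtain ⟨n, hn⟩ := (TopologicalSpace.denseRange_denseSeq (Lp E3 2 (volume.restrict Ω) ×
    Lp E3 2 (volume.restrict Ω) × Lp E3 2 (volume.restrict Ω))).exists_mem_open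
      (Metric.isOpen_ball (x := ((hA 0).toLp (A 0), (hA 1).toLp (A 1), (hA 2).toLp (A 2)))
        (ε := ε)) ⟨_, Metric.mem_ball_self hε⟩
  refine ⟨n, ?_⟩
  obtain ⟨y, hy⟩ : ∃ y, y = TopologicalSpace.denseSeq (Lp E3 2 (volume.restrict Ω) ×
    Lp E3 2 (volume.restrict Ω) × Lp E3 2 (volume.restrict Ω)) n := ⟨_, rfl⟩
  rw [← hy] at hn
  simp only [← hy]
  rw [Metric.mem_ball, Prod.dist_eq, Prod.dist_eq, max_lt_iff, max_lt_iff] at hn
  have key : ∀ (B : E3 → E3) (hB : MemLp B 2 (volume.restrict Ω))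
      (z : Lp E3 2 (volume.restrict Ω)), dist z (hB.toLp B) < ε →
      ∫ x in Ω, ‖B x - z x‖ ^ 2 ≤ ε ^ 2 := by
    intro B hB z hz
    have hm : MemLp (fun x => B x - z x) 2 (volume.restrict Ω) := hB.sub (Lp.memLp z)
    have e1 : nm Ω (fun x => B x - z x) = dist z (hB.toLp B) := by
      rw [dist_comm, dist_eq_norm, Lp.norm_def]
      have e0 : eLpNorm (hB.toLp B - z : Lp E3 2 (volume.restrict Ω)) 2 (volume.restrict Ω) =
          eLpNorm (fun x => B x - z x) 2 (volume.restrict Ω) := eLpNorm_congr_ae (by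
        filter_upwards [Lp.coeFn_sub (hB.toLp B) z, hB.coeFn_toLp] with x h1 h2
        rw [h1, Pi.sub_apply, h2])
      rw [e0, nm_eq hm, ENNReal.toReal_ofReal (nm_nonneg _ _)]
    rw [← nm_sq, e1]
    exact pow_le_pow_left₀ dist_nonneg hz.le 2
  have hmem : ∀ i, MemLp (fun x => A i x - ![(y.1 : E3 → E3), (y.2.1 : E3 → E3), (y.2.2 : E3 → E3)] i x) 2
      (volume.restrict Ω) := fun i => (hA i).sub (by fin_cases i <;> exact Lp.memLp _)
  have e : gsq Ω (fun i x => A i x - ![(y.1 : E3 → E3), (y.2.1 : E3 → E3), (y.2.2 : E3 → E3)] i x) =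
      ∑ i, ∫ x in Ω, ‖A i x - ![(y.1 : E3 → E3), (y.2.1 : E3 → E3), (y.2.2 : E3 → E3)] i x‖ ^ 2 := by
    unfold gsq
    exact integral_finsetSum _ fun i _ => sq_int (hmem i)
  rw [e, Fin.sum_univ_three]
  have k0 := key (A 0) (hA 0) y.1 hn.1
  have k1 := key (A 1) (hA 1) y.2.1 hn.2.1
  have k2 := key (A 2) (hA 2) y.2.2 hn.2.2
  simp only [Matrix.cons_val_zero, Matrix.cons_val_one, Matrix.cons_val]
  linarith

theorem leb_grad (h : IsWeakSolution Ω ν T u₀ f u G) :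
    ∀ᵐ t ∂(volume.restrict (Icc 0 T)), ∀ η : ℝ, 0 < η → ∃ δ : ℝ, 0 < δ ∧
      ∀ s ∈ Ioo (t - δ) t, 0 ≤ s →
        IntervalIntegrable (fun τ => gsq Ω (fun i x => G τ i x - G t i x)) volume s t ∧
        ∫ τ in s..t, gsq Ω (fun i x => G τ i x - G t i x) ≤ η * (t - s) := by
  obtain ⟨c, hc, hdense⟩ := leb_dense Ω
  have hall : ∀ᵐ t ∂(volume.restrict (Icc 0 T)), ∀ n : ℕ, ∀ ε : ℝ, 0 < ε → ∃ δ : ℝ, 0 < δ ∧
      ∀ s ∈ Ioo (t - δ) t, 0 ≤ s → |(∫ τ in s..t, gsq Ω (fun i x => G τ i x -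
        c n i x)) -
        gsq Ω (fun i x => G t i x -
        c n i x)
          * (t - s)| ≤ ε * (t - s) := by
    rw [ae_all_iff]
    intro n
    exact leb_deriv (leb_int h (hc n))
  filter_upwards [hall, h.grad_mem, ae_restrict_mem measurableSet_Icc] with t ht hGt htT η hη
  obtain ⟨n, hn⟩ := hdense _ hGt.grad_memLp (η / 16) (show 0 < η / 16 by positivity)
  obtain ⟨δ, hδ, h1⟩ := ht n (η / 16) (by positivity)
  refine ⟨δ, hδ, fun s hs hs0 => ?_⟩
  have hst : s ≤ t := hs.2.le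
  have i1 := ii_of (leb_int h hGt.grad_memLp) hs0 hst htT.2
  refine ⟨i1, ?_⟩
  have h2 := (abs_le.mp (h1 s hs hs0)).2
  have i2 := ii_of (leb_int h (hc n)) hs0 hst htT.2
  have h3 : ∫ τ in s..t, gsq Ω (fun i x => G τ i x - G t i x) ≤
      ∫ τ in s..t, (2 * gsq Ω (fun i x => G τ i x -
        c n i x) +
        2 * gsq Ω (fun i x => G t i x -
        c n i x)) := by
    refine intervalIntegral.integral_mono_ae_restrict hst i1
      ((i2.const_mul 2).add (intervalIntegrable_const)) ?_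
    have hsub : Icc s t ⊆ Icc 0 T := Icc_subset_Icc hs0 htT.2
    have := ae_restrict_of_ae_restrict_of_subset hsub h.grad_mem
    filter_upwards [this] with τ hτ
    have e := gsq_sub_le (Ω := Ω)
      (G := fun i x => G τ i x -
        c n i x)
      (A := fun i x => G t i x -
        c n i x)
      (fun i => (hτ.grad_memLp i).sub (hc n i)) (fun i => (hGt.grad_memLp i).sub (hc n i))
    simpa using e
  refine h3.trans ?_
  rw [intervalIntegral.integral_add (i2.const_mul 2) intervalIntegrable_const,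
    intervalIntegral.integral_const_mul, intervalIntegral.integral_const, smul_eq_mul]
  have h5 : 0 ≤ t - s := by linarith
  nlinarith [mul_le_mul_of_nonneg_right hn.le h5]

end Pool.Agent.Helper7.NT
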