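import Pool.Agent.Helper7.NT.Tri
import Pool.Agent.Helper7.NT.Sob
import Pool.Agent.Helper7.NT.Vsp

/-!
Module Tint: integrability in time of the terms of the weak formulation, tested with a fixed
element `a` of `H¹_{0,σ}` with gradient `A`.
-/

open MeasureTheory Set Filter Topology
open scoped ENNReal

namespace Pool.Agent.Helper7.NT

open Pool.Agent.Helper52.NSE

variable {Ω : Set E3} {ν T : ℝ} {u₀ : E3 → E3} {f u : ℝ → E3 → E3} {G : ℝ → Fin 3 → E3 → E3}

theorem tint_sqrt_le (x : ℝ) (hx : 0 ≤ x) : Real.sqrt x ≤ 1 + x := by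
  rw [Real.sqrt_le_left (by positivity)]
  nlinarith

theorem tint_one_add (h : IsWeakSolution Ω ν T u₀ f u G) (c : ℝ) :
    IntegrableOn (fun τ => c * (1 + gsq Ω (G τ))) (Icc 0 T) := by
  have h1 : IntegrableOn (fun _ => (1 : ℝ)) (Icc 0 T) := by
    rw [integrableOn_const_iff]
    right
    exact measure_Icc_lt_top
  exact (h1.add h.gsq_int).const_mul c

theorem gp_time (h : IsWeakSolution Ω ν T u₀ f u G) {A : Fin 3 → E3 → E3}
    (hA : ∀ i, MemLp (A i) 2 (volume.restrict Ω)) :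
    IntegrableOn (fun τ => gp Ω (G τ) A) (Icc 0 T) := by
  have hm : AEStronglyMeasurable (fun τ => gp Ω (G τ) A) (volume.restrict (Icc 0 T)) := by
    have h1 : AEStronglyMeasurable (fun q : ℝ × E3 => ∑ i, (inner ℝ (G q.1 i q.2) (A i q.2) : ℝ))
        ((volume.restrict (Icc 0 T)).prod (volume.restrict Ω)) := by
      refine Finset.aestronglyMeasurable_fun_sum _ fun i _ => ?_
      exact (h.grad_meas i).inner (𝕜 := ℝ) (hA i).1.comp_snd
    exact h1.integral_prod_right'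
  refine Integrable.mono' (tint_one_add h (Real.sqrt (gsq Ω A))) hm ?_
  filter_upwards [h.grad_mem] with τ hτ
  rw [Real.norm_eq_abs]
  refine (gp_le (fun i => hτ.grad_memLp i) hA).trans ?_
  rw [mul_comm]
  exact mul_le_mul_of_nonneg_left (tint_sqrt_le _ (gsq_nonneg Ω (G τ))) (Real.sqrt_nonneg _)

theorem pair_time (h : IsWeakSolution Ω ν T u₀ f u G) {a : E3 → E3}
    (ha : MemLp a 2 (volume.restrict Ω)) :
    IntegrableOn (fun τ => ∫ x in Ω, inner ℝ (f τ x) (a x)) (Icc 0 T) := by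
  have hm : AEStronglyMeasurable (fun τ => ∫ x in Ω, (inner ℝ (f τ x) (a x) : ℝ))
      (volume.restrict (Icc 0 T)) := by
    have h1 : AEStronglyMeasurable (fun q : ℝ × E3 => (inner ℝ (f q.1 q.2) (a q.2) : ℝ))
        ((volume.restrict (Icc 0 T)).prod (volume.restrict Ω)) :=
      h.force_meas.inner (𝕜 := ℝ) ha.1.comp_snd
    exact h1.integral_prod_right'
  refine Integrable.mono' (h.nmf_int.mul_const (nm Ω a)) hm ?_
  filter_upwards [h.force_mem] with τ hτ
  rw [Real.norm_eq_abs]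
  exact cs hτ.memLp ha

/-- `b = 0` and `b = a` are the two cases used -/
theorem Bf_time (hO : IsOpen Ω) (hb : Bornology.IsBounded Ω)
    (h : IsWeakSolution Ω ν T u₀ f u G) {b : E3 → E3} {A : Fin 3 → E3 → E3}
    (hb6 : MemLp b 6 (volume.restrict Ω)) (hA : ∀ i, MemLp (A i) 2 (volume.restrict Ω)) :
    IntegrableOn (fun τ => Bf Ω (u τ) A (fun x => u τ x - b x)) (Icc 0 T) := by
  obtain ⟨CS, hCS, hS⟩ := sobolev hO hb
  obtain ⟨C, hC, hB⟩ := tri_bound (Ω := Ω) hb
  have hm : AEStronglyMeasurable (fun τ => Bf Ω (u τ) A (fun x => u τ x - b x))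
      (volume.restrict (Icc 0 T)) := by
    have h1 : AEStronglyMeasurable (fun q : ℝ × E3 => ∑ i, (u q.1 q.2) i *
        (inner ℝ (u q.1 q.2 - b q.2) (A i q.2) : ℝ))
        ((volume.restrict (Icc 0 T)).prod (volume.restrict Ω)) := by
      refine Finset.aestronglyMeasurable_fun_sum _ fun i _ => ?_
      refine AEStronglyMeasurable.mul ?_ ?_
      · exact (PiLp.continuous_apply 2 (fun _ : Fin 3 => ℝ) i).comp_aestronglyMeasurable h.meas
      · exact (h.meas.sub hb6.1.comp_snd).inner (𝕜 := ℝ) (hA i).1.comp_snd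
    exact h1.integral_prod_right'
  refine Integrable.mono' (tint_one_add h (C * CS * (CS + n6 Ω b) * Real.sqrt (gsq Ω A))) hm ?_
  filter_upwards [h.grad_mem] with τ hτ
  rw [Real.norm_eq_abs]
  have hu6 : MemLp (u τ) 6 (volume.restrict Ω) :=
    ⟨hτ.1, (hS _ _ hτ).trans_lt ENNReal.ofReal_lt_top⟩
  have hw6 : MemLp (fun x => u τ x - b x) 6 (volume.restrict Ω) := hu6.sub hb6
  refine (hB _ _ _ hu6 hw6 hA).trans ?_
  set g := gsq Ω (G τ) with hg
  have hg0 : 0 ≤ g := gsq_nonneg Ω (G τ)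
  have n1 : n6 Ω (u τ) ≤ CS * Real.sqrt g :=
    ENNReal.toReal_le_of_le_ofReal (by positivity) (hS _ _ hτ)
  have n2 : n6 Ω (fun x => u τ x - b x) ≤ n6 Ω (u τ) + n6 Ω b := by
    unfold n6
    rw [← ENNReal.toReal_add hu6.2.ne hb6.2.ne]
    refine ENNReal.toReal_mono (ENNReal.add_ne_top.mpr ⟨hu6.2.ne, hb6.2.ne⟩) ?_
    exact eLpNorm_sub_le hu6.1 hb6.1 (by norm_num)
  have n0 : 0 ≤ n6 Ω b := ENNReal.toReal_nonneg
  have n3 : 0 ≤ n6 Ω (u τ) := ENNReal.toReal_nonneg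
  have n4 : 0 ≤ n6 Ω (fun x => u τ x - b x) := ENNReal.toReal_nonneg
  have s0 : 0 ≤ Real.sqrt g := Real.sqrt_nonneg _
  have s1 : Real.sqrt g ≤ 1 + g := tint_sqrt_le _ hg0
  have s2 : Real.sqrt g * Real.sqrt g = g := Real.mul_self_sqrt hg0
  have m1 : n6 Ω (u τ) * n6 Ω (fun x => u τ x - b x) ≤
      (CS * Real.sqrt g) * (CS * Real.sqrt g + n6 Ω b) :=
    mul_le_mul n1 (n2.trans (by linarith)) n4 (by positivity)
  have m2 : (CS * Real.sqrt g) * (CS * Real.sqrt g + n6 Ω b) ≤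
      CS * (CS + n6 Ω b) * (1 + g) := by
    have : (CS * Real.sqrt g) * (CS * Real.sqrt g + n6 Ω b) =
        CS * CS * (Real.sqrt g * Real.sqrt g) + CS * n6 Ω b * Real.sqrt g := by ring
    rw [this, s2]
    have e1 : CS * CS * g ≤ CS * CS * (1 + g) :=
      mul_le_mul_of_nonneg_left (by linarith) (by positivity)
    have e2 : CS * n6 Ω b * Real.sqrt g ≤ CS * n6 Ω b * (1 + g) :=
      mul_le_mul_of_nonneg_left s1 (by positivity)
    nlinarith
  calc C * n6 Ω (u τ) * n6 Ω (fun x => u τ x - b x) * Real.sqrt (gsq Ω A)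
      = C * Real.sqrt (gsq Ω A) * (n6 Ω (u τ) * n6 Ω (fun x => u τ x - b x)) := by ring
    _ ≤ C * Real.sqrt (gsq Ω A) * (CS * (CS + n6 Ω b) * (1 + g)) :=
        mul_le_mul_of_nonneg_left (m1.trans m2) (by positivity)
    _ = C * CS * (CS + n6 Ω b) * Real.sqrt (gsq Ω A) * (1 + g) := by ring

end Pool.Agent.Helper7.NT
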