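import Pool.Agent.Helper7.NT.Defs

/-!
Module Tri: the trilinear form on `L⁶ × L² × L⁶` in a bounded domain.
-/

open MeasureTheory Set Filter Topology
open scoped ENNReal

namespace Pool.Agent.Helper7.NT

open Pool.Agent.Helper52.NSE

variable {Ω : Set E3}

theorem Tri_enn {μ : Measure E3} {v w B : E3 → E3} (hv : AEStronglyMeasurable v μ)
    (hw : AEStronglyMeasurable w μ) (hB : AEStronglyMeasurable B μ) :
    ∫⁻ x, ‖v x‖ₑ * ‖w x‖ₑ * ‖B x‖ₑ ∂μ ≤
      eLpNorm v 6 μ * eLpNorm w 6 μ * eLpNorm B 2 μ * μ univ ^ (1 / 6 : ℝ) := by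
  have hkey := ENNReal.lintegral_prod_norm_pow_le (μ := μ) (Finset.univ : Finset (Fin 4))
    (f := ![fun x => ‖v x‖ₑ ^ (6 : ℝ), fun x => ‖w x‖ₑ ^ (6 : ℝ), fun x => ‖B x‖ₑ ^ (2 : ℝ),
      fun _ => 1]) (by
      intro i _
      fin_cases i
      · exact hv.enorm.pow_const _
      · exact hw.enorm.pow_const _
      · exact hB.enorm.pow_const _
      · exact aemeasurable_const)
    (p := ![1 / 6, 1 / 6, 1 / 2, 1 / 6]) (by simp [Fin.sum_univ_four]; norm_num) (by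
      intro i _
      fin_cases i <;> simp)
  simp only [Fin.prod_univ_four, Matrix.cons_val_zero, Matrix.cons_val_one, Matrix.cons_val,
    ENNReal.one_rpow, mul_one, lintegral_const, one_mul] at hkey
  have e1 : ∀ y : ℝ≥0∞, (y ^ (6 : ℝ)) ^ (1 / 6 : ℝ) = y := by
    intro y
    rw [← ENNReal.rpow_mul]
    norm_num
  have e2 : ∀ y : ℝ≥0∞, (y ^ (2 : ℝ)) ^ (1 / 2 : ℝ) = y := by
    intro y
    rw [← ENNReal.rpow_mul]
    norm_num
  simp only [e1, e2] at hkey
  refine hkey.trans (le_of_eq ?_)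
  have h6 : ∀ g : E3 → E3, eLpNorm g 6 μ = (∫⁻ x, ‖g x‖ₑ ^ (6 : ℝ) ∂μ) ^ (1 / 6 : ℝ) := by
    intro g
    rw [eLpNorm_eq_lintegral_rpow_enorm_toReal (by norm_num) (by norm_num)]
    simp
  have h2 : ∀ g : E3 → E3, eLpNorm g 2 μ = (∫⁻ x, ‖g x‖ₑ ^ (2 : ℝ) ∂μ) ^ (1 / 2 : ℝ) := by
    intro g
    rw [eLpNorm_eq_lintegral_rpow_enorm_toReal (by norm_num) (by norm_num)]
    simp
  rw [h6, h6, h2]

theorem Tri_term_le (v w B : E3) (i : Fin 3) : ‖v i * inner ℝ w B‖ₑ ≤ ‖v‖ₑ * ‖w‖ₑ * ‖B‖ₑ := by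
  rw [enorm_mul, mul_assoc]
  have h1 : ‖v i‖ₑ ≤ ‖v‖ₑ := by
    rw [enorm_le_iff_norm_le]
    exact PiLp.norm_apply_le v i
  have h2 : ‖(inner ℝ w B : ℝ)‖ₑ ≤ ‖w‖ₑ * ‖B‖ₑ := by
    rw [← enorm_norm w, ← enorm_norm B, ← enorm_mul, enorm_le_iff_norm_le]
    rw [norm_mul, norm_norm, norm_norm]
    exact norm_inner_le_norm w B
  exact mul_le_mul' h1 h2

theorem Tri_meas {μ : Measure E3} {v w B : E3 → E3} (hv : AEStronglyMeasurable v μ)
    (hw : AEStronglyMeasurable w μ) (hB : AEStronglyMeasurable B μ) (i : Fin 3) :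
    AEStronglyMeasurable (fun x => (v x) i * inner ℝ (w x) (B x)) μ := by
  have h1 : AEStronglyMeasurable (fun x => (v x) i) μ :=
    (EuclideanSpace.proj (𝕜 := ℝ) i).continuous.comp_aestronglyMeasurable hv
  exact h1.mul (hw.inner (𝕜 := ℝ) hB)

theorem Tri_fin (hb : Bornology.IsBounded Ω) : (volume.restrict Ω) univ ≠ ⊤ := by
  rw [Measure.restrict_apply_univ]
  exact hb.measure_lt_top.ne

theorem Tri_lint_ne_top (hb : Bornology.IsBounded Ω) {v w B : E3 → E3}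
    (hv : MemLp v 6 (volume.restrict Ω)) (hw : MemLp w 6 (volume.restrict Ω))
    (hB : MemLp B 2 (volume.restrict Ω)) :
    eLpNorm v 6 (volume.restrict Ω) * eLpNorm w 6 (volume.restrict Ω) *
      eLpNorm B 2 (volume.restrict Ω) * (volume.restrict Ω) univ ^ (1 / 6 : ℝ) ≠ ⊤ :=
  ENNReal.mul_ne_top (ENNReal.mul_ne_top (ENNReal.mul_ne_top hv.2.ne hw.2.ne) hB.2.ne)
    (ENNReal.rpow_ne_top_of_nonneg (by norm_num) (Tri_fin hb))

theorem Tri_term_int (hb : Bornology.IsBounded Ω) {v w B : E3 → E3}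
    (hv : MemLp v 6 (volume.restrict Ω)) (hw : MemLp w 6 (volume.restrict Ω))
    (hB : MemLp B 2 (volume.restrict Ω)) (i : Fin 3) :
    Integrable (fun x => (v x) i * inner ℝ (w x) (B x)) (volume.restrict Ω) := by
  refine ⟨Tri_meas hv.1 hw.1 hB.1 i, ?_⟩
  rw [hasFiniteIntegral_iff_enorm]
  refine lt_of_le_of_lt ((lintegral_mono fun x => Tri_term_le (v x) (w x) (B x) i).trans
    (Tri_enn hv.1 hw.1 hB.1)) ?_
  exact (Tri_lint_ne_top hb hv hw hB).lt_top

theorem tri_int (hb : Bornology.IsBounded Ω) {v w : E3 → E3} {A : Fin 3 → E3 → E3}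
    (hv : MemLp v 6 (volume.restrict Ω)) (hw : MemLp w 6 (volume.restrict Ω))
    (hA : ∀ i, MemLp (A i) 2 (volume.restrict Ω)) :
    Integrable (fun x => ∑ i, (v x) i * inner ℝ (w x) (A i x)) (volume.restrict Ω) :=
  integrable_finsetSum _ fun i _ => Tri_term_int hb hv hw (hA i) i

theorem tri_bound (hb : Bornology.IsBounded Ω) : ∃ C : ℝ, 0 < C ∧
    ∀ (v w : E3 → E3) (A : Fin 3 → E3 → E3), MemLp v 6 (volume.restrict Ω) →
      MemLp w 6 (volume.restrict Ω) → (∀ i, MemLp (A i) 2 (volume.restrict Ω)) →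
      |Bf Ω v A w| ≤ C * n6 Ω v * n6 Ω w * Real.sqrt (gsq Ω A) := by
  set m : ℝ := ((volume.restrict Ω) univ ^ (1 / 6 : ℝ)).toReal with hm
  have hm0 : 0 ≤ m := ENNReal.toReal_nonneg
  refine ⟨3 * m + 1, by linarith, ?_⟩
  intro v w A hv hw hA
  have hterm : ∀ i, |∫ x in Ω, (v x) i * inner ℝ (w x) (A i x)| ≤
      m * n6 Ω v * n6 Ω w * Real.sqrt (gsq Ω A) := by
    intro i
    have h1 : ‖∫ x in Ω, (v x) i * inner ℝ (w x) (A i x)‖ₑ ≤
        eLpNorm v 6 (volume.restrict Ω) * eLpNorm w 6 (volume.restrict Ω) *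
      eLpNorm (A i) 2 (volume.restrict Ω) * (volume.restrict Ω) univ ^ (1 / 6 : ℝ) :=
      (enorm_integral_le_lintegral_enorm _).trans
        ((lintegral_mono fun x => Tri_term_le (v x) (w x) (A i x) i).trans
          (Tri_enn hv.1 hw.1 (hA i).1))
    have h2 := ENNReal.toReal_mono (Tri_lint_ne_top hb hv hw (hA i)) h1
    rw [toReal_enorm, Real.norm_eq_abs] at h2
    refine h2.trans ?_
    rw [ENNReal.toReal_mul, ENNReal.toReal_mul, ENNReal.toReal_mul, nm_eq (hA i),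
      ENNReal.toReal_ofReal (nm_nonneg _ _)]
    have h3 := nm_le_gsq hA i
    have h4 : 0 ≤ n6 Ω v * n6 Ω w * m := by
      have := (ENNReal.toReal_nonneg (a := eLpNorm v 6 (volume.restrict Ω)))
      have := (ENNReal.toReal_nonneg (a := eLpNorm w 6 (volume.restrict Ω)))
      unfold n6
      positivity
    have h5 := mul_le_mul_of_nonneg_left h3 h4
    unfold n6 at h5 ⊢
    calc _ = (eLpNorm v 6 (volume.restrict Ω)).toReal * (eLpNorm w 6 (volume.restrict Ω)).toReal *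
          m * nm Ω (A i) := by ring
      _ ≤ _ := h5
      _ = _ := by ring
  have h0 : 0 ≤ n6 Ω v * n6 Ω w * Real.sqrt (gsq Ω A) := by
    have := (ENNReal.toReal_nonneg (a := eLpNorm v 6 (volume.restrict Ω)))
    have := (ENNReal.toReal_nonneg (a := eLpNorm w 6 (volume.restrict Ω)))
    unfold n6
    positivity
  unfold Bf
  rw [integral_finsetSum _ fun i _ => Tri_term_int hb hv hw (hA i) i]
  refine (Finset.abs_sum_le_sum_abs _ _).trans ((Finset.sum_le_sum fun i _ => hterm i).trans ?_)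
  rw [Finset.sum_const, Finset.card_univ, Fintype.card_fin, nsmul_eq_mul]
  push_cast
  calc 3 * (m * n6 Ω v * n6 Ω w * Real.sqrt (gsq Ω A)) =
      3 * m * (n6 Ω v * n6 Ω w * Real.sqrt (gsq Ω A)) := by ring
    _ ≤ (3 * m + 1) * (n6 Ω v * n6 Ω w * Real.sqrt (gsq Ω A)) :=
        mul_le_mul_of_nonneg_right (by linarith) h0
    _ = _ := by ring

theorem Bf_sub_right (hb : Bornology.IsBounded Ω) {v w w' : E3 → E3} {A : Fin 3 → E3 → E3}
    (hv : MemLp v 6 (volume.restrict Ω)) (hw : MemLp w 6 (volume.restrict Ω))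
    (hw' : MemLp w' 6 (volume.restrict Ω)) (hA : ∀ i, MemLp (A i) 2 (volume.restrict Ω)) :
    Bf Ω v A (fun x => w x - w' x) = Bf Ω v A w - Bf Ω v A w' := by
  unfold Bf
  rw [← integral_sub (tri_int hb hv hw hA) (tri_int hb hv hw' hA)]
  refine integral_congr_ae (Eventually.of_forall fun x => ?_)
  simp only []
  rw [← Finset.sum_sub_distrib]
  refine Finset.sum_congr rfl fun i _ => ?_
  rw [inner_sub_left, mul_sub]

theorem Bf_sub_mid (hb : Bornology.IsBounded Ω) {v w : E3 → E3} {A A' : Fin 3 → E3 → E3}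
    (hv : MemLp v 6 (volume.restrict Ω)) (hw : MemLp w 6 (volume.restrict Ω))
    (hA : ∀ i, MemLp (A i) 2 (volume.restrict Ω))
    (hA' : ∀ i, MemLp (A' i) 2 (volume.restrict Ω)) :
    Bf Ω v (fun i x => A i x - A' i x) w = Bf Ω v A w - Bf Ω v A' w := by
  unfold Bf
  rw [← integral_sub (tri_int hb hv hw hA) (tri_int hb hv hw hA')]
  refine integral_congr_ae (Eventually.of_forall fun x => ?_)
  simp only []
  rw [← Finset.sum_sub_distrib]
  refine Finset.sum_congr rfl fun i _ => ?_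
  rw [inner_sub_right, mul_sub]

end Pool.Agent.Helper7.NT
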